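import Pool.Agent.TH214.V.RelM

/-! Tame Kummer extensions of fields with a normal form. -/

set_option autoImplicit false
set_option linter.unusedVariables false
set_option linter.unusedSectionVars false

universe u

open Pool.Agent.W558 TensorProduct

namespace Pool.Agent.TH214.V

section bin

variable {k : Type u} [Field k] {J : Type} [Fintype J]

/-- A difference of two monomials. -/
noncomputable def bin (k : Type u) [Field k] {J : Type} (e1 e2 : J → ℤ) : (J → ℤ) →₀ k :=
  Finsupp.single e1 1 - Finsupp.single e2 1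

variable {e1 e2 : J → ℤ}

lemma bin_left (h : e1 ≠ e2) : bin k e1 e2 e1 = 1 := by
  classical
  unfold bin
  rw [Finsupp.sub_apply, Finsupp.single_eq_same, Finsupp.single_eq_of_ne h, sub_zero]

lemma bin_right (h : e1 ≠ e2) : bin k e1 e2 e2 = -1 := by
  classical
  unfold bin
  rw [Finsupp.sub_apply, Finsupp.single_eq_same, Finsupp.single_eq_of_ne h.symm, zero_sub]

open Classical in
lemma bin_support (h : e1 ≠ e2) : (bin k e1 e2).support = {e1, e2} := by
  ext m
  rw [Finsupp.mem_support_iff, Finset.mem_insert, Finset.mem_singleton]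
  constructor
  · intro hm
    by_contra hcon
    push Not at hcon
    apply hm
    unfold bin
    rw [Finsupp.sub_apply, Finsupp.single_eq_of_ne hcon.1, Finsupp.single_eq_of_ne hcon.2,
      sub_zero]
  · rintro (rfl | rfl)
    · rw [bin_left h]; exact one_ne_zero
    · rw [bin_right h]; exact neg_ne_zero.2 one_ne_zero

lemma bin_lv {K : Type u} [Field K] [Algebra k K] (h : e1 ≠ e2) (z : J → K) :
    lv (bin k e1 e2) z = ∏ j, z j ^ e1 j - ∏ j, z j ^ e2 j := by
  classical
  unfold lv
  rw [bin_support h, Finset.sum_pair h, bin_left h, bin_right h, one_smul, neg_smul, one_smul,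
    sub_eq_add_neg]

open Classical in
lemma bin_face {κ : Type u} [Field κ] [Algebra k κ] (h : e1 ≠ e2) (l : J → ℤ) (z : J → κ)
    (hz : ∀ j, z j ≠ 0) (hv : vl (bin k e1 e2) l z = 0) :
    face (bin k e1 e2) l = {e1, e2} ∧ ∏ j, z j ^ e1 j = ∏ j, z j ^ e2 j := by
  have hz0 : ∀ e : J → ℤ, ∏ j, z j ^ e j ≠ 0 := fun e =>
    Finset.prod_ne_zero_iff.2 fun j _ => zpow_ne_zero _ (hz j)
  have hs := bin_support (k := k) h
  rcases lt_trichotomy (∑ j, l j * e1 j) (∑ j, l j * e2 j) with hlt | heq | hlt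
  · exfalso
    have hf : face (bin k e1 e2) l = {e1} := by
      ext m
      unfold face
      rw [Finset.mem_filter, hs, Finset.mem_insert, Finset.mem_singleton, Finset.mem_singleton]
      constructor
      · rintro ⟨rfl | rfl, h2⟩
        · rfl
        · exact absurd (h2 e1 (by simp)) (not_le.2 hlt)
      · rintro rfl
        refine ⟨Or.inl rfl, fun m' hm' => ?_⟩
        rcases Finset.mem_insert.1 hm' with rfl | hm'
        · exact le_rfl
        · rw [Finset.mem_singleton.1 hm']
          exact hlt.le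
    unfold vl at hv
    rw [hf, Finset.sum_singleton, bin_left h, map_one, one_mul] at hv
    exact hz0 _ hv
  · have hf : face (bin k e1 e2) l = {e1, e2} := by
      unfold face
      rw [hs]
      refine Finset.filter_true_of_mem fun m hm m' hm' => ?_
      have h3 : ∀ m ∈ ({e1, e2} : Finset (J → ℤ)), ∑ j, l j * m j = ∑ j, l j * e1 j := by
        intro m hm
        rcases Finset.mem_insert.1 hm with rfl | hm
        · rfl
        · rw [Finset.mem_singleton.1 hm, heq]
      rw [h3 m hm, h3 m' hm']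
    refine ⟨hf, ?_⟩
    unfold vl at hv
    rw [hf, Finset.sum_pair h, bin_left h, bin_right h, map_one, one_mul, map_neg, map_one,
      neg_one_mul, add_neg_eq_zero] at hv
    exact hv
  · exfalso
    have hf : face (bin k e1 e2) l = {e2} := by
      ext m
      unfold face
      rw [Finset.mem_filter, hs, Finset.mem_insert, Finset.mem_singleton]
      constructor
      · rintro ⟨rfl | rfl, h2⟩
        · exact absurd (h2 e2 (by simp)) (not_le.2 hlt)
        · rfl
      · rintro rfl
        refine ⟨Or.inr rfl, fun m' hm' => ?_⟩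
        rcases Finset.mem_insert.1 hm' with rfl | hm'
        · exact hlt.le
        · rw [Finset.mem_singleton.1 hm']
    unfold vl at hv
    rw [hf, Finset.sum_singleton, bin_right h, map_neg, map_one, neg_one_mul, neg_eq_zero] at hv
    exact hz0 _ hv

lemma bin_der {κ : Type u} [Field κ] [Algebra k κ] (h : e1 ≠ e2) (l : J → ℤ) (z a : J → κ)
    (hz : ∀ j, z j ≠ 0) (hv : vl (bin k e1 e2) l z = 0) :
    der (bin k e1 e2) l z a =
      (∑ j, (e1 j : κ) * a j - ∑ j, (e2 j : κ) * a j) * ∏ j, z j ^ e1 j := by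
  classical
  obtain ⟨hf, hp⟩ := bin_face h l z hz hv
  unfold der
  rw [hf, Finset.sum_pair h, bin_left h, bin_right h, map_one, one_mul, map_neg, map_one, ← hp]
  ring

end bin

section kum

variable {k : Type u} [Field k] {B : Type} [Fintype B] {r : ℕ}

/-- The Kummer equations. -/
noncomputable def kumG (k : Type u) [Field k] {B : Type} {r : ℕ} (m : ℕ) (lam : Fin r → B → ℤ)
    (j : Fin r) : (B ⊕ Fin r → ℤ) →₀ k :=
  bin k (Sum.elim 0 (Pi.single j (m : ℤ))) (Sum.elim (lam j) 0)

lemma kum_ne {m : ℕ} (hm : m ≠ 0) (lam : Fin r → B → ℤ) (j : Fin r) :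
    (Sum.elim 0 (Pi.single j (m : ℤ)) : B ⊕ Fin r → ℤ) ≠ Sum.elim (lam j) 0 := by
  intro h
  have h1 := congrFun h (Sum.inr j)
  simp only [Sum.elim_inr, Pi.single_eq_same, Pi.zero_apply, Nat.cast_eq_zero] at h1
  exact hm h1

lemma kum_ndv {m : ℕ} (hm : (m : k) ≠ 0) (lam : Fin r → B → ℤ) (tw : Empty → Prop) :
    NDV (kumG k m lam) (fun t : Empty => t.elim) (fun q : B ⊕ Fin r => q.isRight = true) tw r := by
  classical
  have hm0 : m ≠ 0 := by
    rintro rfl
    exact hm Nat.cast_zero
  intro κ _ _ l z hz hv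
  have hmκ : (m : κ) ≠ 0 := by
    have h1 : (m : κ) = algebraMap k κ (m : k) := by simp
    rw [h1]
    exact (_root_.map_ne_zero _).2 hm
  refine ⟨⟨fun i => i, fun i => Sum.elim 0 (Pi.single i
    ((m : κ) * ∏ j, z j ^ (Sum.elim 0 (Pi.single i (m : ℤ)) : B ⊕ Fin r → ℤ) j)⁻¹), ?_, ?_⟩,
    fun t => t.elim⟩
  · rintro i (b | j) hj
    · rfl
    · exact absurd rfl hj
  · intro i j
    have h1 := bin_der (kum_ne hm0 lam j) l z (Sum.elim 0 (Pi.single i
      ((m : κ) * ∏ j, z j ^ (Sum.elim 0 (Pi.single i (m : ℤ)) : B ⊕ Fin r → ℤ) j)⁻¹)) hz (hv j)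
    refine h1.trans ?_
    simp only [Fintype.sum_sum_type, Sum.elim_inl, Sum.elim_inr, Pi.zero_apply, Int.cast_zero,
      zero_mul, mul_zero, Finset.sum_const_zero, zero_add, sub_zero]
    split_ifs with hij
    · subst hij
      rw [Finset.sum_eq_single i]
      · rw [Pi.single_eq_same, Pi.single_eq_same, Int.cast_natCast]
        have hz0 : ∏ j, z j ^ (Sum.elim 0 (Pi.single i (m : ℤ)) : B ⊕ Fin r → ℤ) j ≠ 0 :=
          Finset.prod_ne_zero_iff.2 fun j _ => zpow_ne_zero _ (hz j)
        rw [mul_inv, mul_assoc, mul_assoc, inv_mul_cancel₀ hz0, mul_one, mul_inv_cancel₀ hmκ]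
      · intro b _ hb
        rw [Pi.single_eq_of_ne hb, Int.cast_zero, zero_mul]
      · intro h
        exact absurd (Finset.mem_univ _) h
    · rw [Finset.sum_eq_zero, zero_mul]
      intro b _
      by_cases hb : b = j
      · subst hb
        have h5 : (Pi.single i ((m : κ) * ∏ j, z j ^ (Sum.elim 0 (Pi.single i (m : ℤ)) :
            B ⊕ Fin r → ℤ) j)⁻¹ : Fin r → κ) b = 0 := Pi.single_eq_of_ne (Ne.symm hij) _
        rw [h5, mul_zero]
      · rw [Pi.single_eq_of_ne hb, Int.cast_zero, zero_mul]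

end kum

section gma

variable {k E1 K0 : Type u} [Field k] [Field E1] [Field K0] [Algebra k E1]
  [Algebra k K0] [Algebra E1 K0] [IsScalarTower k E1 K0] {r : ℕ} {ι B : Type} [Fintype B]

lemma evm_aeval (y : Fin r → K0) (a : MvPolynomial (Fin r) E1) :
    evm (IsScalarTower.toAlgHom k E1 K0) y a = MvPolynomial.aeval y a := rfl

lemma evm_gen {y : Fin r → K0} (hgen : IntermediateField.adjoin E1 (Set.range y) = ⊤) (x : K0) :
    ∃ a b : MvPolynomial (Fin r) E1, evm (IsScalarTower.toAlgHom k E1 K0) y b ≠ 0 ∧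
      x * evm (IsScalarTower.toAlgHom k E1 K0) y b =
        evm (IsScalarTower.toAlgHom k E1 K0) y a := by
  have hx : x ∈ IntermediateField.adjoin E1 (Set.range y) := by
    rw [hgen]; trivial
  obtain ⟨a, ha, b, hb, hab⟩ := IntermediateField.mem_adjoin_iff_div.1 hx
  rw [Algebra.adjoin_range_eq_range_aeval] at ha hb
  obtain ⟨a', ha'⟩ := ha
  obtain ⟨b', hb'⟩ := hb
  have ha'' : MvPolynomial.aeval y a' = a := ha'
  have hb'' : MvPolynomial.aeval y b' = b := hb'
  by_cases h0 : b = 0
  · refine ⟨0, 1, ?_, ?_⟩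
    · rw [map_one]; exact one_ne_zero
    · rw [map_one, map_zero, mul_one, hab, h0, div_zero]
  · refine ⟨a', b', ?_, ?_⟩
    · rw [evm_aeval, hb'']; exact h0
    · rw [evm_aeval, evm_aeval, ha'', hb'', hab, div_mul_cancel₀ _ h0]

lemma exists_dn {d0 : ℕ} (htr : Algebra.trdeg k E1 = d0) :
    ∃ b : Fin d0 → K0, AlgebraicIndependent k b := by
  obtain ⟨s, hs⟩ := exists_isTranscendenceBasis k E1
  have h1 := hs.cardinalMk_eq_trdeg
  rw [htr] at h1
  have h2 : Finite s := by
    rw [← Cardinal.lt_aleph0_iff_finite, h1]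
    exact Cardinal.natCast_lt_aleph0
  have h3 : Nat.card s = d0 := by
    rw [Nat.card, h1, Cardinal.toNat_natCast]
  obtain ⟨ε⟩ : Nonempty (Fin d0 ≃ s) := by
    rw [← h3]
    exact ⟨(Finite.equivFin s).symm⟩
  refine ⟨fun i => algebraMap E1 K0 (ε i), ?_⟩
  have h4 := hs.1.comp ε ε.injective
  exact h4.map' (f := IsScalarTower.toAlgHom k E1 K0) (algebraMap E1 K0).injective

/-- The Artin-Schreier normal form in a tame Kummer extension. -/
theorem kummer_gma (p : ℕ) [Fact p.Prime] {d0 : ℕ} (htr : Algebra.trdeg k E1 = d0)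
    {m : ℕ} (hm : (m : k) ≠ 0) {w : Fin r → K0} (hw0 : ∀ j, w j ≠ 0)
    {f : ι → E1} {g : B → E1} (h : GMA p k f g) (lam : Fin r → B → ℤ)
    (hw : ∀ j, w j ^ m = algebraMap E1 K0 (∏ b, g b ^ lam j b))
    (hgen : IntermediateField.adjoin E1 (Set.range w) = ⊤) :
    GMA p k (fun l => algebraMap E1 K0 (f l))
      (Sum.elim (fun b => algebraMap E1 K0 (g b)) w) := by
  classical
  have hm0 : m ≠ 0 := by
    rintro rfl
    exact hm Nat.cast_zero
  have h1 := gma_relative p (j1' := IsScalarTower.toAlgHom k E1 K0) htr hw0 (evm_gen hgen)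
    (Nat.add_comm r d0) (exists_dn htr) h (kumG k m lam) (fun t : Empty => t.elim)
    (fun t => t.elim) (fun j => by
      unfold kumG
      rw [bin_lv (kum_ne hm0 lam j)]
      simp only [Fintype.prod_sum_type, Sum.elim_inl, Sum.elim_inr, Pi.zero_apply, zpow_zero,
        Finset.prod_const_one, one_mul, mul_one]
      rw [Finset.prod_eq_single j]
      · rw [Pi.single_eq_same, zpow_natCast, hw, map_prod, sub_eq_zero]
        refine Finset.prod_congr rfl fun b _ => ?_
        exact map_zpow₀ _ _ _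
      · intro b _ hb
        rw [Pi.single_eq_of_ne hb, zpow_zero]
      · intro h
        exact absurd (Finset.mem_univ _) h)
    (kum_ndv hm lam _) (fun t => t.elim)
  exact h1.reindex Sum.inl Sum.inl_injective id

end gma

end Pool.Agent.TH214.V
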