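import Pool.Agent.TH214.V.SchGma
import Pool.Agent.TH214.Res

/-! Resolution of the covers of the subvarieties. -/

set_option autoImplicit false
set_option linter.unusedVariables false
set_option linter.unusedSectionVars false

universe u

open Pool.Agent.W558 Pool.Agent.W177.WD Polynomial TensorProduct AlgebraicGeometry CategoryTheory

namespace Pool.Agent.TH214.V

section lm

/-- A finitely generated algebra which is integral over the algebra generated by finitely many
functions which are monomials on a smooth model has smooth charts. -/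
theorem lm_of_fn (k K : Type u) [Field k] [PerfectField k] [Field K] [Algebra k K]
    {T I : Type} [Finite T] [Fintype I] (M : LM (⊥ : Subalgebra k K) ⊤ T I)
    (A : Type u) [CommRing A] [IsDomain A] [Algebra k A] [Algebra.FiniteType k A] [Algebra A K]
    [IsScalarTower k A K] [IsFractionRing A K] (S : Finset A) (e : {a // a ∈ S} ≃ Fin S.card)
    (Γ : Fin S.card → I → ℤ) (hFn : Fn M (fun b => algebraMap A K (e.symm b).1) Γ) (hR : Frc M)
    (hA : ∀ a : A, IsIntegral (Algebra.adjoin k (S : Set A)) a) :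
    ∃ (T I : Type) (_ : Finite T) (_ : Fintype I),
      Nonempty (LM (IsScalarTower.toAlgHom k A K).range (IsScalarTower.toAlgHom k A K).range
        T I) := by
  classical
  let ρ : A →ₐ[k] K := IsScalarTower.toAlgHom k A K
  have hρ : Function.Injective ρ := IsFractionRing.injective A K
  have hfg : ρ.range.FG := by
    have h1 : (⊤ : Subalgebra k A).FG := Algebra.FiniteType.out
    have h2 := h1.map ρ
    rwa [Algebra.map_top] at h2
  have hint : ∀ y ∈ ρ.range, IsIntegral (Algebra.adjoin k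
      (Set.range fun b : Fin S.card => ρ (e.symm b).1)) y := by
    rintro _ ⟨a, rfl⟩
    have h1 : Algebra.adjoin k (Set.range fun b : Fin S.card => ρ (e.symm b).1) =
        (Algebra.adjoin k (S : Set A)).map ρ := by
      rw [AlgHom.map_adjoin]
      congr 1
      ext y
      constructor
      · rintro ⟨b, rfl⟩
        exact ⟨_, (e.symm b).2, rfl⟩
      · rintro ⟨a, ha, rfl⟩
        exact ⟨e ⟨a, ha⟩, by simp⟩
    rw [h1]
    obtain ⟨B, hB, hB'⟩ := hA a
    let φ : Algebra.adjoin k (S : Set A) →+* (Algebra.adjoin k (S : Set A)).map ρ :=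
      { toFun := fun y => ⟨ρ y, ⟨y, y.2, rfl⟩⟩
        map_one' := Subtype.ext (map_one ρ)
        map_mul' := fun y y' => Subtype.ext (map_mul ρ _ _)
        map_zero' := Subtype.ext (map_zero ρ)
        map_add' := fun y y' => Subtype.ext (map_add ρ _ _) }
    refine ⟨B.map φ, hB.map φ, ?_⟩
    rw [eval₂_map]
    have h2 : ((algebraMap ((Algebra.adjoin k (S : Set A)).map ρ) K).comp φ) =
        ρ.toRingHom.comp (algebraMap (Algebra.adjoin k (S : Set A)) A) := RingHom.ext fun y => rfl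
    rw [h2]
    have h3 := congrArg ρ.toRingHom hB'
    rw [hom_eval₂, map_zero] at h3
    exact h3
  have hfr : ∀ y : K, ∃ a ∈ ρ.range, ∃ b ∈ ρ.range, b ≠ 0 ∧ y = a * b⁻¹ := by
    intro y
    obtain ⟨a, b, hb, rfl⟩ := IsFractionRing.div_surjective (A := A) y
    exact ⟨_, ⟨a, rfl⟩, _, ⟨b, rfl⟩, by
      have := nonZeroDivisors.ne_zero hb
      exact (FaithfulSMul.algebraMap_eq_zero_iff A K).not.2 this, div_eq_mul_inv _ _⟩
  obtain ⟨T', I', hT', hI', M', -⟩ := wd_res k K T I (Fin S.card) M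
    (fun b => ρ (e.symm b).1) Γ hFn hR ρ.range hfg (fun b => ⟨_, rfl⟩) hint hfr
  exact ⟨T', I', hT', hI', ⟨M'⟩⟩

end lm

section main

variable (p : ℕ) [Fact p.Prime] (k K : Type u) [Field k] [PerfectField k] [CharP k p] [Field K]
  [Algebra k K] (m n : ℕ) (x : Fin m → Fin 2 → K) (y : Fin n → K) (hy0 : ∀ j, y j ≠ 0)
  (d' c : ℕ) (ρ : Fin d' → Fin n) (hcd : c + d' = n)
  (hxy : AlgebraicIndependent k (Sum.elim (fun q : Fin m × Fin 2 => x q.1 q.2) (y ∘ ρ)))
  (P Q : Fin m → MvPolynomial (Fin 2) k) (hQ : ∀ i, Q i ≠ 0)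
  (B : Type) [Fintype B] (U V : B → Fin m → MvPolynomial (Fin 2) k) (hU : ∀ b i, U b i ≠ 0)
  (hV : ∀ b i, V b i ≠ 0) (g : B → K)
  (hg : ∀ b, g b = ∏ i, MvPolynomial.aeval (x i) (U b i) / MvPolynomial.aeval (x i) (V b i))
  (J0 : Type) [Fintype J0] (ι0 : J0 ↪ B ⊕ Fin n) (σ τ : Type) [Finite σ] [Fintype τ]
  (G : σ → (J0 → ℤ) →₀ k) (F : τ → (J0 → ℤ) →₀ k) (tw : τ → Prop)
  (hG : ∀ s, lv (G s) (fun j => Sum.elim g y (ι0 j)) = 0)
  (hND : NDV G F (fun j => (ι0 j).isRight = true) tw c)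
  (hun : ∀ t, ¬ tw t → (∀ s, ∀ m ∈ (G s).support, ∀ j, ¬ (ι0 j).isRight = true →
      m j = 0) ∧ ∀ m ∈ (F t).support, ∀ j, ¬ (ι0 j).isRight = true → m j = 0)
  (r : ℕ) (w : Fin r → K)

include hy0 hcd hxy hQ hU hV hg hG hND hun

/-- Models of the covers. -/
theorem sch_model [CharP K p] (lam : Fin r → Fin m → ZMod p) (mu : Fin r → τ → ZMod p)
    (hw : ∀ j, w j ^ p - w j = ∑ i, zc p K (lam j i) *
      (MvPolynomial.aeval (x i) (P i) / MvPolynomial.aeval (x i) (Q i)) +
      ∑ t, zc p K (mu j t) * lv (F t) (fun j => Sum.elim g y (ι0 j)))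
    (hgen : IntermediateField.adjoin k (Set.range w ∪
      Set.range (Sum.elim (fun q : Fin m × Fin 2 => x q.1 q.2) y)) = ⊤) :
    ∃ (T I : Type) (_ : Finite T) (_ : Fintype I) (M : LM (⊥ : Subalgebra k K) ⊤ T I)
      (Γ : B ⊕ Fin n → I → ℤ), Fn M (Sum.elim g y) Γ ∧ Frc M := by
  classical
  obtain ⟨f', F', g', hf', hF', hg', hGM⟩ := sch_gma p k K m n x y hy0 d' c ρ hcd hxy P Q hQ B U V
    hU hV g hg J0 ι0 σ τ G F tw hG hND hun
  let K0 := AF (k := k) (Sum.elim (fun q : Fin m × Fin 2 => x q.1 q.2) y)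
  have hcK : CharP K0 p := charP_of_injective_algebraMap (algebraMap k K0).injective p
  have hGT := gmt_init wt_pack hGM
  have htop : IntermediateField.adjoin K0 (Set.range w) = ⊤ := by
    rw [eq_top_iff]
    intro y' _
    have hy : y' ∈ IntermediateField.adjoin k (Set.range w ∪
      Set.range (Sum.elim (fun q : Fin m × Fin 2 => x q.1 q.2) y)) := by
      rw [hgen]; trivial
    have hle : IntermediateField.adjoin k (Set.range w ∪
      Set.range (Sum.elim (fun q : Fin m × Fin 2 => x q.1 q.2) y)) ≤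
        (IntermediateField.adjoin K0 (Set.range w)).restrictScalars k := by
      rw [IntermediateField.adjoin_le_iff]
      rintro y' (⟨j, rfl⟩ | hy')
      · exact IntermediateField.subset_adjoin K0 _ ⟨j, rfl⟩
      · have h1 : y' ∈ K0 := IntermediateField.subset_adjoin k _ hy'
        exact (IntermediateField.adjoin K0 (Set.range w)).algebraMap_mem ⟨y', h1⟩
    exact hle hy
  obtain ⟨T', I', hT', hI', M', n', a', h', Λ', R', Γ', -, hF', hR'⟩ :=
    gmt_tower wt_pack p k r K0 K _ _ hGT w (fun j => Sum.elim (lam j) (mu j)) (by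
      intro j
      rw [hw j, Fintype.sum_sum_type]
      congr 1
      · refine Finset.sum_congr rfl fun i _ => ?_
        exact congrArg _ (hf' i).symm
      · refine Finset.sum_congr rfl fun t _ => ?_
        exact congrArg _ (hF' t).symm) htop
  refine ⟨T', I', hT', hI', M', Γ', ?_, hR'⟩
  have h1 : (fun b => algebraMap K0 K (g' b)) = Sum.elim g y := funext hg'
  rw [← h1]
  exact hF'

end main

section res

variable (p : ℕ) [Fact p.Prime] (k K : Type u) [Field k] [PerfectField k] [CharP k p] [Field K]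
  [Algebra k K] (m n : ℕ) (x : Fin m → Fin 2 → K) (y : Fin n → K) (hy0 : ∀ j, y j ≠ 0)
  (d' c : ℕ) (ρ : Fin d' → Fin n) (hcd : c + d' = n)
  (hxy : AlgebraicIndependent k (Sum.elim (fun q : Fin m × Fin 2 => x q.1 q.2) (y ∘ ρ)))
  (P Q : Fin m → MvPolynomial (Fin 2) k) (hQ : ∀ i, Q i ≠ 0)
  (B : Type) [Fintype B] (U V : B → Fin m → MvPolynomial (Fin 2) k) (hU : ∀ b i, U b i ≠ 0)
  (hV : ∀ b i, V b i ≠ 0) (g : B → K)
  (hg : ∀ b, g b = ∏ i, MvPolynomial.aeval (x i) (U b i) / MvPolynomial.aeval (x i) (V b i))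
  (J0 : Type) [Fintype J0] (ι0 : J0 ↪ B ⊕ Fin n) (σ τ : Type) [Finite σ] [Fintype τ]
  (G : σ → (J0 → ℤ) →₀ k) (F : τ → (J0 → ℤ) →₀ k) (tw : τ → Prop)
  (hG : ∀ s, lv (G s) (fun j => Sum.elim g y (ι0 j)) = 0)
  (hND : NDV G F (fun j => (ι0 j).isRight = true) tw c)
  (hun : ∀ t, ¬ tw t → (∀ s, ∀ m ∈ (G s).support, ∀ j, ¬ (ι0 j).isRight = true →
      m j = 0) ∧ ∀ m ∈ (F t).support, ∀ j, ¬ (ι0 j).isRight = true → m j = 0)
  (r : ℕ) (w : Fin r → K)
  (hw : ∀ j, w j ^ p - w j ∈ AddSubgroup.closure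
      ((Set.range fun i => MvPolynomial.aeval (x i) (P i) / MvPolynomial.aeval (x i) (Q i)) ∪
        Set.range fun t => lv (F t) (fun j => Sum.elim g y (ι0 j))))
  (hgen : IntermediateField.adjoin k (Set.range w ∪
      Set.range (Sum.elim (fun q : Fin m × Fin 2 => x q.1 q.2) y)) = ⊤)
  (A : Type u) [CommRing A] [IsDomain A] [Algebra k A] [Algebra.FiniteType k A] [Algebra A K]
  [IsScalarTower k A K] [IsFractionRing A K] (S : Finset A)
  (hS : ∀ a ∈ S, ∃ (R H : Fin m → MvPolynomial (Fin 2) k) (e : Fin n → ℤ),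
      (∀ i, R i ≠ 0 ∧ H i ≠ 0) ∧ algebraMap A K a =
        (∏ i, MvPolynomial.aeval (x i) (R i) / MvPolynomial.aeval (x i) (H i)) *
          ∏ l, y l ^ e l)
  (hA : ∀ a : A, IsIntegral (Algebra.adjoin k (S : Set A)) a)

include hy0 hcd hxy hQ hU hV hg hG hND hun hw hgen hS hA

/-- Smooth charts over the varieties. -/
theorem sch_LM : ∃ (T I : Type) (_ : Finite T) (_ : Fintype I),
      Nonempty (LM (IsScalarTower.toAlgHom k A K).range (IsScalarTower.toAlgHom k A K).range
        T I) := by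
  classical
  have hcK : CharP K p := charP_of_injective_algebraMap (algebraMap k K).injective p
  obtain ⟨lam, mu, hlm⟩ := exists_coeff p K w _ _ hw
  obtain ⟨e⟩ : Nonempty ({a // a ∈ S} ≃ Fin S.card) := ⟨S.equivFin⟩
  choose R H ex hFH hFH' using fun b : Fin S.card => hS (e.symm b).1 (e.symm b).2
  let g2 : B ⊕ Fin S.card → K := Sum.elim g fun b =>
    ∏ i, MvPolynomial.aeval (x i) (R b i) / MvPolynomial.aeval (x i) (H b i)
  let j2 : (B ⊕ Fin n) ↪ (B ⊕ Fin S.card) ⊕ Fin n :=
    ⟨Sum.map Sum.inl id, Function.Injective.sumMap Sum.inl_injective Function.injective_id⟩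
  let ι2 : J0 ↪ (B ⊕ Fin S.card) ⊕ Fin n := ι0.trans j2
  have hright : ∀ j, (ι2 j).isRight = (ι0 j).isRight := by
    intro j
    change (Sum.map Sum.inl id (ι0 j)).isRight = _
    rcases ι0 j with q | q <;> rfl
  have hz : (fun j => Sum.elim g2 y (ι2 j)) = fun j => Sum.elim g y (ι0 j) := by
    funext j
    change Sum.elim g2 y (Sum.map Sum.inl id (ι0 j)) = _
    rcases ι0 j with q | q <;> rfl
  obtain ⟨T, I, hT, hI, M, Γ, hFn, hR⟩ := sch_model p k K m n x y hy0 d' c ρ hcd hxy P Q hQ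
    (B ⊕ Fin S.card) (Sum.elim U R) (Sum.elim V H)
    (by
      rintro (b | b) i
      · exact hU b i
      · exact (hFH b i).1)
    (by
      rintro (b | b) i
      · exact hV b i
      · exact (hFH b i).2) g2
    (by
      rintro (b | b)
      · exact hg b
      · rfl) J0 ι2 σ τ G F tw
    (by
      intro s
      rw [hz]
      exact hG s)
    (by
      have h1 : (fun j => (ι2 j).isRight = true) = fun j => (ι0 j).isRight = true := by
        funext j
        rw [hright]
      rw [h1]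
      exact hND)
    (by
      intro t ht
      simp only [hright]
      exact hun t ht) r w lam mu
    (by
      rw [hz]
      exact hlm) hgen
  have hFn2 := fn_monomials hFn (fun b : Fin S.card => Sum.inr b) ex
  refine lm_of_fn k K M A S e
    (fun b i => Γ (Sum.inl (Sum.inr b)) i + ∑ j, ex b j * Γ (Sum.inr j) i) ?_ hR hA
  · have h1 : (fun b => algebraMap A K (e.symm b).1) = fun b : Fin S.card =>
        g2 (Sum.inr b) * ∏ j, y j ^ ex b j := funext fun b => hFH' b
    rw [h1]
    exact hFn2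

/-- Resolution of the varieties. -/
theorem sch_resolution : IsResolvableVariety (X := Spec (CommRingCat.of A))
      (Spec.map (CommRingCat.ofHom (algebraMap k A))) := by
  apply isResolvableVariety_spec
  obtain ⟨T, I, hT, hI, ⟨M⟩⟩ := sch_LM p k K m n x y hy0 d' c ρ hcd hxy P Q hQ B U V hU hV g hg
    J0 ι0 σ τ G F tw hG hND hun r w hw hgen A S hS hA
  exact hasResolution_of_LM _ (IsFractionRing.injective A K) M

end res

end Pool.Agent.TH214.V
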