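import Pool.Agent.TH214.V.Ext
import Pool.Agent.TH214.Clos

/-! Nondegeneracy over the algebraic closure implies nondegeneracy over all fields. -/

set_option autoImplicit false
set_option linter.unusedVariables false
set_option linter.unusedSectionVars false

universe u

open Pool.Agent.W558 Pool.Agent.W177.WD

namespace Pool.Agent.TH214.V

section grd

variable {k κ : Type u} [Field k] [Field κ] [Algebra k κ] {J Jv : Type} [Fintype J] [Fintype Jv]

/-- The logarithmic gradient of the initial form in the directions of `e`. -/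
noncomputable def gv (G : (J → ℤ) →₀ k) (e : Jv ↪ J) (l : J → ℤ) (z : J → κ) : Jv → κ :=
  fun b => ∑ m ∈ face G l, algebraMap k κ (G m) * (m (e b) : κ) * ∏ j, z j ^ m j

/-- The logarithmic derivative in a vertical direction. -/
lemma der_gv (G : (J → ℤ) →₀ k) (e : Jv ↪ J) (l : J → ℤ) (z a : J → κ)
    (ha : ∀ j, j ∉ Set.range e → a j = 0) : der G l z a = ∑ b, a (e b) * gv G e l z b := by
  unfold der gv
  have h0 : ∑ b, a (e b) * ∑ m ∈ face G l, algebraMap k κ (G m) * (m (e b) : κ) *
      ∏ j, z j ^ m j = ∑ m ∈ face G l, ∑ b, a (e b) * (algebraMap k κ (G m) *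
        (m (e b) : κ) * ∏ j, z j ^ m j) := by
    rw [Finset.sum_comm]
    exact Finset.sum_congr rfl fun b _ => Finset.mul_sum _ _ _
  rw [h0]
  refine Finset.sum_congr rfl fun m _ => ?_
  have h1 : ∑ j, (m j : κ) * a j = ∑ b, (m (e b) : κ) * a (e b) := by
    refine (Fintype.sum_of_injective e e.injective _ _ ?_ ?_).symm
    · intro j hj
      rw [ha j hj, mul_zero]
    · intro b
      rfl
  rw [h1, Finset.mul_sum, Finset.sum_mul]
  exact Finset.sum_congr rfl fun b _ => by ring

lemma ext_vec (e : Jv ↪ J) (a : Jv → κ) : ∃ b : J → κ, (∀ j, j ∉ Set.range e → b j = 0) ∧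
    ∀ i, b (e i) = a i := by
  refine ⟨Function.extend e a 0, ?_, fun i => e.injective.extend_apply a 0 i⟩
  intro j hj
  rw [Function.extend_apply' a (0 : J → κ) j hj]
  rfl

end grd

/-- The nondegeneracy condition at the geometric points. -/
def NDVc {k : Type u} [Field k] {J Jv σ τ : Type} [Fintype J] [Fintype Jv]
    (G : σ → (J → ℤ) →₀ k) (F : τ → (J → ℤ) →₀ k) (e : Jv ↪ J) (tw : τ → Prop) (c : ℕ) : Prop :=
  ∀ (l : J → ℤ) (z : J → AlgebraicClosure k), (∀ j, z j ≠ 0) → (∀ s, vl (G s) l z = 0) →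
    c ≤ Module.finrank (AlgebraicClosure k)
      (Submodule.span (AlgebraicClosure k) (Set.range fun s => gv (G s) e l z)) ∧
    ∀ t0, (tw t0 ∨ ∃ m ∈ (F t0).support, ∑ j, l j * m j < 0) →
      gv (F t0) e l z ∉ Submodule.span (AlgebraicClosure k)
        ((Set.range fun s => gv (G s) e l z) ∪
          {v | ∃ t, t ≠ t0 ∧ (tw t ∨ ∃ m ∈ (F t).support, ∑ j, l j * m j ≤ 0) ∧
            v = gv (F t) e l z})

section spec

variable {k : Type u} [Field k] {J : Type} [Fintype J]

/-- Specialization of points. -/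
lemma exists_spec {κ : Type u} [Field κ] [Algebra k κ] (z : J → κ) (hz : ∀ j, z j ≠ 0)
    {N : Type} [Finite N] (en : N → κ) :
    ∃ (R : Subalgebra k κ) (φ : R →ₐ[k] AlgebraicClosure k) (z' : J → AlgebraicClosure k),
      (∀ j, z' j ≠ 0) ∧ (∀ i, en i ∈ R) ∧
      ∀ (S : Finset (J → ℤ)) (G : (J → ℤ) →₀ k) (cf : (J → ℤ) → ℤ),
        ∃ h : ∑ m ∈ S, algebraMap k κ (G m) * (cf m : κ) * ∏ j, z j ^ m j ∈ R,
          φ ⟨_, h⟩ = ∑ m ∈ S, algebraMap k (AlgebraicClosure k) (G m) *
            (cf m : AlgebraicClosure k) * ∏ j, z' j ^ m j := by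
  classical
  cases nonempty_fintype N
  let R : Subalgebra k κ := Algebra.adjoin k
    ((Set.range z ∪ Set.range fun j => (z j)⁻¹) ∪ Set.range en)
  have hfg : R.FG := ⟨(Finset.univ.image z ∪ Finset.univ.image fun j => (z j)⁻¹) ∪
    Finset.univ.image en, by
      congr 1
      simp [Set.union_assoc]⟩
  have hft : Algebra.FiniteType k R := R.fg_iff_finiteType.1 hfg
  obtain ⟨φ⟩ := exists_geom_point (k := k) R
  have hzR : ∀ j, z j ∈ R := fun j => Algebra.subset_adjoin (Or.inl (Or.inl ⟨j, rfl⟩))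
  have hzR' : ∀ j, (z j)⁻¹ ∈ R := fun j => Algebra.subset_adjoin (Or.inl (Or.inr ⟨j, rfl⟩))
  have hcR : ∀ t, en t ∈ R := fun t => Algebra.subset_adjoin (Or.inr ⟨t, rfl⟩)
  let zu : J → Rˣ := fun j => ⟨⟨z j, hzR j⟩, ⟨(z j)⁻¹, hzR' j⟩,
    Subtype.ext (mul_inv_cancel₀ (hz j)), Subtype.ext (inv_mul_cancel₀ (hz j))⟩
  have hφz : ∀ (κ' : Type u) [Field κ'] [Algebra k κ'] (f : R →ₐ[k] κ') (m : ℤ) (j : J),
      f (((zu j) ^ m : Rˣ) : R) = f (zu j : R) ^ m := by
    intro κ' _ _ f m j
    have h1 : f (((zu j) ^ m : Rˣ) : R) = ((Units.map (f : R →* κ') (zu j ^ m) : κ'ˣ) : κ') := rfl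
    rw [h1, map_zpow, Units.val_zpow_eq_zpow_val]
    rfl
  refine ⟨R, φ, fun j => φ (zu j : R),
    fun j => (Units.map (φ : R →* AlgebraicClosure k) (zu j)).ne_zero, hcR, ?_⟩
  intro S G cf
  have h1 : ∀ (κ' : Type u) [Field κ'] [Algebra k κ'] (f : R →ₐ[k] κ'),
      f (∑ m ∈ S, algebraMap k R (G m) * (cf m : R) * ∏ j, (((zu j) ^ (m j) : Rˣ) : R)) =
        ∑ m ∈ S, algebraMap k κ' (G m) * (cf m : κ') * ∏ j, f (zu j : R) ^ m j := by
    intro κ' _ _ f
    rw [map_sum]
    refine Finset.sum_congr rfl fun m _ => ?_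
    rw [map_mul, map_mul, AlgHom.commutes, map_intCast, map_prod]
    congr 1
    exact Finset.prod_congr rfl fun j _ => hφz κ' f _ j
  have h2 := h1 κ R.val
  have h3 := h1 _ φ
  have h4 : ∑ m ∈ S, algebraMap k κ (G m) * (cf m : κ) * ∏ j, z j ^ m j =
      R.val (∑ m ∈ S, algebraMap k R (G m) * (cf m : R) * ∏ j, (((zu j) ^ (m j) : Rˣ) : R)) :=
    h2.symm
  refine ⟨?_, ?_⟩
  · rw [h4]
    exact Subtype.property _
  · rw [← h3]
    congr 1
    exact Subtype.ext h4

end spec

section lin

variable {κ : Type u} [Field κ] {Jv : Type} [Fintype Jv]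

/-- Dual vectors of independent vectors. -/
lemma exists_duals {c : ℕ} (v : Fin c → Jv → κ) (hv : LinearIndependent κ v) :
    ∃ a : Fin c → Jv → κ, ∀ i j, ∑ b, a i b * v j b = if i = j then 1 else 0 := by
  classical
  let Φ : (Fin c → κ) →ₗ[κ] (Jv → κ) := Fintype.linearCombination κ v
  have hΦ : LinearMap.ker Φ = ⊥ := by
    rw [LinearMap.ker_eq_bot']
    intro x hx
    funext i
    exact Fintype.linearIndependent_iff.1 hv x hx i
  obtain ⟨Ψ, hΨ⟩ := Φ.exists_leftInverse_of_injective hΦ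
  refine ⟨fun i b => Ψ (Pi.single b 1) i, fun i j => ?_⟩
  have h1 : Φ (Pi.single j 1) = v j := by
    change ∑ i, (Pi.single j (1 : κ) : Fin c → κ) i • v i = v j
    rw [Finset.sum_eq_single j]
    · rw [Pi.single_eq_same, one_smul]
    · intro i _ hi
      rw [Pi.single_eq_of_ne hi, zero_smul]
    · intro h
      exact absurd (Finset.mem_univ _) h
  have h2 : Ψ (v j) = Pi.single j 1 := by
    rw [← h1]
    exact LinearMap.congr_fun hΨ _
  have h3 : v j = ∑ b, v j b • (Pi.single b 1 : Jv → κ) := by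
    funext b'
    rw [Finset.sum_apply, Finset.sum_eq_single b']
    · simp
    · intro b _ hb
      rw [Pi.smul_apply, Pi.single_eq_of_ne (Ne.symm hb), smul_zero]
    · intro h
      exact absurd (Finset.mem_univ _) h
  rw [h3, map_sum] at h2
  have h4 := congrFun h2 i
  rw [Finset.sum_apply] at h4
  simp only [map_smul, Pi.smul_apply, smul_eq_mul] at h4
  rw [Pi.single_apply] at h4
  rw [← h4]
  exact Finset.sum_congr rfl fun b _ => mul_comm _ _

/-- Coordinates of a family of vectors of small rank. -/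
lemma exists_coords {σ : Type} (v : σ → Jv → κ) :
    ∃ (b : Fin (Module.finrank κ (Submodule.span κ (Set.range v))) → Jv → κ)
      (c : σ → Fin (Module.finrank κ (Submodule.span κ (Set.range v))) → κ),
      ∀ s j, v s j = ∑ i, c s i * b i j := by
  let W := Submodule.span κ (Set.range v)
  let B : Module.Basis (Fin (Module.finrank κ W)) κ W := Module.finBasis κ W
  have hv : ∀ s, v s ∈ W := fun s => Submodule.subset_span ⟨s, rfl⟩
  refine ⟨fun i => (B i : Jv → κ), fun s i => B.repr ⟨v s, hv s⟩ i, fun s j => ?_⟩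
  have h1 := B.sum_repr ⟨v s, hv s⟩
  have h2 := congrArg (fun w : W => (w : Jv → κ) j) h1
  simp only [Submodule.coe_sum, Submodule.coe_smul, Finset.sum_apply, Pi.smul_apply,
    smul_eq_mul] at h2
  exact h2.symm

/-- The converse. -/
lemma rank_le_of_coords {σ : Type} (v : σ → Jv → κ) {r : ℕ} (b : Fin r → Jv → κ)
    (c : σ → Fin r → κ) (h : ∀ s j, v s j = ∑ i, c s i * b i j) :
    Module.finrank κ (Submodule.span κ (Set.range v)) ≤ r := by
  have h1 : Submodule.span κ (Set.range v) ≤ Submodule.span κ (Set.range b) := by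
    rw [Submodule.span_le]
    rintro _ ⟨s, rfl⟩
    have h2 : v s = ∑ i, c s i • b i := by
      funext j
      rw [h, Finset.sum_apply]
      rfl
    rw [h2]
    exact Submodule.sum_mem _ fun i _ => Submodule.smul_mem _ _ (Submodule.subset_span ⟨i, rfl⟩)
  refine (Submodule.finrank_mono h1).trans ?_
  have h3 := finrank_range_le_card (R := κ) b
  simp only [Fintype.card_fin] at h3
  exact h3

/-- Independent members of a family of large rank. -/
lemma exists_indep {σ : Type} (v : σ → Jv → κ) {c : ℕ}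
    (h : c ≤ Module.finrank κ (Submodule.span κ (Set.range v))) :
    ∃ s : Fin c → σ, LinearIndependent κ fun i => v (s i) := by
  obtain ⟨ι, a, -, h1, h2⟩ := exists_linearIndependent' κ v
  have : Finite ι := h2.finite
  cases nonempty_fintype ι
  have h3 : Fintype.card ι = Module.finrank κ (Submodule.span κ (Set.range v)) := by
    rw [← h1]
    exact (finrank_span_eq_card h2).symm
  have h4 : Fintype.card (Fin c) ≤ Fintype.card ι := by
    rw [Fintype.card_fin, h3]
    exact h
  obtain ⟨f⟩ := Function.Embedding.nonempty_of_card_le h4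
  exact ⟨fun i => a (f i), h2.comp f f.injective⟩

end lin

section main

variable {k : Type u} [Field k] {J Jv σ τ : Type} [Fintype J] [Fintype Jv] [Finite σ] [Finite τ]

theorem ndv_of_ndvc {G : σ → (J → ℤ) →₀ k} {F : τ → (J → ℤ) →₀ k} {e : Jv ↪ J} {tw : τ → Prop}
    {c : ℕ} (h : NDVc G F e tw c) : NDV G F (fun j => j ∈ Set.range e) tw c := by
  classical
  intro κ _ _ l z hz hvl
  cases nonempty_fintype σ
  cases nonempty_fintype τ
  -- specialization of values and gradients
  have hgvR : ∀ {N : Type} [Finite N] (en : N → κ), ∃ (R : Subalgebra k κ)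
      (φ : R →ₐ[k] AlgebraicClosure k) (z' : J → AlgebraicClosure k),
      (∀ j, z' j ≠ 0) ∧ (∀ s, vl (G s) l z' = 0) ∧ (∀ i, en i ∈ R) ∧
      ∀ (P : (J → ℤ) →₀ k) b, ∃ h : gv P e l z b ∈ R, φ ⟨_, h⟩ = gv P e l z' b := by
    intro N _ en
    obtain ⟨R, φ, z', h1, h2, h3⟩ := exists_spec (k := k) z hz en
    refine ⟨R, φ, z', h1, fun s => ?_, h2,
      fun P b => h3 (face P l) P (fun m => m (e b))⟩
    obtain ⟨h4, h5⟩ := h3 (face (G s) l) (G s) (fun _ => 1)
    have h6 : ∑ m ∈ face (G s) l, algebraMap k κ ((G s) m) * ((1 : ℤ) : κ) * ∏ j, z j ^ m j =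
        0 := by
      rw [← hvl s]
      unfold vl
      exact Finset.sum_congr rfl fun m _ => by rw [Int.cast_one, mul_one]
    have h7 : vl (k := k) (G s) l z' = ∑ m ∈ face (G s) l,
        algebraMap k (AlgebraicClosure k) ((G s) m) *
        ((1 : ℤ) : AlgebraicClosure k) * ∏ j, z' j ^ m j := by
      unfold vl
      exact Finset.sum_congr rfl fun m _ => by rw [Int.cast_one, mul_one]
    rw [h7, ← h5]
    have h8 : (⟨_, h4⟩ : R) = 0 := Subtype.ext h6
    rw [h8, map_zero]
  constructor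
  · have hrank : c ≤ Module.finrank κ (Submodule.span κ (Set.range fun s => gv (G s) e l z)) := by
      obtain ⟨b, cf, hb⟩ := exists_coords (fun s => gv (G s) e l z)
      let r := Module.finrank κ (Submodule.span κ (Set.range fun s => gv (G s) e l z))
      obtain ⟨R, φ, z', h1, h2, h3, h4⟩ := hgvR
        (N := (Fin r × Jv) ⊕ (σ × Fin r)) (Sum.elim (fun q => b q.1 q.2) fun q => cf q.1 q.2)
      have h5 := (h l z' h1 h2).1
      refine h5.trans (rank_le_of_coords _ (fun i j => φ ⟨b i j, h3 (Sum.inl (i, j))⟩)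
        (fun s i => φ ⟨cf s i, h3 (Sum.inr (s, i))⟩) fun s j => ?_)
      obtain ⟨h6, h7⟩ := h4 (G s) j
      have h9 : (⟨gv (G s) e l z j, h6⟩ : R) = ∑ i : Fin r, (⟨cf s i, h3 (Sum.inr (s, i))⟩ : R) *
          ⟨b i j, h3 (Sum.inl (i, j))⟩ := by
        apply Subtype.ext
        have h8 : ∀ f : Fin r → R, ((∑ i, f i : R) : κ) = ∑ i, (f i : κ) := fun f =>
          map_sum R.val f Finset.univ
        rw [h8]
        exact hb s j
      rw [← h7, h9, map_sum]
      exact Finset.sum_congr rfl fun i _ => map_mul _ _ _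
    obtain ⟨s, hs⟩ := exists_indep _ hrank
    obtain ⟨a, ha⟩ := exists_duals _ hs
    choose b hb0 hb using fun i => ext_vec e (a i)
    refine ⟨s, b, hb0, fun i j => ?_⟩
    rw [der_gv _ e l z (b i) (hb0 i)]
    simp only [hb]
    exact ha i j
  · intro t0 ht0
    let C : Set τ := {t | t ≠ t0 ∧ (tw t ∨ ∃ m ∈ (F t).support, ∑ j, l j * m j ≤ 0)}
    let vv : σ ⊕ C → Jv → κ := Sum.elim (fun s => gv (G s) e l z) fun t => gv (F t.1) e l z
    have hnot : gv (F t0) e l z ∉ Submodule.span κ (Set.range vv) := by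
      intro hmem
      rw [Submodule.mem_span_range_iff_exists_fun] at hmem
      obtain ⟨cf, hcf⟩ := hmem
      obtain ⟨R, φ, z', h1, h2, h3, h4⟩ := hgvR cf
      apply (h l z' h1 h2).2 t0 ht0
      have h5 : gv (F t0) e l z' = ∑ q, φ ⟨cf q, h3 q⟩ •
          (Sum.elim (fun s => gv (G s) e l z') (fun t : C => gv (F t.1) e l z') q) := by
        funext b
        obtain ⟨h6, h7⟩ := h4 (F t0) b
        have h8 : ∀ q : σ ⊕ C, ∃ hq : vv q b ∈ R, φ ⟨_, hq⟩ =
            (Sum.elim (fun s => gv (G s) e l z') (fun t : C => gv (F t.1) e l z') q) b := by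
          rintro (s | t)
          · exact h4 (G s) b
          · exact h4 (F t.1) b
        choose hq hq' using h8
        have h9 : (⟨gv (F t0) e l z b, h6⟩ : R) = ∑ q : σ ⊕ C, (⟨cf q, h3 q⟩ : R) *
            ⟨vv q b, hq q⟩ := by
          apply Subtype.ext
          have h8 : ∀ f : σ ⊕ C → R, ((∑ i, f i : R) : κ) = ∑ i, (f i : κ) := fun f =>
            map_sum R.val f Finset.univ
          rw [h8]
          have h10 := congrFun hcf b
          rw [Finset.sum_apply] at h10
          exact h10.symm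
        rw [← h7, Finset.sum_apply, h9, map_sum]
        refine Finset.sum_congr rfl fun q _ => ?_
        rw [map_mul, hq' q]
        rfl
      rw [h5]
      refine Submodule.sum_mem _ fun q _ => Submodule.smul_mem _ _ (Submodule.subset_span ?_)
      rcases q with s | t
      · exact Or.inl ⟨s, rfl⟩
      · exact Or.inr ⟨t.1, t.2.1, t.2.2, rfl⟩
    obtain ⟨f, hf1, hf2⟩ := Submodule.exists_le_ker_of_notMem hnot
    have hf : ∀ w : Jv → κ, f w = ∑ b, f (Pi.single b 1) * w b := by
      intro w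
      have h3 : w = ∑ b, w b • (Pi.single b 1 : Jv → κ) := by
        funext b'
        rw [Finset.sum_apply, Finset.sum_eq_single b']
        · simp
        · intro b _ hb
          rw [Pi.smul_apply, Pi.single_eq_of_ne (Ne.symm hb), smul_zero]
        · intro h
          exact absurd (Finset.mem_univ _) h
      conv_lhs => rw [h3]
      rw [map_sum]
      exact Finset.sum_congr rfl fun b _ => by rw [map_smul, smul_eq_mul, mul_comm]
    obtain ⟨a, ha0, ha⟩ := ext_vec e fun b => f (Pi.single b 1)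
    have hd : ∀ P : (J → ℤ) →₀ k, der P l z a = f (gv P e l z) := by
      intro P
      rw [der_gv _ e l z a ha0, hf]
      simp only [ha]
    refine ⟨a, ha0, fun s => ?_, ?_, fun t hne ht => ?_⟩
    · rw [hd]
      exact LinearMap.mem_ker.1 (hf2 (Submodule.subset_span ⟨Sum.inl s, rfl⟩))
    · rw [hd]
      exact hf1
    · rw [hd]
      exact LinearMap.mem_ker.1 (hf2 (Submodule.subset_span ⟨Sum.inr ⟨t, hne, ht⟩, rfl⟩))

end main

end Pool.Agent.TH214.V
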