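import Pool.Agent.TH214.V.SchGm
import Pool.Agent.TH214.V.SchRes
import Pool.Agent.TH188.WQ.Base

/-! Resolution of the purely inseparable covers of the subvarieties. -/

set_option autoImplicit false
set_option linter.unusedVariables false
set_option linter.unusedSectionVars false

universe u

open Pool.Agent.W558 Pool.Agent.W177.WD Polynomial TensorProduct AlgebraicGeometry CategoryTheory

namespace Pool.Agent.TH214.V

section main

variable (p : ℕ) [Fact p.Prime] (k K : Type u) [Field k] [PerfectField k] [CharP k p] [Field K]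
  [Algebra k K] (m n : ℕ) (x : Fin m → Fin 2 → K) (y : Fin n → K) (hy0 : ∀ j, y j ≠ 0)
  (d' c : ℕ) (ρ : Fin d' → Fin n) (hcd : c + d' = n)
  (hxy : AlgebraicIndependent k (Sum.elim (fun q : Fin m × Fin 2 => x q.1 q.2) (y ∘ ρ)))
  (P Q : Fin m → MvPolynomial (Fin 2) k) (hQ : ∀ i, Q i ≠ 0)
  (B : Type) [Fintype B] (U V : B → Fin m → MvPolynomial (Fin 2) k) (hU : ∀ b i, U b i ≠ 0)
  (hV : ∀ b i, V b i ≠ 0) (g : B → K)
  (hg : ∀ b, g b = ∏ i, MvPolynomial.aeval (x i) (U b i) / MvPolynomial.aeval (x i) (V b i))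
  (J0 : Type) [Fintype J0] (ι0 : J0 ↪ B ⊕ Fin n) (σ τ : Type) [Finite σ] [Fintype τ]
  (G : σ → (J0 → ℤ) →₀ k) (F : τ → (J0 → ℤ) →₀ k)
  (hG : ∀ s, lv (G s) (fun j => Sum.elim g y (ι0 j)) = 0)
  (hND : NDV G F (fun j => (ι0 j).isRight = true) (fun _ => True) c)
  (r : ℕ) (w : Fin r → K)

include hy0 hcd hxy hQ hU hV hg hG hND

/-- Models of the covers. -/
theorem schp_model (lam : Fin r → Fin m → k) (mu : Fin r → τ → k)
    (hw : ∀ j, w j ^ p = ∑ i, lam j i •
      (MvPolynomial.aeval (x i) (P i) / MvPolynomial.aeval (x i) (Q i)) +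
      ∑ t, mu j t • lv (F t) (fun j => Sum.elim g y (ι0 j)))
    (hgen : IntermediateField.adjoin k (Set.range w ∪
      Set.range (Sum.elim (fun q : Fin m × Fin 2 => x q.1 q.2) y)) = ⊤) :
    ∃ (T I : Type) (_ : Finite T) (_ : Fintype I) (M : LM (⊥ : Subalgebra k K) ⊤ T I)
      (Γ : B ⊕ Fin n → I → ℤ), Fn M (Sum.elim g y) Γ ∧ Frc M := by
  classical
  have hp : p.Prime := Fact.out
  obtain ⟨N, f', F', g', hf', hb', hF', hg', hGM⟩ := sch_gm p k K m n x y hy0 d' c ρ hcd hxy P Q hQ
    B U V hU hV g hg J0 ι0 σ τ G F hG hND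
  let K0 := AF (k := k) (Sum.elim (fun q : Fin m × Fin 2 => x q.1 q.2) y)
  have hcK : CharP K p := charP_of_injective_algebraMap (algebraMap k K).injective p
  have : PerfectRing k p := PerfectField.toPerfectRing p
  have hroot : ∀ i : Fin m, ∃ b : K0, ¬ N i →
      (b : K) ^ p = MvPolynomial.aeval (x i) (P i) / MvPolynomial.aeval (x i) (Q i) := by
    intro i
    by_cases hi : N i
    · exact ⟨0, fun h => absurd hi h⟩
    · obtain ⟨b, hb⟩ := hb' i hi
      exact ⟨b, fun _ => hb⟩
  choose b hb using hroot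
  have hpr : ∀ j i, ∃ e : k, e ^ p = lam j i := by
    intro j i
    obtain ⟨e, he⟩ := surjective_frobenius k p (lam j i)
    exact ⟨e, he⟩
  choose e he using hpr
  let a0 : Fin r → K0 := fun j => ∑ i, if N i then 0 else algebraMap k K0 (e j i) * b i
  let w' : Fin r → K := fun j => w j - a0 j
  have ha0 : ∀ j, (a0 j : K) ^ p = ∑ i, if N i then 0 else lam j i •
      (MvPolynomial.aeval (x i) (P i) / MvPolynomial.aeval (x i) (Q i)) := by
    intro j
    have h1 : (a0 j : K) = ∑ i, if N i then 0 else algebraMap k K (e j i) * b i := by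
      change K0.val (∑ i, if N i then 0 else algebraMap k K0 (e j i) * b i) = _
      rw [map_sum]
      refine Finset.sum_congr rfl fun i _ => ?_
      split_ifs
      · exact map_zero _
      · rfl
    rw [h1, sum_pow_char]
    refine Finset.sum_congr rfl fun i _ => ?_
    split_ifs with hi
    · exact zero_pow hp.ne_zero
    · rw [mul_pow, ← map_pow, he, hb i hi, Algebra.smul_def]
  have hsplit : ∀ h : Fin m → K, ∑ i, h i = (∑ i : {i : Fin m // N i}, h i.1) +
      ∑ i, if N i then 0 else h i := by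
    intro h
    have h1 : ∑ i : {i : Fin m // N i}, h i.1 = ∑ i, if N i then h i else 0 := by
      rw [← Finset.sum_filter]
      exact (Finset.sum_subtype (Finset.univ.filter N) (by simp) h).symm
    rw [h1, ← Finset.sum_add_distrib]
    refine Finset.sum_congr rfl fun i _ => ?_
    split_ifs
    · rw [add_zero]
    · rw [zero_add]
  have hw' : ∀ j, w' j ^ p = algebraMap K0 K (∑ l : {i : Fin m // N i} ⊕ τ,
      algebraMap k K0 (Sum.elim (fun i : {i : Fin m // N i} => lam j i.1) (mu j) l) *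
        Sum.elim f' F' l) := by
    intro j
    have h1 : w' j ^ p = w j ^ p - (a0 j : K) ^ p := sub_pow_char _ _
    rw [h1, hw, ha0, hsplit, Fintype.sum_sum_type, map_add, map_sum, map_sum]
    have h2 : ∀ i : {i : Fin m // N i}, algebraMap K0 K (algebraMap k K0 (lam j i.1) * f' i) =
        lam j i.1 • (MvPolynomial.aeval (x i.1) (P i.1) / MvPolynomial.aeval (x i.1) (Q i.1)) := by
      intro i
      rw [map_mul, Algebra.smul_def, ← hf' i]
      rfl
    have h3 : ∀ t, algebraMap K0 K (algebraMap k K0 (mu j t) * F' t) =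
        mu j t • lv (F t) (fun j => Sum.elim g y (ι0 j)) := by
      intro t
      rw [map_mul, Algebra.smul_def, ← hF' t]
      rfl
    simp only [Sum.elim_inl, Sum.elim_inr, h2, h3]
    ring
  have htop : IntermediateField.adjoin K0 (Set.range w') = ⊤ := by
    rw [eq_top_iff]
    intro y' _
    have hy : y' ∈ IntermediateField.adjoin k (Set.range w ∪
      Set.range (Sum.elim (fun q : Fin m × Fin 2 => x q.1 q.2) y)) := by
      rw [hgen]; trivial
    have hle : IntermediateField.adjoin k (Set.range w ∪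
      Set.range (Sum.elim (fun q : Fin m × Fin 2 => x q.1 q.2) y)) ≤
        (IntermediateField.adjoin K0 (Set.range w')).restrictScalars k := by
      rw [IntermediateField.adjoin_le_iff]
      rintro y' (⟨j, rfl⟩ | hy')
      · have h1 : w j = w' j + algebraMap K0 K (a0 j) := (sub_add_cancel _ _).symm
        rw [h1]
        exact (IntermediateField.adjoin K0 (Set.range w')).add_mem
          (IntermediateField.subset_adjoin K0 _ ⟨j, rfl⟩)
          ((IntermediateField.adjoin K0 (Set.range w')).algebraMap_mem _)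
      · have h1 : y' ∈ K0 := IntermediateField.subset_adjoin k _ hy'
        exact (IntermediateField.adjoin K0 (Set.range w')).algebraMap_mem ⟨y', h1⟩
    exact hle hy
  obtain ⟨T', I', hT', hI', M', Γ', hF2, hR'⟩ := Pool.Agent.TH188.WQ.tower_add p K hGM r w' _ hw'
    htop
  refine ⟨T', I', hT', hI', M', Γ', ?_, hR'⟩
  have h1 : (fun b => algebraMap K0 K (g' b)) = Sum.elim g y := funext hg'
  rw [← h1]
  exact hF2

end main

section coeffs

/-- Coefficients. -/
lemma exists_coeffP {k K : Type u} [Field k] [Field K] [Algebra k K] {r : ℕ} {α β : Type}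
    [Fintype α] [Fintype β] {V : Fin r → K} (f : α → K)
    (g : β → K) (hw : ∀ j, V j ∈ Submodule.span k (Set.range f ∪ Set.range g)) :
    ∃ (lam : Fin r → α → k) (mu : Fin r → β → k), ∀ j, V j =
      ∑ i, lam j i • f i + ∑ t, mu j t • g t := by
  have h1 : ∀ j, ∃ (lam : α → k) (mu : β → k), V j = ∑ i, lam i • f i + ∑ t, mu t • g t := by
    intro j
    have h2 := hw j
    rw [Submodule.span_union, Submodule.mem_sup] at h2
    obtain ⟨a, ha, c, hc, hac⟩ := h2
    rw [Submodule.mem_span_range_iff_exists_fun] at ha hc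
    obtain ⟨lam, hl⟩ := ha
    obtain ⟨mu, hm⟩ := hc
    exact ⟨lam, mu, by rw [hl, hm, hac]⟩
  choose lam mu h using h1
  exact ⟨lam, mu, h⟩

end coeffs

section res

variable (p : ℕ) [Fact p.Prime] (k K : Type u) [Field k] [PerfectField k] [CharP k p] [Field K]
  [Algebra k K] (m n : ℕ) (x : Fin m → Fin 2 → K) (y : Fin n → K) (hy0 : ∀ j, y j ≠ 0)
  (d' c : ℕ) (ρ : Fin d' → Fin n) (hcd : c + d' = n)
  (hxy : AlgebraicIndependent k (Sum.elim (fun q : Fin m × Fin 2 => x q.1 q.2) (y ∘ ρ)))
  (P Q : Fin m → MvPolynomial (Fin 2) k) (hQ : ∀ i, Q i ≠ 0)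
  (B : Type) [Fintype B] (U V : B → Fin m → MvPolynomial (Fin 2) k) (hU : ∀ b i, U b i ≠ 0)
  (hV : ∀ b i, V b i ≠ 0) (g : B → K)
  (hg : ∀ b, g b = ∏ i, MvPolynomial.aeval (x i) (U b i) / MvPolynomial.aeval (x i) (V b i))
  (J0 : Type) [Fintype J0] (ι0 : J0 ↪ B ⊕ Fin n) (σ τ : Type) [Finite σ] [Fintype τ]
  (G : σ → (J0 → ℤ) →₀ k) (F : τ → (J0 → ℤ) →₀ k)
  (hG : ∀ s, lv (G s) (fun j => Sum.elim g y (ι0 j)) = 0)
  (hND : NDV G F (fun j => (ι0 j).isRight = true) (fun _ => True) c)
  (r : ℕ) (w : Fin r → K)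
  (hw : ∀ j, w j ^ p ∈ Submodule.span k
      ((Set.range fun i => MvPolynomial.aeval (x i) (P i) / MvPolynomial.aeval (x i) (Q i)) ∪
        Set.range fun t => lv (F t) (fun j => Sum.elim g y (ι0 j))))
  (hgen : IntermediateField.adjoin k (Set.range w ∪
      Set.range (Sum.elim (fun q : Fin m × Fin 2 => x q.1 q.2) y)) = ⊤)
  (A : Type u) [CommRing A] [IsDomain A] [Algebra k A] [Algebra.FiniteType k A] [Algebra A K]
  [IsScalarTower k A K] [IsFractionRing A K] (S : Finset A)
  (hS : ∀ a ∈ S, ∃ (R H : Fin m → MvPolynomial (Fin 2) k) (e : Fin n → ℤ),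
      (∀ i, R i ≠ 0 ∧ H i ≠ 0) ∧ algebraMap A K a =
        (∏ i, MvPolynomial.aeval (x i) (R i) / MvPolynomial.aeval (x i) (H i)) *
          ∏ l, y l ^ e l)
  (hA : ∀ a : A, IsIntegral (Algebra.adjoin k (S : Set A)) a)

include hy0 hcd hxy hQ hU hV hg hG hND hw hgen hS hA

/-- Smooth charts over the varieties. -/
theorem schp_LM : ∃ (T I : Type) (_ : Finite T) (_ : Fintype I),
      Nonempty (LM (IsScalarTower.toAlgHom k A K).range (IsScalarTower.toAlgHom k A K).range
        T I) := by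
  classical
  obtain ⟨lam, mu, hlm⟩ := exists_coeffP _ _ hw
  obtain ⟨e⟩ : Nonempty ({a // a ∈ S} ≃ Fin S.card) := ⟨S.equivFin⟩
  choose R H ex hFH hFH' using fun b : Fin S.card => hS (e.symm b).1 (e.symm b).2
  let g2 : B ⊕ Fin S.card → K := Sum.elim g fun b =>
    ∏ i, MvPolynomial.aeval (x i) (R b i) / MvPolynomial.aeval (x i) (H b i)
  let j2 : (B ⊕ Fin n) ↪ (B ⊕ Fin S.card) ⊕ Fin n :=
    ⟨Sum.map Sum.inl id, Function.Injective.sumMap Sum.inl_injective Function.injective_id⟩
  let ι2 : J0 ↪ (B ⊕ Fin S.card) ⊕ Fin n := ι0.trans j2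
  have hright : ∀ j, (ι2 j).isRight = (ι0 j).isRight := by
    intro j
    change (Sum.map Sum.inl id (ι0 j)).isRight = _
    rcases ι0 j with q | q <;> rfl
  have hz : (fun j => Sum.elim g2 y (ι2 j)) = fun j => Sum.elim g y (ι0 j) := by
    funext j
    change Sum.elim g2 y (Sum.map Sum.inl id (ι0 j)) = _
    rcases ι0 j with q | q <;> rfl
  obtain ⟨T, I, hT, hI, M, Γ, hFn, hR⟩ := schp_model p k K m n x y hy0 d' c ρ hcd hxy P Q hQ
    (B ⊕ Fin S.card) (Sum.elim U R) (Sum.elim V H)
    (by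
      rintro (b | b) i
      · exact hU b i
      · exact (hFH b i).1)
    (by
      rintro (b | b) i
      · exact hV b i
      · exact (hFH b i).2) g2
    (by
      rintro (b | b)
      · exact hg b
      · rfl) J0 ι2 σ τ G F
    (by
      intro s
      rw [hz]
      exact hG s)
    (by
      have h1 : (fun j => (ι2 j).isRight = true) = fun j => (ι0 j).isRight = true := by
        funext j
        rw [hright]
      rw [h1]
      exact hND)
    r w lam mu
    (by
      rw [hz]
      exact hlm) hgen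
  have hFn2 := fn_monomials hFn (fun b : Fin S.card => Sum.inr b) ex
  refine lm_of_fn k K M A S e
    (fun b i => Γ (Sum.inl (Sum.inr b)) i + ∑ j, ex b j * Γ (Sum.inr j) i) ?_ hR hA
  · have h1 : (fun b => algebraMap A K (e.symm b).1) = fun b : Fin S.card =>
        g2 (Sum.inr b) * ∏ j, y j ^ ex b j := funext fun b => hFH' b
    rw [h1]
    exact hFn2

/-- Resolution of the varieties. -/
theorem schp_resolution : IsResolvableVariety (X := Spec (CommRingCat.of A))
      (Spec.map (CommRingCat.ofHom (algebraMap k A))) := by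
  apply isResolvableVariety_spec
  obtain ⟨T, I, hT, hI, ⟨M⟩⟩ := schp_LM p k K m n x y hy0 d' c ρ hcd hxy P Q hQ B U V hU hV g hg
    J0 ι0 σ τ G F hG hND r w hw hgen A S hS hA
  exact hasResolution_of_LM _ (IsFractionRing.injective A K) M

end res

end Pool.Agent.TH214.V
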