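import Pool.Agent.TH214.V.Kum

/-! Tame Kummer extensions of fields with a joint normal form. -/

set_option autoImplicit false
set_option linter.unusedVariables false
set_option linter.unusedSectionVars false

universe u

open Pool.Agent.W558 TensorProduct

namespace Pool.Agent.TH214.V

section gm

variable {k E1 K0 : Type u} [Field k] [Field E1] [Field K0] [Algebra k E1]
  [Algebra k K0] [Algebra E1 K0] [IsScalarTower k E1 K0] {r : ℕ} {ι B : Type} [Fintype B]

/-- The joint normal form in a tame Kummer extension. -/
theorem kummer_gm (p : ℕ) [Fact p.Prime] {d0 : ℕ} (htr : Algebra.trdeg k E1 = d0)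
    {m : ℕ} (hm : (m : k) ≠ 0) {w : Fin r → K0} (hw0 : ∀ j, w j ≠ 0)
    {f : ι → E1} {g : B → E1} (h : GM p k f g) (lam : Fin r → B → ℤ)
    (hw : ∀ j, w j ^ m = algebraMap E1 K0 (∏ b, g b ^ lam j b))
    (hgen : IntermediateField.adjoin E1 (Set.range w) = ⊤) :
    GM p k (fun l => algebraMap E1 K0 (f l))
      (Sum.elim (fun b => algebraMap E1 K0 (g b)) w) := by
  classical
  have hm0 : m ≠ 0 := by
    rintro rfl
    exact hm Nat.cast_zero
  have h1 := gm_relative p (j1' := IsScalarTower.toAlgHom k E1 K0) htr hw0 (evm_gen hgen)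
    (Nat.add_comm r d0) (exists_dn htr) h (kumG k m lam) (fun t : Empty => t.elim)
    (fun j => by
      unfold kumG
      rw [bin_lv (kum_ne hm0 lam j)]
      simp only [Fintype.prod_sum_type, Sum.elim_inl, Sum.elim_inr, Pi.zero_apply, zpow_zero,
        Finset.prod_const_one, one_mul, mul_one]
      rw [Finset.prod_eq_single j]
      · rw [Pi.single_eq_same, zpow_natCast, hw, map_prod, sub_eq_zero]
        refine Finset.prod_congr rfl fun b _ => ?_
        exact map_zpow₀ _ _ _
      · intro b _ hb
        rw [Pi.single_eq_of_ne hb, zpow_zero]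
      · intro h
        exact absurd (Finset.mem_univ _) h)
    (kum_ndv hm lam _)
  exact h1.reindex Sum.inl Sum.inl_injective id

end gm

end Pool.Agent.TH214.V
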