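import Pool.Agent.TH214.V.OvpQ
import Pool.Agent.TH214.Insep

/-! The compactified torus and products with it, with bounds for the charts. -/

set_option autoImplicit false
set_option linter.unusedVariables false
set_option linter.unusedSectionVars false

universe u

open scoped IntermediateField.algebraAdjoinAdjoin

open Pool.Agent.W558 Pool.Agent.W177.WD Polynomial TensorProduct

namespace Pool.Agent.TH214.V

section torus

variable {k K : Type u} [Field k] [Field K] [Algebra k K] {T I : Type}

open Pool.Agent.W498.Tor in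
theorem torus_auxQ (k K : Type u) [Field k] [Field K] [Algebra k K] :
    ∀ (r : ℕ) (y : Fin r → K), AlgebraicIndependent k y →
    ∃ (T I : Type) (_ : Finite T) (_ : Fintype I) (M : LM (⊥ : Subalgebra k K) ⊤ T I)
      (Y : Fin r → I → ℤ),
      (∀ t, ∀ f ∈ M.A t, f ∈ IntermediateField.adjoin k (Set.range y)) ∧ Fn M y Y ∧
      DualY M y Y ∧ (∀ t j, y j ∈ IntermediateField.adjoin k (M.A t : Set K)) ∧
      ∀ S : Subalgebra k K, (∀ j, y j ∈ S ∧ (y j)⁻¹ ∈ S) → UQ M S := by
  intro r
  induction r with
  | zero =>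
    intro y hy
    refine ⟨Unit, Empty, inferInstance, inferInstance, ptLM k K, fun j => j.elim0, ?_,
      fun j => j.elim0, ?_, fun t j => j.elim0, fun S _ => ⟨fun t => bot_le, fun t i => i.elim⟩⟩
    · intro t f hf
      obtain ⟨c, rfl⟩ := Algebra.mem_bot.1 hf
      exact IntermediateField.algebraMap_mem _ c
    · intro t κ _ _ φ c
      exact ⟨⟨TV.zero φ, fun i => i.elim, fun i => i.elim⟩, fun j => j.elim0⟩
  | succ r ih =>
    intro y hy
    have hz' : AlgebraicIndependent k (y ∘ Fin.castSucc) :=
      hy.comp _ (Fin.castSucc_injective r)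
    obtain ⟨T', I', iT, iI, M', Y, h1, h2, h3, h3', hUQ⟩ := ih (y ∘ Fin.castSucc) hz'
    let S : Set K := Set.range (y ∘ Fin.castSucc)
    have hS : S = y '' (Set.range Fin.castSucc) := Set.range_comp _ _
    have htr : Transcendental (Algebra.adjoin k S) (y (Fin.last r)) := by
      have h4 : Fin.last r ∉ Set.range (Fin.castSucc : Fin r → Fin (r + 1)) := by
        rintro ⟨i, hi⟩
        exact (Fin.castSucc_lt_last i).ne hi
      have h5 := hy.transcendental_adjoin h4
      rw [hS]
      exact h5
    have htr' : Transcendental (IntermediateField.adjoin k S) (y (Fin.last r)) := by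
      intro h4
      exact htr ((IsFractionRing.isAlgebraic_iff (Algebra.adjoin k S)
        (IntermediateField.adjoin k S) K).2 h4)
    have hz0 : y (Fin.last r) ≠ 0 := by
      intro h0
      apply htr
      rw [h0]
      exact isAlgebraic_zero
    have hTr : ∀ t, Tr (M'.A t) (y (Fin.last r)) := by
      intro t P hP
      let j : M'.A t →+* IntermediateField.adjoin k S :=
        { toFun := fun a => ⟨a, h1 t a a.2⟩
          map_one' := rfl
          map_mul' := fun a b => rfl
          map_zero' := rfl
          map_add' := fun a b => rfl }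
      have hj : Function.Injective j := fun a b hab =>
        Subtype.ext (congrArg (fun x : IntermediateField.adjoin k S => (x : K)) hab)
      have h4 : aeval (y (Fin.last r)) (P.map j) = 0 := by
        rw [aeval_def, eval₂_map]
        exact hP
      have h5 := transcendental_iff.1 htr' _ h4
      exact (Polynomial.map_eq_zero_iff hj).1 h5
    have hysnoc : (Fin.snoc (α := fun _ => K) (y ∘ Fin.castSucc) (y (Fin.last r)) :
        Fin (r + 1) → K) = y := by
      funext j
      refine Fin.lastCases ?_ (fun j => ?_) j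
      · rw [Fin.snoc_last]
      · rw [Fin.snoc_castSucc]
        rfl
    refine ⟨T' × Bool, I' ⊕ Bool, inferInstance, inferInstance, prodLM M' hz0 hTr,
      Fin.snoc (α := fun _ => I' ⊕ Bool → ℤ) (fun j => Sum.elim (Y j) 0)
        (Sum.elim 0 (fun c => if c then 1 else -1)), ?_, ?_, ?_, ?_, ?_⟩
    · rintro ⟨t, b⟩ f hf
      have h4 : IntermediateField.adjoin k S ≤ IntermediateField.adjoin k (Set.range y) := by
        apply IntermediateField.adjoin.mono
        rintro _ ⟨i, rfl⟩
        exact ⟨_, rfl⟩
      have h5 : y (Fin.last r) ∈ IntermediateField.adjoin k (Set.range y) :=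
        IntermediateField.subset_adjoin _ _ ⟨_, rfl⟩
      refine adj_induction (M'.A t) (zz (y (Fin.last r)) b)
        (p := fun f => f ∈ IntermediateField.adjoin k (Set.range y)) ?_ ?_ ?_ f hf
      · exact fun a ha => h4 (h1 t a ha)
      · exact fun a b ha hb => add_mem ha hb
      · intro a ha
        refine mul_mem ha ?_
        cases b
        · exact inv_mem h5
        · exact h5
    · intro j
      refine Fin.lastCases ?_ (fun j => ?_) j
      · have h4 := f1_self M' hz0 hTr
        rw [Fin.snoc_last]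
        exact h4
      · have h4 := f1_prod M' hz0 hTr (g := y j.castSucc) (γ := Y j) (fun t => h2 j t)
        rw [Fin.snoc_castSucc]
        exact h4
    · have h4 := dualY_prod M' hz0 hTr h3
      rw [hysnoc] at h4
      exact h4
    · rintro ⟨t, b⟩ j
      have hle : IntermediateField.adjoin k (M'.A t : Set K) ≤
          IntermediateField.adjoin k ((prodLM M' hz0 hTr).A (t, b) : Set K) := by
        apply IntermediateField.adjoin.mono
        intro f hf
        exact le_adj _ _ hf
      refine Fin.lastCases ?_ (fun j => ?_) j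
      · have h4 : zz (y (Fin.last r)) b ∈
            IntermediateField.adjoin k ((prodLM M' hz0 hTr).A (t, b) : Set K) :=
          IntermediateField.subset_adjoin _ _ (self_mem_adj _ _)
        cases b
        · have h5 := inv_mem h4
          have h6 : (zz (y (Fin.last r)) false)⁻¹ = y (Fin.last r) := by
            simp [zz]
          rw [h6] at h5
          exact h5
        · exact h4
      · exact hle (h3' t j)
    · intro S hS
      have hU := hUQ S (fun j => hS j.castSucc)
      have hzz : ∀ b, zz (y (Fin.last r)) b ∈ S ∧ (zz (y (Fin.last r)) b)⁻¹ ∈ S := by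
        intro b
        cases b
        · simp only [zz]
          exact ⟨(hS _).2, by simpa using (hS (Fin.last r)).1⟩
        · simp only [zz]
          exact ⟨(hS _).1, (hS _).2⟩
      constructor
      · rintro ⟨t, b⟩
        exact adj_le (hU.1 t) (hzz b).1
      · rintro ⟨t, b⟩ (i | c)
        · exact hU.2 t i
        · change (if b = c then zz (y (Fin.last r)) b else 1)⁻¹ ∈ S
          split_ifs
          · exact (hzz b).2
          · rw [inv_one]; exact S.one_mem

/-- The compactified torus. -/
theorem exists_torusQ {k K : Type u} [Field k] [Field K] [Algebra k K] {r : ℕ} {y : Fin r → K}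
    (hy : Rat (k := k) y) :
    ∃ (T I : Type) (_ : Finite T) (_ : Fintype I) (M : LM (⊥ : Subalgebra k K) ⊤ T I)
      (Y : Fin r → I → ℤ), Fn M y Y ∧ DualY M y Y ∧ Frc M ∧
      ∀ S : Subalgebra k K, (∀ j, y j ∈ S ∧ (y j)⁻¹ ∈ S) → UQ M S := by
  obtain ⟨T, I, hT, hI, M, Y, h1, h2, h3, h4, h5⟩ := torus_auxQ k K r y hy.ind
  refine ⟨T, I, hT, hI, M, Y, h2, h3, ?_, h5⟩
  intro t x
  have hx : x ∈ IntermediateField.adjoin k (M.A t : Set K) := by
    have hm : ∀ P : MvPolynomial (Fin r) k, MvPolynomial.aeval y P ∈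
        IntermediateField.adjoin k (M.A t : Set K) := by
      intro P
      have hP : MvPolynomial.aeval y P ∈ Algebra.adjoin k (Set.range y) := by
        rw [Algebra.adjoin_range_eq_range_aeval]
        exact ⟨P, rfl⟩
      have hle : Algebra.adjoin k (Set.range y) ≤
          (IntermediateField.adjoin k (M.A t : Set K)).toSubalgebra := by
        rw [Algebra.adjoin_le_iff]
        rintro _ ⟨j, rfl⟩
        exact h4 t j
      exact hle hP
    obtain ⟨P, Q, hQ, h5⟩ := hy.gen x
    have hQ0 : MvPolynomial.aeval y Q ≠ 0 := fun h =>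
      hQ ((injective_iff_map_eq_zero _).1 hy.ind Q h)
    have h6 : x = MvPolynomial.aeval y P / MvPolynomial.aeval y Q := (eq_div_iff hQ0).2 h5
    rw [h6]
    exact IntermediateField.div_mem _ (hm P) (hm Q)
  obtain ⟨a, ha, b, hb, hab⟩ := IntermediateField.mem_adjoin_iff_div.1 hx
  have hA : Algebra.adjoin k (M.A t : Set K) = M.A t := Algebra.adjoin_eq _
  rw [hA] at ha hb
  by_cases h0 : b = 0
  · exact ⟨0, Subalgebra.zero_mem _, 1, Subalgebra.one_mem _, one_ne_zero, by
      rw [hab, h0]; simp⟩
  · exact ⟨a, ha, b, hb, h0, by rw [hab, div_eq_mul_inv]⟩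

end torus



section prod

variable {p : ℕ} {k : Type u} [Field k]

/-- The bounds for the charts of the product. -/
structure PQ {E1 L : Type u} [Field E1] [Field L] [Algebra k E1] [Algebra k L] (j1 : E1 →ₐ[k] L)
    {T I J : Type} (M : LM (⊥ : Subalgebra k L) ⊤ T I) (y : J → L) : Prop where
  uq : ∀ S : Subalgebra k L, (∀ e, j1 e ∈ S) → (∀ j, y j ∈ S ∧ (y j)⁻¹ ∈ S) → UQ M S
  fr : ∀ t e, ∃ D, D ≠ 0 ∧ j1 D ∈ M.A t ∧ j1 (D * e) ∈ M.A t

open Pool.Agent.W191.WD.Prod in
lemma pq_prodLM {E1 E2 L : Type u} [Field E1] [Field E2] [Field L] [Algebra k E1] [Algebra k E2]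
    [Algebra k L] [Algebra E1 L] [Algebra E2 L] [IsScalarTower k E1 L] [IsScalarTower k E2 L]
    (hinj : Inj L k E1 E2) {T1 T2 I1 I2 J : Type} (M1 : LM (⊥ : Subalgebra k E1) ⊤ T1 I1)
    (M2 : LM (⊥ : Subalgebra k E2) ⊤ T2 I2) (hR1 : Frc M1) {y : J → E2}
    (hU : ∀ S : Subalgebra k E2, (∀ j, y j ∈ S ∧ (y j)⁻¹ ∈ S) → UQ M2 S) :
    PQ (IsScalarTower.toAlgHom k E1 L) (prodLM hinj M1 M2) (fun j => algebraMap E2 L (y j)) where
  uq := by
    intro S h1 h2
    let S2 : Subalgebra k E2 := S.comap (IsScalarTower.toAlgHom k E2 L)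
    have hS2 : UQ M2 S2 := hU S2 fun j => ⟨(h2 j).1, by
      change algebraMap E2 L (y j)⁻¹ ∈ S
      rw [map_inv₀]
      exact (h2 j).2⟩
    constructor
    · intro t
      refine PA_ind ?_ ?_
      · intro a ha b hb
        exact S.mul_mem (h1 a) (hS2.1 t.2 hb)
      · intro a b ha hb
        exact S.add_mem ha hb
    · rintro t (i | i)
      · change (algebraMap E1 L (M1.x t.1 i))⁻¹ ∈ S
        rw [← map_inv₀]
        exact h1 _
      · change (algebraMap E2 L (M2.x t.2 i))⁻¹ ∈ S
        rw [← map_inv₀]
        exact hS2.2 t.2 i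
  fr := by
    intro t e
    obtain ⟨a, ha, b, hb, hb0, rfl⟩ := hR1 t.1 e
    refine ⟨b, hb0, meml hb, ?_⟩
    have h1 : b * (a * b⁻¹) = a := by field_simp
    rw [h1]
    exact meml ha

end prod

end Pool.Agent.TH214.V
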