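import Pool.Agent.TH214.V.Sch3

/-! Artin-Schreier normal forms on the subvariety. -/

set_option autoImplicit false
set_option linter.unusedVariables false
set_option linter.unusedSectionVars false

universe u

open Pool.Agent.W558 Pool.Agent.W177.WD Pool.Agent.W973.CUT Pool.Agent.W973.CUT2

namespace Pool.Agent.TH214.V

lemma der_smul {k κ : Type u} [Field k] [Field κ] [Algebra k κ] {J : Type} [Fintype J]
    (G : (J → ℤ) →₀ k) (l : J → ℤ) (z a : J → κ) (r : κ) :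
    der G l z (fun j => r * a j) = r * der G l z a := by
  have h1 := der_add G l z (fun _ => 0) a r
  rw [der_zero, zero_add] at h1
  rw [← h1]
  congr 1
  funext j
  rw [zero_add]

lemma tr_gm0 {I I' J : Type} [Fintype I] [Fintype J] (Θ : I' → I → ℤ) (Y : J → I → ℤ)
    (m : J → ℤ) (i' : I') :
    ∑ i, Θ i' i * gm Y 0 m i = gm (fun j => tr Θ (Y j)) 0 m i' := by
  have h1 := tr_gm Θ Y 0 m i'
  have h2 : tr Θ (0 : I → ℤ) = 0 := by
    funext i'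
    unfold tr
    simp
  rw [h2] at h1
  exact h1

section place

variable {k K L : Type u} [Field k] [Field K] [Algebra k K] [Field L] [Algebra k L]
  {Q : Subalgebra k K} (π : Q →ₐ[k] L) {T I : Type} [Fintype I] {c d : ℕ}
  {M : LM (⊥ : Subalgebra k K) ⊤ T I} {ι J σ τ : Type} [Fintype J]
  {n : ι → I → ℤ} {h : T → ι → K} {z : J → K} {Z : J → I → ℤ} {vt : J → Prop}

/-- The equations at a point of the subvariety. -/
theorem place (hZ : Fn M z Z) (hD : DualV M n h z Z vt) (hin : CutIn π c d M)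
    (G : σ → (J → ℤ) →₀ k) (F : τ → (J → ℤ) →₀ k) (tw : τ → Prop)
    (hG : ∀ s, pq π (lv (G s) z) = 0) (hND : NDV G F vt tw c)
    (hCG : ∀ s t, CC (M.A t) (M.x t) Z (G s)) (t : T) (κ : Type u) [Field κ] [Algebra k κ]
    (φ : M.A t →ₐ[k] κ) (hφ : ∀ a (ha : a ∈ M.A t), pq π a = 0 → φ ⟨a, ha⟩ = 0)
    {w : J → K} (w0 : ∀ j, w j ≠ 0) (wA : ∀ j, w j ∈ M.A t)
    (wi : ∀ j, (w j)⁻¹ ∈ M.A t) (hw : ∀ j, z j = w j * ∏ i, M.x t i ^ Z j i) :
    (∀ s, vl (G s) (ls φ (M.xA t) Z) (zp φ (M.xA t) wA Z) = 0) ∧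
    ∃ (s : Fin c → σ) (a : Fin c → J → κ) (γ : Fin c → M.A t) (v : Fin c → LT φ (M.x t)),
      (∀ i j, ¬ vt j → a i j = 0) ∧
      (∀ i j, der (G (s j)) (ls φ (M.xA t) Z) (zp φ (M.xA t) wA Z) (a i) =
        if i = j then 1 else 0) ∧
      (∀ j, pq π (γ j : K) = 0) ∧ (∀ i j, (v i).D.D (γ j) = if i = j then 1 else 0) ∧
      ∀ (V : LT φ (M.x t)) (cc : J → κ), (∀ j, LGF V (Z j) (z j) (cc j)) →
        (∀ i, der (G (s i)) (ls φ (M.xA t) Z) (zp φ (M.xA t) wA Z) cc = 0) →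
        ∀ i, V.D.D (γ i) = 0 := by
  classical
  have hzQ := fn_memQ ⟨t⟩ hin.uq hZ
  have hxQ : ∀ i, M.x t i ∈ Q := fun i => hin.uq.1 t (M.xA t i)
  have hmem : ∀ s, lv (G s) z * ∏ i, M.x t i ^ (-nmin (G s) Z 0 i) ∈ M.A t := fun s =>
    lv_mem (M.xA t) (M.x0 t) Z w0 wA wi hw (G s) _ fun m hm i => nmin_le_gm _ _ _ _ m hm
  have hpq : ∀ s, pq π (lv (G s) z * ∏ i, M.x t i ^ (-nmin (G s) Z 0 i)) = 0 := by
    intro s
    rw [pq_mul π (lv_memQ (fun j => (hzQ j).2.1) (fun j => (hzQ j).2.2) (G s))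
      (Q.prod_mem fun i _ => zpow_mem_of (hxQ i) (Or.inr (hin.uq.2 t i))), hG, zero_mul]
  choose hvl cs cs0 hcs using fun s => eq_pt φ (M.xA t) (M.x0 t) Z w0 wA wi hw (G s) (hCG s t)
    (hmem s) (hφ _ (hmem s) (hpq s))
  refine ⟨hvl, ?_⟩
  obtain ⟨⟨s, a, ha0, ha⟩, -⟩ := hND κ (ls φ (M.xA t) Z) (zp φ (M.xA t) wA Z)
    (zp_ne φ (M.xA t) Z w0 wA wi) hvl
  choose v hv1 hv2 using fun i => hD t κ φ (fun j => (cs (s i))⁻¹ * a i j)
    (fun j hj => by rw [ha0 i j hj, mul_zero])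
  refine ⟨s, a, fun i => ⟨_, hmem (s i)⟩, v, ha0, ha, fun j => hpq (s j), fun i j => ?_,
    fun V cc hV hcc i => ?_⟩
  · rw [hcs (s j) (v i) _ (hv2 i), der_smul, ha]
    split_ifs with hij
    · rw [hij, mul_one, mul_inv_cancel₀ (cs0 _)]
    · rw [mul_zero, mul_zero]
  · rw [hcs (s i) V cc hV, hcc, mul_zero]

end place

section main

variable {k K L : Type u} [Field k] [Field K] [Algebra k K] [Field L] [Algebra k L]
  {Q : Subalgebra k K} {π : Q →ₐ[k] L} {T I : Type} [Finite T] [Fintype I] {c d : ℕ}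
  {M : LM (⊥ : Subalgebra k K) ⊤ T I} {ι J σ τ : Type} [Fintype J] [Finite σ] [Finite τ]
  {n : ι → I → ℤ} {a h : T → ι → K} {f : ι → K} {z : J → K} {Z : J → I → ℤ} {vt : J → Prop}

/-- Joint Artin-Schreier normal form on the subvariety. -/
theorem cut_gma (hloc : S2_loc.{u}) (p : ℕ) [Fact p.Prime] (hN : NBS p M f n a h)
    (hZ : Fn M z Z) (hD : DualV M n h z Z vt) (hin : CutIn π c d M) (haQ : ∀ t j, a t j ∈ Q)
    (G : σ → (J → ℤ) →₀ k) (F : τ → (J → ℤ) →₀ k) (tw : τ → Prop)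
    (hG : ∀ s, pq π (lv (G s) z) = 0) (hND : NDV G F vt tw c)
    (hun : ∀ t, ¬ tw t → (∀ s, ∀ m ∈ (G s).support, ∀ j, ¬ vt j → m j = 0) ∧
      ∀ m ∈ (F t).support, ∀ j, ¬ vt j → m j = 0) :
    GMA p k (Sum.elim (fun j => pq π (f j)) (fun t => lv (F t) (fun j => pq π (z j))))
      (fun j => pq π (z j)) := by
  classical
  have hp : p.Prime := Fact.out
  have : Fintype τ := Fintype.ofFinite τ
  have : Fintype σ := Fintype.ofFinite σ
  let X : Type := Option ((Σ t : τ, {m // m ∈ (F t).support}) ⊕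
    (Σ s : σ, {m // m ∈ (G s).support}))
  let Γ' : X → I → ℤ := fun o => o.elim 0
    (Sum.elim (fun q => gm Z 0 q.2.1) (fun q => gm Z 0 q.2.1))
  obtain ⟨T', I', iT, iI, M', ρ, Θ, hOv, hΘ, hS, hC⟩ := ovp_uq M Γ'
  let Z1 : J → I' → ℤ := fun j => tr Θ (Z j)
  have hN0 := nbs_ov hOv hΘ hN
  have hD1 := hD.ov hOv hN.hA
  have hZ1 : Fn M' z Z1 := hZ.ov hOv
  have hin1 : CutIn π c d M' := hin.ov hOv hS
  have hCF : ∀ t t', CC (M'.A t') (M'.x t') Z1 (F t) := by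
    intro t t' m hm m' hm'
    have h1 := hC (some (Sum.inl ⟨t, m, hm⟩)) (some (Sum.inl ⟨t, m', hm'⟩)) t'
    change (∀ i', (∑ i, Θ i' i * gm Z 0 m i ≤ ∑ i, Θ i' i * gm Z 0 m' i ∨ _)) ∨
      (∀ i', (∑ i, Θ i' i * gm Z 0 m' i ≤ ∑ i, Θ i' i * gm Z 0 m i ∨ _)) at h1
    simp only [tr_gm0] at h1
    exact h1
  have hCG : ∀ s t', CC (M'.A t') (M'.x t') Z1 (G s) := by
    intro t t' m hm m' hm'
    have h1 := hC (some (Sum.inr ⟨t, m, hm⟩)) (some (Sum.inr ⟨t, m', hm'⟩)) t'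
    change (∀ i', (∑ i, Θ i' i * gm Z 0 m i ≤ ∑ i, Θ i' i * gm Z 0 m' i ∨ _)) ∨
      (∀ i', (∑ i, Θ i' i * gm Z 0 m' i ≤ ∑ i, Θ i' i * gm Z 0 m i ∨ _)) at h1
    simp only [tr_gm0] at h1
    exact h1
  have hC0 : ∀ t t', ∀ m ∈ (F t).support, (∀ i, gm Z1 0 m i ≤ 0 ∨ (M'.x t' i)⁻¹ ∈ M'.A t') ∨
      (∀ i, 0 ≤ gm Z1 0 m i ∨ (M'.x t' i)⁻¹ ∈ M'.A t') := by
    intro t t' m hm
    have h1 := hC (some (Sum.inl ⟨t, m, hm⟩)) none t'
    change (∀ i', (∑ i, Θ i' i * gm Z 0 m i ≤ ∑ i, Θ i' i * (0 : ℤ) ∨ _)) ∨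
      (∀ i', (∑ i, Θ i' i * (0 : ℤ) ≤ ∑ i, Θ i' i * gm Z 0 m i ∨ _)) at h1
    simp only [tr_gm0, mul_zero, Finset.sum_const_zero] at h1
    exact h1
  choose w w0 wA wi hw using fun (t' : T') (j : J) => hZ1 j t'
  let NF : τ → I' → ℤ := fun t => npole (F t) Z1 0
  have hnF : ∀ t, ∀ m ∈ (F t).support, ∀ i, NF t i ≤ gm Z1 0 m i := fun t m hm i =>
    npole_le_gm _ _ _ _ m hm
  have hmF : ∀ t t', lv (F t) z * ∏ i, M'.x t' i ^ (-NF t i) ∈ M'.A t' := fun t t' =>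
    lv_mem (M'.xA t') (M'.x0 t') Z1 (w0 t') (wA t') (wi t') (hw t') (F t) (NF t) (hnF t)
  have hpl := fun t' (κ : Type u) [Field κ] [Algebra k κ] (φ : M'.A t' →ₐ[k] κ) hφ =>
    place π hZ1 hD1 hin1 G F tw hG hND hCG t' κ φ hφ (w0 t') (wA t') (wi t') (hw t')
  have hpt : CutPt π c M' := by
    intro t' κ _ _ φ hφ
    obtain ⟨-, s, a, γ, v, -, -, h1, h2, -⟩ := hpl t' κ φ hφ
    exact ⟨γ, v, h1, h2⟩
  have hok : CutOk π c d M' := hin1.ok hpt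
  have hzQ : ∀ j, z j ≠ 0 ∧ z j ∈ Q ∧ (z j)⁻¹ ∈ Q := fn_memQ (nonempty_T M') hin1.uq hZ1
  have hxQ : ∀ t i, M'.x t i ∈ Q := fun t i => hok.AQ t (M'.xA t i)
  have hprodQ : ∀ t (e : I' → ℤ), ∏ i, M'.x t i ^ e i ∈ Q := fun t e =>
    Q.prod_mem fun i _ => zpow_mem_of (hxQ t i) (Or.inr (hok.xQ t i))
  have hpqprod : ∀ t (e : I' → ℤ), pq π (∏ i, M'.x t i ^ e i) =
      ∏ i, pq π (M'.x t i) ^ e i := by
    intro t e
    rw [pq_prod π _ _ fun i _ => zpow_mem_of (hxQ t i) (Or.inr (hok.xQ t i))]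
    exact Finset.prod_congr rfl fun i _ => pq_zpow π (M'.x0 t i) (hxQ t i) (hok.xQ t i) _
  have hlvQ : ∀ P : (J → ℤ) →₀ k, lv P z ∈ Q := fun P =>
    lv_memQ (fun j => (hzQ j).2.1) (fun j => (hzQ j).2.2) P
  refine ⟨T', I', iT, iI, cutLM π hok hloc, Sum.elim (fun l => tr Θ (n l)) NF,
    fun t' => Sum.elim (fun j => pq π (a (ρ t') j)) (fun _ => 0),
    fun t' => Sum.elim (fun j => pq π (h (ρ t') j))
      (fun t => pq π (lv (F t) z * ∏ i, M'.x t' i ^ (-NF t i))), Z1, ⟨?_, ?_, ?_, ?_⟩, ?_, ?_⟩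
  · rintro (l | t) i
    · exact hN0.n0 l i
    · exact npole_le _ _ _ _
  · rintro t' (l | t)
    · exact pq_mem π _ (hN0.hA t' l)
    · exact pq_mem π _ (hmF t t')
  · rintro t' (l | t)
    · change pq π (f l) = pq π (a (ρ t') l) ^ p - pq π (a (ρ t') l) +
        (∏ i, pq π (M'.x t' i) ^ tr Θ (n l) i) * pq π (h (ρ t') l)
      have haQ' := haQ (ρ t') l
      have hhQ : h (ρ t') l ∈ Q := hok.AQ t' (hN0.hA t' l)
      have h1 := hN0.eq t' l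
      rw [h1, pq_add π (Q.sub_mem (Q.pow_mem haQ' p) haQ') (Q.mul_mem (hprodQ t' _) hhQ),
        pq_sub π (Q.pow_mem haQ' p) haQ', pq_pow π haQ', pq_mul π (hprodQ t' _) hhQ, hpqprod]
    · change lv (F t) (fun j => pq π (z j)) = 0 ^ p - 0 + (∏ i, pq π (M'.x t' i) ^ NF t i) *
        pq π (lv (F t) z * ∏ i, M'.x t' i ^ (-NF t i))
      rw [pq_mul π (hlvQ _) (hprodQ t' _), hpqprod, zero_pow hp.ne_zero, sub_zero, zero_add,
        ← pq_lv π (fun j => (hzQ j).1) (fun j => (hzQ j).2.1) (fun j => (hzQ j).2.2)]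
      have h2 : (∏ i, pq π (M'.x t' i) ^ NF t i) * ∏ i, pq π (M'.x t' i) ^ (-NF t i) = 1 := by
        rw [← Finset.prod_mul_distrib]
        refine Finset.prod_eq_one fun i _ => ?_
        rw [← zpow_add₀ (pq_ne π (M'.x0 t' i) (hxQ t' i) (hok.xQ t' i)), add_neg_cancel,
          zpow_zero]
      rw [mul_left_comm, h2, mul_one]
  · intro t' κ _ _ φ'
    let φ : M'.A t' →ₐ[k] κ := φ'.comp (qm π (M'.A t') (hok.AQ t'))
    have hφ : ∀ a (ha : a ∈ M'.A t'), pq π a = 0 → φ ⟨a, ha⟩ = 0 := fun a ha h0 =>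
      below_zero π (hok.AQ t') φ' a ha h0
    obtain ⟨hvl, s, av, γ, v, ha0, ha, hγ, hv, hV⟩ := hpl t' κ φ hφ
    let x := M'.x t'
    have hxA := M'.xA t'
    have hx0 := M'.x0 t'
    let ζ := zp φ hxA (wA t') Z1
    let l := ls φ hxA Z1
    have hζ : ∀ j, ζ j ≠ 0 := zp_ne φ hxA Z1 (w0 t') (wA t') (wi t')
    obtain ⟨-, hND2⟩ := hND κ l ζ hζ hvl
    let C : τ → Prop := fun t =>
      ∃ m ∈ (F t).support, ∀ i, φ ⟨x i, hxA i⟩ = 0 → gm Z1 0 m i = NF t i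
    have hCle : ∀ t, C t → (tw t ∨ ∃ m ∈ (F t).support, ∑ j, l j * m j ≤ 0) := fun t ht =>
      Or.inr (npole_wt φ hxA Z1 ht)
    choose cF cF0 hcF using fun t => om_lv φ hxA hx0 Z1 (w0 t') (wA t') (wi t') (hw t') (F t)
      (NF t) (hnF t)
    have hhA : ∀ l, h (ρ t') l ∈ M'.A t' := fun l => hN0.hA t' l
    rintro (j0 | t0) ⟨i0, hi0, hi0'⟩
    · have hact : φ ⟨x i0, hxA i0⟩ = 0 :=
        (below π (hok.AQ t') φ' (M'.x t' i0) (hxA i0)).trans hi0'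
      obtain ⟨v0, hv0, hv0'⟩ := hN0.ln t' κ φ j0 ⟨i0, hi0, hact⟩
      choose α hα using fun j => LGF.exists v0 (w0 t' j) (wA t' j) (wi t' j) (hw t' j)
      have hav : ∀ t, ∃ b : J → κ, (∀ j, ¬ vt j → b j = 0) ∧ (C t → tw t →
          (∀ s, der (G s) l ζ b = 0) ∧ der (F t) l ζ b ≠ 0 ∧
          ∀ t', C t' → t' ≠ t → der (F t') l ζ b = 0) := by
        intro t
        by_cases htw : tw t
        · obtain ⟨b, h1, h2, h3, h4⟩ := hND2 t (Or.inl htw)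
          exact ⟨b, h1, fun _ _ => ⟨h2, h3, fun t' hC' hne => h4 t' hne (hCle t' hC')⟩⟩
        · exact ⟨0, fun _ _ => rfl, fun _ h' => absurd h' htw⟩
      choose b hb0 hb using hav
      obtain ⟨cc, hcc1, hcc2, hcc3⟩ := correct2 G F l ζ vt C tw s av ha0 ha b hb0 hb hun α
      obtain ⟨vD, hvD1, hvD2⟩ := hD1 t' κ φ (fun j => cc j - α j)
        (fun j hj => by rw [hcc1 j hj, sub_self])
      have hvD1' : ∀ l (hh : h (ρ t') l ∈ M'.A t'), om vD (tr Θ (n l)) hh = 0 :=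
        fun l hh => hvD1 l hh
      have hz' : ∀ j, LGF (ltAdd v0 vD 1) (Z1 j) (z j) (cc j) := by
        intro j
        have h1 := LGF.add 1 hx0 (hα j) (hvD2 j)
        have h2 : α j + 1 * (cc j - α j) = cc j := by ring
        rw [h2] at h1
        exact h1
      obtain ⟨V', hV'1, hV'2⟩ := desc_lt π hok hloc φ' hγ hv (ltAdd v0 vD 1)
        (hV (ltAdd v0 vD 1) cc hz' hcc2)
      have hom := fun (e : I' → ℤ) {y : K} (hy : y ∈ M'.A t')
        (hy' : pq π y ∈ im π (M'.A t') (hok.AQ t')) =>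
        om_desc π (hok.AQ t') φ' (ltAdd v0 vD 1) V' hV'1 hV'2 e hy hy'
      refine ⟨V', ?_, ?_⟩
      · refine Eq.trans_ne (hom (tr Θ (n j0)) (hhA j0) _) ?_
        change om (ltAdd v0 vD 1) (tr Θ (n j0)) (hhA j0) ≠ 0
        rw [om_ltAdd, hvD1' j0, mul_zero, add_zero]
        exact hv0
      · rintro (l' | t) hne
        · refine (hom (tr Θ (n l')) (hhA l') _).trans ?_
          change om (ltAdd v0 vD 1) (tr Θ (n l')) (hhA l') = 0
          rw [om_ltAdd, hvD1' l', mul_zero, add_zero]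
          exact hv0' l' fun h => hne (by rw [h])
        · refine (hom (NF t) (hmF t t') _).trans ?_
          refine (hcF t (ltAdd v0 vD 1) cc hz' (hmF t t')).trans ?_
          split_ifs with hCt
          · rw [hcc3 t hCt, mul_zero]
          · rfl
    · have hact : φ ⟨x i0, hxA i0⟩ = 0 :=
        (below π (hok.AQ t') φ' (M'.x t' i0) (hxA i0)).trans hi0'
      obtain ⟨hCt0, hneg⟩ := npole_att φ hxA hx0 Z1 (hCF t0 t') (hC0 t0 t') ⟨i0, hi0, hact⟩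
      obtain ⟨b, hb1, hb2, hb3, hb4⟩ := hND2 t0 (Or.inr hneg)
      obtain ⟨vD, hvD1, hvD2⟩ := hD1 t' κ φ b hb1
      obtain ⟨V', hV'1, hV'2⟩ := desc_lt π hok hloc φ' hγ hv vD (hV vD b hvD2 fun i => hb2 _)
      have hom := fun (e : I' → ℤ) {y : K} (hy : y ∈ M'.A t')
        (hy' : pq π y ∈ im π (M'.A t') (hok.AQ t')) =>
        om_desc π (hok.AQ t') φ' vD V' hV'1 hV'2 e hy hy'
      refine ⟨V', ?_, ?_⟩
      · refine Eq.trans_ne (hom (NF t0) (hmF t0 t') _) ?_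
        refine Eq.trans_ne (hcF t0 vD b hvD2 (hmF t0 t')) ?_
        rw [if_pos hCt0]
        exact mul_ne_zero (cF0 t0) hb3
      · rintro (l' | t) hne
        · refine (hom (tr Θ (n l')) (hhA l') _).trans ?_
          exact hvD1 l' (hN0.hA t' l')
        · refine (hom (NF t) (hmF t t') _).trans ?_
          refine (hcF t vD b hvD2 (hmF t t')).trans ?_
          split_ifs with hCt
          · rw [hb4 t (fun h => hne (by rw [h])) (hCle t hCt), mul_zero]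
          · rfl
  · intro j t'
    refine ⟨pq π (w t' j), pq_ne π (w0 t' j) (hok.AQ t' (wA t' j)) (hok.AQ t' (wi t' j)),
      pq_mem π _ (wA t' j), ?_, ?_⟩
    · rw [← pq_inv π (w0 t' j) (hok.AQ t' (wA t' j)) (hok.AQ t' (wi t' j))]
      exact pq_mem π _ (wi t' j)
    · change pq π (z j) = pq π (w t' j) * ∏ i, pq π (M'.x t' i) ^ Z1 j i
      rw [← hpqprod, ← pq_mul π (hok.AQ t' (wA t' j)) (hprodQ t' _), ← hw t' j]
  · intro t' y
    exact im_frac π hok t' y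

end main

end Pool.Agent.TH214.V
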