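import Pool.Agent.TH214.V.Amb
import Pool.Agent.TH214.V.Sch4

/-! Products with the torus with bounds for the charts. -/

set_option autoImplicit false
set_option linter.unusedVariables false
set_option linter.unusedSectionVars false

universe u

open Pool.Agent.W558 Pool.Agent.W177.WD Polynomial TensorProduct

namespace Pool.Agent.TH214.V

/-- The data of `GMD`, with bounds for the charts of the model. -/
def GMDQ (p : ℕ) (k : Type u) {E1 L : Type u} [Field k] [Field E1] [Field L] [Algebra k E1]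
    [Algebra k L] (j1 : E1 →ₐ[k] L) {ι G J : Type}
    (f : ι → L) (g : G → L) (y : J → L) : Prop :=
  ∃ (T I : Type) (_ : Finite T) (_ : Fintype I) (M : LM (⊥ : Subalgebra k L) ⊤ T I)
    (n : ι → I → ℤ) (a h : T → ι → L) (Γ : G → I → ℤ) (Y : J → I → ℤ),
    NBS p M f n a h ∧ Fn M g Γ ∧ Fn M y Y ∧ Dual M n h g Γ y Y ∧ PQ j1 M y ∧
    (∀ t l, ∃ e, a t l = j1 e)

/-- The data of `GMJD`, with bounds for the charts of the model. -/
def GMJDQ (p : ℕ) (k : Type u) {E1 L : Type u} [Field k] [Field E1] [Field L] [Algebra k E1]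
    [Algebra k L] (j1 : E1 →ₐ[k] L) {ι G J : Type}
    (f : ι → L) (g : G → L) (y : J → L) : Prop :=
  ∃ (T I : Type) (_ : Finite T) (_ : Fintype I) (M : LM (⊥ : Subalgebra k L) ⊤ T I)
    (n : ι → I → ℤ) (a h : T → ι → L) (Γ : G → I → ℤ) (Y : J → I → ℤ),
    NFJ p M f n a h ∧ Fn M g Γ ∧ Fn M y Y ∧ Dual M n h g Γ y Y ∧ PQ j1 M y ∧
    (∀ t l, ∃ e, a t l = j1 e)

section prod

variable {p : ℕ} {k : Type u} [Field k]

open Pool.Agent.W191.WD.Prod in
/-- The product with a compactified torus. -/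
theorem gmd_prodQ {E1 E2 L : Type u} [Field E1] [Field E2] [Field L] [Algebra k E1] [Algebra k E2]
    [Algebra k L] (j1 : E1 →ₐ[k] L) (j2 : E2 →ₐ[k] L)
    (hinj0 : Function.Injective (Algebra.TensorProduct.productMap j1 j2))
    (hfr : ∀ x : L, ∃ a b : E1 ⊗[k] E2, b ≠ 0 ∧
      x * Algebra.TensorProduct.productMap j1 j2 b = Algebra.TensorProduct.productMap j1 j2 a)
    {ι G : Type} {r : ℕ} {f : ι → E1} {g : G → E1} {y : Fin r → E2}
    (h1 : GMA p k f g) (h2 : Rat (k := k) y) :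
    GMDQ p k j1 (fun l => j1 (f l)) (fun b => j1 (g b)) (fun j => j2 (y j)) := by
  obtain ⟨T1, I1, hT1, hI1, M1, n1, a1, h1, Γ1, hN1, hF1, hR1⟩ := h1
  obtain ⟨T2, I2, hT2, hI2, M2, Y, hY, hD2, hR2, hU2⟩ := exists_torusQ h2
  let _ : Algebra E1 L := j1.toRingHom.toAlgebra
  let _ : Algebra E2 L := j2.toRingHom.toAlgebra
  have t1 : IsScalarTower k E1 L := IsScalarTower.of_algebraMap_eq fun x => (j1.commutes x).symm
  have t2 : IsScalarTower k E2 L := IsScalarTower.of_algebraMap_eq fun x => (j2.commutes x).symm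
  have e1 : IsScalarTower.toAlgHom k E1 L = j1 := AlgHom.ext fun x => rfl
  have e2 : IsScalarTower.toAlgHom k E2 L = j2 := AlgHom.ext fun x => rfl
  have hinj : Inj L k E1 E2 := by
    unfold Inj
    rw [e1, e2]
    exact hinj0
  have hA : ∀ (t : T1 × T2) (j : ι), algebraMap E1 L (h1 t.1 j) ∈ (prodLM hinj M1 M2).A t :=
    fun t j => meml (hN1.hA _ _)
  have hFg : Fn (prodLM hinj M1 M2) (fun b => algebraMap E1 L (g b))
      (fun b => Sum.elim (Γ1 b) 0) := by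
    intro b t
    obtain ⟨w, hw0, hw, hw', e⟩ := hF1 b t.1
    refine ⟨algebraMap E1 L w, (_root_.map_ne_zero _).2 hw0, meml hw, ?_, ?_⟩
    · rw [← map_inv₀]
      exact meml hw'
    · rw [prod_monl, ← map_mul, ← e]
  have hFy : Fn (prodLM hinj M1 M2) (fun j => algebraMap E2 L (y j))
      (fun j => Sum.elim 0 (Y j)) := by
    intro b t
    obtain ⟨w, hw0, hw, hw', e⟩ := hY b t.2
    refine ⟨algebraMap E2 L w, (_root_.map_ne_zero _).2 hw0, memr hw, ?_, ?_⟩
    · rw [← map_inv₀]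
      exact memr hw'
    · rw [prod_monr, ← map_mul, ← e]
  refine ⟨T1 × T2, I1 ⊕ I2, inferInstance, inferInstance, prodLM hinj M1 M2,
    fun j => Sum.elim (n1 j) 0, fun t j => algebraMap E1 L (a1 t.1 j),
    fun t j => algebraMap E1 L (h1 t.1 j), fun b => Sum.elim (Γ1 b) 0, fun j => Sum.elim 0 (Y j),
    ?_, hFg, hFy, ?_, ?_, fun t l => ⟨a1 t.1 l, rfl⟩⟩
  · refine ⟨?_, hA, ?_, ?_⟩
    · rintro j (i | i)
      · exact hN1.n0 j i
      · exact le_rfl
    · rintro t j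
      rw [prod_monl, ← map_pow, ← map_mul, ← map_sub, ← map_add, ← hN1.eq]
      rfl
    · rintro t κ _ _ φ j ⟨i, hi, hφ⟩
      obtain ⟨i', hi', hφ'⟩ : ∃ i', n1 j i' < 0 ∧
          (φ.comp (i1 (M1.A t.1) (M2.A t.2))) ⟨M1.x t.1 i', M1.xA t.1 i'⟩ = 0 := by
        rcases i with i | i
        · exact ⟨i, hi, hφ⟩
        · exact absurd hi (lt_irrefl _)
      obtain ⟨v1, hv1, hv1'⟩ := hN1.ln t.1 κ (φ.comp (i1 (M1.A t.1) (M2.A t.2))) j
        ⟨i', hi', hφ'⟩
      obtain ⟨v, hv, hv'⟩ := ext_lt hinj M1 M2 t κ φ v1 (zeroLT _ _)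
      refine ⟨v, ?_, ?_⟩
      · rw [hv (n1 j) (h1 t.1 j) (hN1.hA _ _) (hA t j)]
        exact hv1
      · intro l hl
        rw [hv (n1 l) (h1 t.1 l) (hN1.hA _ _) (hA t l)]
        exact hv1' l hl
  · intro t κ _ _ φ c
    obtain ⟨v2, hv2⟩ := hD2 t.2 κ (φ.comp (i2 (M1.A t.1) (M2.A t.2))) c
    obtain ⟨v, hv, hv'⟩ := ext_lt hinj M1 M2 t κ φ (zeroLT _ _) v2
    refine ⟨v, ?_, ?_, ?_⟩
    · intro l hh
      rw [hv (n1 l) (h1 t.1 l) (hN1.hA _ _) hh]
      exact om_zero _ _ _ _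
    · intro b
      obtain ⟨w, hw0, hw, hw', e⟩ := hF1 b t.1
      refine lgf_of_om (w := algebraMap E1 L w) ((_root_.map_ne_zero _).2 hw0) (meml hw) ?_ ?_ ?_
      · rw [← map_inv₀]
        exact meml hw'
      · rw [prod_monl, ← map_mul, ← e]
        rfl
      · rw [hv (Γ1 b) w hw (meml hw), mul_zero]
        exact om_zero _ _ _ _
    · intro j
      obtain ⟨w, hw0, hw, hw', e⟩ := hY j t.2
      refine lgf_of_om (w := algebraMap E2 L w) ((_root_.map_ne_zero _).2 hw0) (memr hw) ?_ ?_ ?_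
      · rw [← map_inv₀]
        exact memr hw'
      · rw [prod_monr, ← map_mul, ← e]
        rfl
      · rw [hv' (Y j) w hw (memr hw)]
        exact om_of_lgf (M2.x0 t.2) hw e (hv2 j)
  · have h5 := pq_prodLM hinj M1 M2 hR1 hU2
    rw [e1] at h5
    exact h5


open Pool.Agent.W191.WD.Prod in
/-- The product with a compactified torus. -/
theorem gmjd_prodQ {E1 E2 L : Type u} [Field E1] [Field E2] [Field L] [Algebra k E1] [Algebra k E2]
    [Algebra k L] (j1 : E1 →ₐ[k] L) (j2 : E2 →ₐ[k] L)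
    (hinj0 : Function.Injective (Algebra.TensorProduct.productMap j1 j2))
    (hfr : ∀ x : L, ∃ a b : E1 ⊗[k] E2, b ≠ 0 ∧
      x * Algebra.TensorProduct.productMap j1 j2 b = Algebra.TensorProduct.productMap j1 j2 a)
    {ι G : Type} {r : ℕ} {f : ι → E1} {g : G → E1} {y : Fin r → E2}
    (h1 : GM p k f g) (h2 : Rat (k := k) y) :
    GMJDQ p k j1 (fun l => j1 (f l)) (fun b => j1 (g b)) (fun j => j2 (y j)) := by
  obtain ⟨T1, I1, hT1, hI1, M1, n1, a1, h1, Γ1, hN1, hF1, hR1⟩ := h1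
  obtain ⟨T2, I2, hT2, hI2, M2, Y, hY, hD2, hR2, hU2⟩ := exists_torusQ h2
  let _ : Algebra E1 L := j1.toRingHom.toAlgebra
  let _ : Algebra E2 L := j2.toRingHom.toAlgebra
  have t1 : IsScalarTower k E1 L := IsScalarTower.of_algebraMap_eq fun x => (j1.commutes x).symm
  have t2 : IsScalarTower k E2 L := IsScalarTower.of_algebraMap_eq fun x => (j2.commutes x).symm
  have e1 : IsScalarTower.toAlgHom k E1 L = j1 := AlgHom.ext fun x => rfl
  have e2 : IsScalarTower.toAlgHom k E2 L = j2 := AlgHom.ext fun x => rfl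
  have hinj : Inj L k E1 E2 := by
    unfold Inj
    rw [e1, e2]
    exact hinj0
  have hA : ∀ (t : T1 × T2) (j : ι), algebraMap E1 L (h1 t.1 j) ∈ (prodLM hinj M1 M2).A t :=
    fun t j => meml (hN1.hA _ _)
  have hFg : Fn (prodLM hinj M1 M2) (fun b => algebraMap E1 L (g b))
      (fun b => Sum.elim (Γ1 b) 0) := by
    intro b t
    obtain ⟨w, hw0, hw, hw', e⟩ := hF1 b t.1
    refine ⟨algebraMap E1 L w, (_root_.map_ne_zero _).2 hw0, meml hw, ?_, ?_⟩
    · rw [← map_inv₀]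
      exact meml hw'
    · rw [prod_monl, ← map_mul, ← e]
  have hFy : Fn (prodLM hinj M1 M2) (fun j => algebraMap E2 L (y j))
      (fun j => Sum.elim 0 (Y j)) := by
    intro b t
    obtain ⟨w, hw0, hw, hw', e⟩ := hY b t.2
    refine ⟨algebraMap E2 L w, (_root_.map_ne_zero _).2 hw0, memr hw, ?_, ?_⟩
    · rw [← map_inv₀]
      exact memr hw'
    · rw [prod_monr, ← map_mul, ← e]
  refine ⟨T1 × T2, I1 ⊕ I2, inferInstance, inferInstance, prodLM hinj M1 M2,
    fun j => Sum.elim (n1 j) 0, fun t j => algebraMap E1 L (a1 t.1 j),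
    fun t j => algebraMap E1 L (h1 t.1 j), fun b => Sum.elim (Γ1 b) 0, fun j => Sum.elim 0 (Y j),
    ?_, hFg, hFy, ?_, ?_, fun t l => ⟨a1 t.1 l, rfl⟩⟩
  · refine ⟨hA, ?_, ?_⟩
    · rintro t j
      rw [prod_monl, ← map_pow, ← map_mul, ← map_add, ← hN1.eq]
      rfl
    · rintro t κ _ _ φ j
      obtain ⟨v1, hv1, hv1'⟩ := hN1.ln t.1 κ (φ.comp (i1 (M1.A t.1) (M2.A t.2))) j
      obtain ⟨v, hv, hv'⟩ := ext_lt hinj M1 M2 t κ φ v1 (zeroLT _ _)
      refine ⟨v, ?_, ?_⟩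
      · rw [hv (n1 j) (h1 t.1 j) (hN1.hA _ _) (hA t j)]
        exact hv1
      · intro l hl
        rw [hv (n1 l) (h1 t.1 l) (hN1.hA _ _) (hA t l)]
        exact hv1' l hl
  · intro t κ _ _ φ c
    obtain ⟨v2, hv2⟩ := hD2 t.2 κ (φ.comp (i2 (M1.A t.1) (M2.A t.2))) c
    obtain ⟨v, hv, hv'⟩ := ext_lt hinj M1 M2 t κ φ (zeroLT _ _) v2
    refine ⟨v, ?_, ?_, ?_⟩
    · intro l hh
      rw [hv (n1 l) (h1 t.1 l) (hN1.hA _ _) hh]
      exact om_zero _ _ _ _
    · intro b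
      obtain ⟨w, hw0, hw, hw', e⟩ := hF1 b t.1
      refine lgf_of_om (w := algebraMap E1 L w) ((_root_.map_ne_zero _).2 hw0) (meml hw) ?_ ?_ ?_
      · rw [← map_inv₀]
        exact meml hw'
      · rw [prod_monl, ← map_mul, ← e]
        rfl
      · rw [hv (Γ1 b) w hw (meml hw), mul_zero]
        exact om_zero _ _ _ _
    · intro j
      obtain ⟨w, hw0, hw, hw', e⟩ := hY j t.2
      refine lgf_of_om (w := algebraMap E2 L w) ((_root_.map_ne_zero _).2 hw0) (memr hw) ?_ ?_ ?_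
      · rw [← map_inv₀]
        exact memr hw'
      · rw [prod_monr, ← map_mul, ← e]
        rfl
      · rw [hv' (Y j) w hw (memr hw)]
        exact om_of_lgf (M2.x0 t.2) hw e (hv2 j)
  · have h5 := pq_prodLM hinj M1 M2 hR1 hU2
    rw [e1] at h5
    exact h5

end prod

end Pool.Agent.TH214.V
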