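import Pool.Agent.TH214.V.Amb2
import Pool.Agent.W558.S2.QS

/-! The subvarieties of the product of a torus with a rational variety. -/

set_option autoImplicit false
set_option linter.unusedVariables false
set_option linter.unusedSectionVars false

universe u

open Pool.Agent.W558 Pool.Agent.W177.WD Pool.Agent.W973.CUT Pool.Agent.W973.CUT2

namespace Pool.Agent.TH214.V

section rat

variable {k L : Type u} [Field k] [Field L] [Algebra k L]

/-- The transcendence degree of a field of rational functions. -/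
lemma up_of_rat {J : Type} [Fintype J] {v : J → L} (hv : Rat (k := k) v) {N : ℕ}
    (hN : Fintype.card J < N) (b : Fin N → L) : ¬ AlgebraicIndependent k b := by
  intro hb
  have h1 : IsTranscendenceBasis k v := by
    rw [hv.ind.isTranscendenceBasis_iff_isAlgebraic]
    refine ⟨fun x => ?_⟩
    obtain ⟨P, Q, hQ, h2⟩ := hv.gen x
    have hm : ∀ P : MvPolynomial J k, MvPolynomial.aeval v P ∈ Algebra.adjoin k (Set.range v) := by
      intro P
      rw [Algebra.adjoin_range_eq_range_aeval]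
      exact ⟨P, rfl⟩
    have hQ0 : MvPolynomial.aeval v Q ≠ 0 := fun h =>
      hQ ((injective_iff_map_eq_zero _).1 hv.ind Q h)
    refine ⟨Polynomial.C ⟨_, hm Q⟩ * Polynomial.X - Polynomial.C ⟨_, hm P⟩, ?_, ?_⟩
    · intro h
      have h3 := congrArg (fun p => Polynomial.coeff p 1) h
      simp only [Polynomial.coeff_sub, Polynomial.coeff_C_mul, Polynomial.coeff_X_one, mul_one,
        Polynomial.coeff_C_of_ne_zero one_ne_zero, sub_zero, Polynomial.coeff_zero] at h3
      exact hQ0 (congrArg Subtype.val h3)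
    · simp only [map_sub, map_mul, Polynomial.aeval_C, Polynomial.aeval_X]
      change MvPolynomial.aeval v Q * x - MvPolynomial.aeval v P = 0
      rw [← h2, mul_comm, sub_self]
  have h2 := h1.lift_cardinalMk_eq_trdeg
  have h3 := hb.lift_cardinalMk_le_trdeg
  rw [← h2] at h3
  simp only [Cardinal.mk_fintype, Fintype.card_fin, Cardinal.lift_natCast, Nat.cast_le] at h3
  omega

end rat

section evm

variable {k E1 L : Type u} [Field k] [Field E1] [Field L] [Algebra k E1] [Algebra k L]
  (j1 : E1 →ₐ[k] L) {r : ℕ} (y : Fin r → L)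

/-- The evaluation map. -/
noncomputable def evm : MvPolynomial (Fin r) E1 →ₐ[k] L :=
  { MvPolynomial.eval₂Hom (j1 : E1 →+* L) y with
    commutes' := by
      intro c
      change MvPolynomial.eval₂Hom (j1 : E1 →+* L) y (MvPolynomial.C (algebraMap k E1 c)) = _
      rw [MvPolynomial.eval₂Hom_C]
      exact j1.commutes c }

lemma evm_C (e : E1) : evm j1 y (MvPolynomial.C e) = j1 e :=
  MvPolynomial.eval₂Hom_C (j1 : E1 →+* L) y e

lemma evm_X (j : Fin r) : evm j1 y (MvPolynomial.X j) = y j :=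
  MvPolynomial.eval₂Hom_X' (j1 : E1 →+* L) y j

end evm

section inj

variable {k L : Type u} [Field k] [Field L] [Algebra k L] {J1 : Type} {r : ℕ}

lemma evm_inj {v1 : J1 → L} {y1 : Fin r → L} (hs : AlgebraicIndependent k (Sum.elim v1 y1))
    (hv1 : AlgebraicIndependent k v1) : Function.Injective (evm (rsub hv1) y1) := by
  have h1 : AlgebraicIndependent k (Sum.elim y1 v1) := by
    have h2 := hs.comp Sum.swap Sum.swap_leftInverse.injective
    have h3 : (Sum.elim v1 y1) ∘ Sum.swap = Sum.elim y1 v1 := by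
      funext q
      rcases q with q | q <;> rfl
    rw [h3] at h2
    exact h2
  have h2 := (AlgebraicIndependent.sumElim_iff.1 h1).2
  have h3 : AlgebraicIndependent (IntermediateField.adjoin k (Set.range v1)) y1 :=
    IntermediateField.algebraicIndependent_adjoin_iff.2 h2
  have hm : ∀ e, rsub hv1 e ∈ IntermediateField.adjoin k (Set.range v1) := by
    intro e
    obtain ⟨P, Q, hQ, rfl⟩ := IsFractionRing.div_surjective (A := MvPolynomial J1 k) e
    have hP : ∀ P : MvPolynomial J1 k, MvPolynomial.aeval v1 P ∈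
        IntermediateField.adjoin k (Set.range v1) := by
      intro P
      apply IntermediateField.algebra_adjoin_le_adjoin
      rw [Algebra.adjoin_range_eq_range_aeval]
      exact ⟨P, rfl⟩
    rw [map_div₀, rsub_algebraMap, rsub_algebraMap]
    exact IntermediateField.div_mem _ (hP P) (hP Q)
  let g : RF k J1 →+* IntermediateField.adjoin k (Set.range v1) :=
    { toFun := fun e => ⟨rsub hv1 e, hm e⟩
      map_one' := Subtype.ext (map_one _)
      map_mul' := fun a b => Subtype.ext (map_mul _ a b)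
      map_zero' := Subtype.ext (map_zero _)
      map_add' := fun a b => Subtype.ext (map_add _ a b) }
  have h4 : ∀ a, evm (rsub hv1) y1 a = MvPolynomial.aeval y1 (MvPolynomial.map g a) := by
    intro a
    rw [MvPolynomial.aeval_def, MvPolynomial.eval₂_map]
    rfl
  intro a b hab
  rw [h4, h4] at hab
  exact MvPolynomial.map_injective g g.injective (h3 hab)

end inj

section amb

variable {k L K0 : Type u} [Field k] [Field L] [Algebra k L] [Field K0] [Algebra k K0]
  {J1 : Type} [Fintype J1] {r : ℕ}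

/-- The ambient model and the subvariety. -/
theorem cutIn_amb {v1 : J1 → L} {y1 : Fin r → L} (hs : Rat (k := k) (Sum.elim v1 y1))
    (hv1 : AlgebraicIndependent k v1) {x' : J1 → K0} (hx' : AlgebraicIndependent k x')
    {y' : Fin r → K0} (hy' : ∀ j, y' j ≠ 0)
    (hgen : ∀ x : K0, ∃ a b : MvPolynomial (J1 ⊕ Fin r) k,
      MvPolynomial.aeval (Sum.elim x' y') b ≠ 0 ∧
        x * MvPolynomial.aeval (Sum.elim x' y') b = MvPolynomial.aeval (Sum.elim x' y') a)
    {c d : ℕ} (hcd : c + d = Fintype.card J1 + r) (dn : ∃ b : Fin d → K0, AlgebraicIndependent k b) :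
    ∃ (Q : Subalgebra k L) (π : Q →ₐ[k] K0),
      (∀ e, rsub hv1 e ∈ Q ∧ pq π (rsub hv1 e) = rsub hx' e) ∧
      (∀ j, y1 j ∈ Q ∧ pq π (y1 j) = y' j) ∧
      ∀ {T I : Type} [Fintype I] (M : LM (⊥ : Subalgebra k L) ⊤ T I) (Y : Fin r → I → ℤ),
        Fn M y1 Y → PQ (rsub hv1) M y1 → CutIn π c d M := by
  classical
  let ψ := evm (rsub hv1) y1
  let ψ' := evm (rsub hx') y'
  let S : Submonoid (MvPolynomial (Fin r) (RF k J1)) := (nonZeroDivisors K0).comap ψ'
  have hS : ∀ s, s ∈ S ↔ ψ' s ≠ 0 := fun s => by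
    rw [Submonoid.mem_comap]
    exact mem_nonZeroDivisors_iff_ne_zero
  have hinj : Function.Injective ψ := evm_inj hs.ind hv1
  have hle : ∀ a, ψ a = 0 → ψ' a = 0 := by
    intro a ha
    rw [(injective_iff_map_eq_zero _).1 hinj a ha, map_zero]
  obtain ⟨π, hπ⟩ := exists_pi ψ ψ' S (fun s hs => (hS s).1 hs) hle
  have hmap := fun a => pi_map hπ a
  have hpq : ∀ a, pq π (ψ a) = ψ' a := fun a => by
    rw [pq_of π (map_mem_QS a)]
    exact hmap a
  have hne : ∀ a, a ≠ 0 → ψ a ≠ 0 := fun a ha h => ha ((injective_iff_map_eq_zero _).1 hinj a h)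
  have hinv : ∀ a, ψ' a ≠ 0 → (ψ a)⁻¹ ∈ QS ψ S := fun a ha =>
    inv_mem_QS ((hS a).2 ha) (fun h => ha (hle a h))
  have hψC : ∀ e, ψ (MvPolynomial.C e) = rsub hv1 e := fun e => evm_C _ _ e
  have hψX : ∀ j, ψ (MvPolynomial.X j) = y1 j := fun j => evm_X _ _ j
  have hψC' : ∀ e, ψ' (MvPolynomial.C e) = rsub hx' e := fun e => evm_C _ _ e
  have hψX' : ∀ j, ψ' (MvPolynomial.X j) = y' j := fun j => evm_X _ _ j
  have h1 : ∀ e, rsub hv1 e ∈ QS ψ S ∧ pq π (rsub hv1 e) = rsub hx' e := by
    intro e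
    rw [← hψC, ← hψC']
    exact ⟨map_mem_QS _, hpq _⟩
  have h2 : ∀ j, y1 j ∈ QS ψ S ∧ pq π (y1 j) = y' j := by
    intro j
    rw [← hψX, ← hψX']
    exact ⟨map_mem_QS _, hpq _⟩
  have h3 : ∀ j, (y1 j)⁻¹ ∈ QS ψ S := by
    intro j
    rw [← hψX]
    exact hinv _ (by rw [hψX']; exact hy' j)
  refine ⟨QS ψ S, π, h1, h2, ?_⟩
  intro T I _ M Y hY hPQ
  have huq : UQ M (QS ψ S) := hPQ.uq _ (fun e => (h1 e).1) fun j => ⟨(h2 j).1, h3 j⟩
  -- clearing denominators
  have hcl : ∀ t, ∀ a, ∃ e ∈ M.A t, e ≠ 0 ∧ e⁻¹ ∈ QS ψ S ∧ ψ a * e ∈ M.A t := by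
    intro t a
    induction a using MvPolynomial.induction_on with
    | C e =>
      obtain ⟨D, hD, hD1, hD2⟩ := hPQ.fr t e
      refine ⟨rsub hv1 D, hD1, (_root_.map_ne_zero _).2 hD, ?_, ?_⟩
      · rw [← map_inv₀]
        exact (h1 _).1
      · rw [hψC, ← map_mul, mul_comm]
        exact hD2
    | add a b ha hb =>
      obtain ⟨e, he, he0, hei, hea⟩ := ha
      obtain ⟨e', he', he0', hei', heb⟩ := hb
      refine ⟨e * e', (M.A t).mul_mem he he', mul_ne_zero he0 he0', ?_, ?_⟩
      · rw [mul_inv]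
        exact Subalgebra.mul_mem _ hei hei'
      · have h4 : ψ (a + b) * (e * e') = (ψ a * e) * e' + (ψ b * e') * e := by
          rw [map_add]; ring
        rw [h4]
        exact (M.A t).add_mem ((M.A t).mul_mem hea he') ((M.A t).mul_mem heb he)
    | mul_X a j ha =>
      obtain ⟨e, he, he0, hei, hea⟩ := ha
      obtain ⟨w, w0, wA, wi, hw⟩ := hY j t
      have hx0 := M.x0 t
      have hxA := M.xA t
      refine ⟨e * ∏ i, M.x t i ^ |Y j i|, (M.A t).mul_mem he ((M.A t).prod_mem fun i _ =>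
        zpow_mem_of (hxA i) (Or.inl (abs_nonneg _))), mul_ne_zero he0
          (Finset.prod_ne_zero_iff.2 fun i _ => zpow_ne_zero _ (hx0 i)), ?_, ?_⟩
      · rw [mul_inv, ← Finset.prod_inv_distrib]
        refine Subalgebra.mul_mem _ hei (Subalgebra.prod_mem _ fun i _ => ?_)
        rw [← zpow_neg]
        exact zpow_mem_of (huq.1 t (hxA i)) (Or.inr (huq.2 t i))
      · have h4 : ψ (a * MvPolynomial.X j) * (e * ∏ i, M.x t i ^ |Y j i|) =
            (ψ a * e) * (w * ∏ i, M.x t i ^ (Y j i + |Y j i|)) := by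
          have h5 : ∏ i, M.x t i ^ (Y j i + |Y j i|) =
              (∏ i, M.x t i ^ Y j i) * ∏ i, M.x t i ^ |Y j i| := by
            rw [← Finset.prod_mul_distrib]
            exact Finset.prod_congr rfl fun i _ => zpow_add₀ (hx0 i) _ _
          rw [map_mul, hψX, h5, hw]
          ring
        rw [h4]
        refine (M.A t).mul_mem hea ((M.A t).mul_mem wA ((M.A t).prod_mem fun i _ =>
          zpow_mem_of (hxA i) (Or.inl ?_)))
        have := neg_abs_le (Y j i)
        omega
  refine ⟨huq, ?_, ?_, ?_, dn⟩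
  · rintro t s ⟨a, b, hb, hb0, hab⟩
    obtain ⟨e, he, he0, hei, hea⟩ := hcl t a
    obtain ⟨e', he', he0', hei', heb⟩ := hcl t b
    refine ⟨(ψ b * e') * e, (M.A t).mul_mem heb he, mul_ne_zero (mul_ne_zero hb0 he0') he0, ?_, ?_⟩
    · rw [mul_inv, mul_inv]
      exact Subalgebra.mul_mem _ (Subalgebra.mul_mem _ (inv_mem_QS hb hb0) hei') hei
    · have h4 : s * (ψ b * e' * e) = (ψ a * e) * e' := by
        rw [← hab]; ring
      rw [h4]
      exact (M.A t).mul_mem hea he'
  · intro x
    obtain ⟨a, b, hb, hab⟩ := hgen x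
    -- polynomials over `k` as polynomials over the field `RF k J1`
    have h4 : ∀ a : MvPolynomial (J1 ⊕ Fin r) k, ∃ a' : MvPolynomial (Fin r) (RF k J1),
        ψ' a' = MvPolynomial.aeval (Sum.elim x' y') a := by
      intro a
      refine ⟨MvPolynomial.aeval (Sum.elim (fun q => MvPolynomial.C (algebraMap
        (MvPolynomial J1 k) (RF k J1) (MvPolynomial.X q))) MvPolynomial.X) a, ?_⟩
      rw [← AlgHom.comp_apply, MvPolynomial.comp_aeval]
      congr 2
      funext q
      rcases q with q | q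
      · simp only [Sum.elim_inl]
        rw [hψC', rsub_X]
      · simp only [Sum.elim_inr]
        rw [hψX']
    obtain ⟨a', ha'⟩ := h4 a
    obtain ⟨b', hb'⟩ := h4 b
    refine ⟨⟨ψ a', map_mem_QS a'⟩, ⟨ψ b', map_mem_QS b'⟩, ?_, ?_⟩
    · rw [hmap, hb']
      exact hb
    · rw [hmap, hmap, ha', hb']
      exact hab
  · intro b
    refine up_of_rat hs ?_ b
    simp only [Fintype.card_sum, Fintype.card_fin]
    omega

end amb

end Pool.Agent.TH214.V
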