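import Pool.Agent.W973.CUT2

/-! Smooth quotients of smooth algebras by several equations. -/

set_option autoImplicit false
set_option linter.unusedVariables false
set_option linter.unusedSectionVars false

universe u

open Pool.Agent.W558

namespace Pool.Agent.TH214.V

section smooth

variable {k A : Type u} [Field k] [CommRing A] [Algebra k A] {σ : Type} [Fintype σ]
  [DecidableEq σ]

lemma mem_span_range_iff {γ : σ → A} {a : A} :
    a ∈ Ideal.span (Set.range γ) ↔ ∃ c : σ → A, a = ∑ j, c j * γ j := by
  rw [Ideal.span, Submodule.mem_span_range_iff_exists_fun]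
  constructor
  · rintro ⟨c, h⟩
    exact ⟨c, h.symm⟩
  · rintro ⟨c, h⟩
    exact ⟨c, h.symm⟩

/-- If there are derivations dual to the equations modulo the ideal then the quotient is
formally smooth. -/
theorem formallySmooth_quot_of_ders [Algebra.FormallySmooth k A] (γ : σ → A)
    (δ : σ → Derivation k A A)
    (hδ : ∀ i j, δ i (γ j) - (if i = j then 1 else 0) ∈ Ideal.span (Set.range γ)) :
    Algebra.FormallySmooth k (A ⧸ Ideal.span (Set.range γ)) := by
  let I : Ideal A := Ideal.span (Set.range γ)
  let π : A →ₐ[k] A ⧸ I := Ideal.Quotient.mkₐ k I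
  have hker : RingHom.ker π.toRingHom = I := Ideal.mk_ker
  let q : A →ₐ[k] A ⧸ RingHom.ker π.toRingHom ^ 2 := Ideal.Quotient.mkₐ k _
  have hγI : ∀ j, γ j ∈ RingHom.ker π.toRingHom := by
    intro j
    rw [hker]; exact Ideal.subset_span ⟨j, rfl⟩
  have hII : ∀ a b, a ∈ RingHom.ker π.toRingHom → b ∈ RingHom.ker π.toRingHom →
      q (a * b) = 0 := by
    intro a b ha hb
    apply Ideal.Quotient.eq_zero_iff_mem.2
    rw [pow_two]
    exact Ideal.mul_mem_mul ha hb
  let E : A → A := fun a => ∑ i, γ i * δ i a
  have hE : ∀ a, E a ∈ RingHom.ker π.toRingHom := fun a =>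
    Ideal.sum_mem _ fun i _ => Ideal.mul_mem_right _ _ (hγI i)
  let h : A →ₐ[k] A ⧸ RingHom.ker π.toRingHom ^ 2 :=
    { toFun := fun a => q (a - E a)
      map_one' := by
        have : E 1 = 0 := Finset.sum_eq_zero fun i _ => by
          rw [Derivation.map_one_eq_zero, mul_zero]
        rw [this, sub_zero, map_one]
      map_zero' := by
        have : E 0 = 0 := Finset.sum_eq_zero fun i _ => by rw [map_zero, mul_zero]
        rw [this, sub_zero, map_zero]
      map_add' := by
        intro a b
        have : E (a + b) = E a + E b := by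
          change ∑ i, γ i * δ i (a + b) = ∑ i, γ i * δ i a + ∑ i, γ i * δ i b
          rw [← Finset.sum_add_distrib]
          exact Finset.sum_congr rfl fun i _ => by rw [map_add]; ring
        rw [← map_add, this]; congr 1; ring
      map_mul' := by
        intro a b
        have h0 : E (a * b) = a * E b + b * E a := by
          change ∑ i, γ i * δ i (a * b) = a * ∑ i, γ i * δ i b + b * ∑ i, γ i * δ i a
          rw [Finset.mul_sum, Finset.mul_sum, ← Finset.sum_add_distrib]
          exact Finset.sum_congr rfl fun i _ => by
            rw [Derivation.leibniz]; simp only [smul_eq_mul]; ring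
        rw [← map_mul, h0]
        have h1 : (a - E a) * (b - E b) = (a * b - (a * E b + b * E a)) + E a * E b := by ring
        rw [h1, map_add, hII _ _ (hE a) (hE b), add_zero]
      commutes' := by
        intro r
        have : E (algebraMap k A r) = 0 := Finset.sum_eq_zero fun i _ => by
          rw [Derivation.map_algebraMap, mul_zero]
        rw [this, sub_zero]
        rfl }
  have hhγ : ∀ j, h (γ j) = 0 := by
    intro j
    change q (γ j - ∑ i, γ i * δ i (γ j)) = 0
    have h1 : γ j - ∑ i, γ i * δ i (γ j) =
        ∑ i, γ i * -(δ i (γ j) - if i = j then 1 else 0) := by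
      have h2 : γ j = ∑ i, γ i * (if i = j then 1 else 0) := by simp
      nth_rw 1 [h2]
      rw [← Finset.sum_sub_distrib]
      exact Finset.sum_congr rfl fun i _ => by ring
    rw [h1, map_sum]
    refine Finset.sum_eq_zero fun i _ => hII _ _ (hγI i) ?_
    rw [hker]
    exact Ideal.neg_mem_iff _ |>.2 (hδ i j)
  let g : (A ⧸ I) →ₐ[k] A ⧸ RingHom.ker π.toRingHom ^ 2 :=
    Ideal.Quotient.liftₐ I h (by
      intro a ha
      obtain ⟨c, rfl⟩ := mem_span_range_iff.1 ha
      rw [map_sum]
      refine Finset.sum_eq_zero fun j _ => ?_
      rw [map_mul, hhγ, mul_zero])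
  refine Algebra.FormallySmooth.of_split π g ?_
  apply AlgHom.ext
  intro x
  obtain ⟨a, rfl⟩ := Ideal.Quotient.mk_surjective x
  change π.kerSquareLift (h a) = _
  change π.kerSquareLift (q (a - E a)) = _
  change π (a - E a) = π a
  rw [map_sub, sub_eq_self]
  exact hE a

/-- The Jacobian criterion. -/
theorem smooth_quot_multi [Algebra.Smooth k A] (γ : σ → A)
    (hf : ∀ (κ : Type u) [Field κ] [Algebra k κ] (φ : A →ₐ[k] κ), (∀ j, φ (γ j) = 0) →
      ∃ D : σ → TV φ, ∀ i j, (D i).D (γ j) = if i = j then 1 else 0) :
    Algebra.Smooth k (A ⧸ Ideal.span (Set.range γ)) := by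
  classical
  have hproj : Module.Projective A (Ω[A⁄k]) := inferInstance
  obtain ⟨s, hs⟩ := Module.projective_def.1 hproj
  let ω : σ → Ω[A⁄k] := fun j => KaehlerDifferential.D k A (γ j)
  let I : Ideal A := Ideal.span (Set.range γ)
  let ev : (Ω[A⁄k] →ₗ[A] A) →ₗ[A] (σ → A) :=
    LinearMap.pi fun j => LinearMap.applyₗ (ω j)
  have hev : ∀ l j, ev l j = l (ω j) := fun l j => rfl
  let N : Submodule A (σ → A) := LinearMap.range ev ⊔ I • ⊤
  have hN : N = ⊤ := by
    by_contra hne
    have hA : Module.annihilator A ((σ → A) ⧸ N) ≠ ⊤ := by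
      intro h
      rw [Module.annihilator_eq_top_iff, Submodule.Quotient.subsingleton_iff] at h
      exact hne h
    obtain ⟨m, hm, hle⟩ := Ideal.exists_le_maximal _ hA
    have hfg : (⊤ : Submodule A ((σ → A) ⧸ N)).FG := Module.Finite.fg_top
    have hmM : (⊤ : Submodule A ((σ → A) ⧸ N)) ≤ m • ⊤ := by
      -- the standard vectors
      have key : ∀ i, (Pi.single i 1 : σ → A) ∈ LinearMap.range ev ⊔ m • ⊤ ∨ ¬ I ≤ m := by
        intro i
        by_cases hI : I ≤ m
        · left
          let _ : Field (A ⧸ m) := Ideal.Quotient.field m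
          let φ : A →ₐ[k] A ⧸ m := Ideal.Quotient.mkₐ k m
          obtain ⟨D, hD⟩ := hf (A ⧸ m) φ (fun j => Ideal.Quotient.eq_zero_iff_mem.2
            (hI (Ideal.subset_span ⟨j, rfl⟩)))
          let D' : Derivation k A (A ⧸ m) :=
            { toFun := (D i).D
              map_add' := (D i).D.map_add
              map_smul' := (D i).D.map_smul
              map_one_eq_zero' := (D i).D_one
              leibniz' := by
                intro a b
                change (D i).D (a * b) = a • (D i).D b + b • (D i).D a
                rw [(D i).leib]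
                rfl }
          have hlift : ∀ ξ : Ω[A⁄k], ∃ a : A, φ a = D'.liftKaehlerDifferential ξ := fun ξ =>
            Ideal.Quotient.mk_surjective _
          choose α hα using hlift
          let F : Finset (Ω[A⁄k]) := Finset.univ.biUnion fun j => (s (ω j)).support
          let l : Ω[A⁄k] →ₗ[A] A := ∑ ξ ∈ F, α ξ • ((Finsupp.lapply ξ) ∘ₗ s)
          have hl : ∀ j, φ (l (ω j)) = if i = j then 1 else 0 := by
            intro j
            have h1 : (D i).D (γ j) = D'.liftKaehlerDifferential (ω j) :=
              (D'.liftKaehlerDifferential_comp_D (γ j)).symm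
            rw [← hD i j, h1]
            have h2 : l (ω j) = ∑ ξ ∈ F, α ξ * s (ω j) ξ := by
              change (∑ ξ ∈ F, α ξ • ((Finsupp.lapply ξ) ∘ₗ s)) (ω j) = _
              rw [LinearMap.sum_apply]
              rfl
            rw [h2, map_sum]
            conv_rhs => rw [← hs (ω j), Finsupp.linearCombination_apply, Finsupp.sum, map_sum]
            have h3 : ∑ ξ ∈ (s (ω j)).support, D'.liftKaehlerDifferential (s (ω j) ξ • id ξ) =
                ∑ ξ ∈ F, D'.liftKaehlerDifferential (s (ω j) ξ • id ξ) := by
              refine Finset.sum_subset (Finset.subset_biUnion_of_mem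
                (fun j => (s (ω j)).support) (Finset.mem_univ j)) ?_
              intro ξ _ hξ
              rw [Finsupp.notMem_support_iff.1 hξ, zero_smul, map_zero]
            rw [h3]
            refine Finset.sum_congr rfl fun ξ _ => ?_
            rw [map_mul, hα, map_smul]
            change _ = φ (s (ω j) ξ) * _
            rw [mul_comm]
            rfl
          rw [Submodule.mem_sup]
          refine ⟨ev l, ⟨l, rfl⟩, Pi.single i 1 - ev l, ?_, by abel⟩
          have h4 : ∀ v : σ → A, (∀ j, v j ∈ m) → v ∈ m • (⊤ : Submodule A (σ → A)) := by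
            intro v hv
            have h5 : v = ∑ j, v j • (Pi.single j 1 : σ → A) := by
              funext j'
              simp [Finset.sum_apply, Pi.single_apply]
            rw [h5]
            exact Submodule.sum_mem _ fun j _ => Submodule.smul_mem_smul (hv j) trivial
          apply h4
          intro j
          have h6 : φ ((Pi.single i 1 - ev l : σ → A) j) = 0 := by
            rw [Pi.sub_apply, hev, map_sub, hl, Pi.single_apply]
            by_cases hij : j = i
            · rw [if_pos hij, if_pos hij.symm, map_one, sub_self]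
            · rw [if_neg hij, if_neg (Ne.symm hij), map_zero, sub_self]
          exact Ideal.Quotient.eq_zero_iff_mem.1 h6
        · exact Or.inr hI
      have htop : (⊤ : Submodule A (σ → A)) ≤ N ⊔ m • ⊤ := by
        by_cases hI : I ≤ m
        · intro v _
          have h5 : v = ∑ j, v j • (Pi.single j 1 : σ → A) := by
            funext j'
            simp [Finset.sum_apply, Pi.single_apply]
          rw [h5]
          refine Submodule.sum_mem _ fun j _ => Submodule.smul_mem _ _ ?_
          have h6 := (key j).resolve_right (not_not.2 hI)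
          exact (sup_le_sup_right (le_sup_left : LinearMap.range ev ≤ N) _) h6
        · have h7 : I ⊔ m = ⊤ := by
            rw [sup_comm]
            by_contra hne'
            have h9 : m = m ⊔ I := hm.eq_of_le hne' le_sup_left
            apply hI
            rw [h9]
            exact le_sup_right
          have h8 : (⊤ : Submodule A (σ → A)) = I • ⊤ ⊔ m • ⊤ := by
            rw [← Submodule.sup_smul, h7, Submodule.top_smul]
          refine h8.le.trans ?_
          exact sup_le_sup_right (show I • (⊤ : Submodule A (σ → A)) ≤ N from le_sup_right) _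
      intro x _
      obtain ⟨v, rfl⟩ := Submodule.mkQ_surjective N x
      have h1 := htop (show v ∈ ⊤ from trivial)
      have h2 : Submodule.map N.mkQ (N ⊔ m • ⊤) ≤ m • ⊤ := by
        rw [Submodule.map_sup, Submodule.mkQ_map_self, bot_sup_eq, Submodule.map_smul'']
        exact Submodule.smul_mono le_rfl le_top
      exact h2 (Submodule.mem_map_of_mem h1)
    obtain ⟨r, hr, hr'⟩ :=
      Submodule.exists_sub_one_mem_and_smul_eq_zero_of_fg_of_le_smul m ⊤ hfg hmM
    have h3 : r ∈ m := hle (Module.mem_annihilator.2 fun x => hr' x trivial)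
    have h4 : (1 : A) ∈ m := by
      have := m.sub_mem h3 hr
      simpa using this
    exact hm.ne_top ((Ideal.eq_top_iff_one _).2 h4)
  -- the dual functionals modulo `I`
  have hdual : ∀ i, ∃ l : Ω[A⁄k] →ₗ[A] A, ∀ j, l (ω j) - (if i = j then 1 else 0) ∈ I := by
    intro i
    have h1 : (Pi.single i 1 : σ → A) ∈ N := by rw [hN]; trivial
    obtain ⟨_, ⟨l, rfl⟩, b, hb, hab⟩ := Submodule.mem_sup.1 h1
    refine ⟨l, fun j => ?_⟩
    have h2 : b j ∈ I := by
      have : ∀ b ∈ I • (⊤ : Submodule A (σ → A)), b j ∈ I := by
        intro b hb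
        refine Submodule.smul_induction_on hb ?_ ?_
        · intro r hr n _
          exact I.mul_mem_right _ hr
        · intro x y hx hy
          exact I.add_mem hx hy
      exact this b hb
    have h3 := congrFun hab j
    rw [Pi.add_apply, hev, Pi.single_apply] at h3
    have h4 : l (ω j) - (if i = j then 1 else 0) = -b j := by
      have h5 : (if i = j then (1 : A) else 0) = if j = i then 1 else 0 := by
        simp only [eq_comm]
      rw [h5, ← h3]
      ring
    rw [h4]
    exact I.neg_mem h2
  choose l hl using hdual
  have hfs : Algebra.FormallySmooth k (A ⧸ Ideal.span (Set.range γ)) :=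
    formallySmooth_quot_of_ders γ (fun i => (l i).compDer (KaehlerDifferential.D k A)) hl
  have hfp : Algebra.FinitePresentation k (A ⧸ Ideal.span (Set.range γ)) :=
    Algebra.FinitePresentation.quotient (Submodule.fg_span (Set.finite_range γ))
  exact ⟨hfs, hfp⟩

end smooth

end Pool.Agent.TH214.V
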