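import Pool.Agent.TH214.V.Core1

/-! The local form of a component of a complete intersection in a smooth variety. -/

set_option autoImplicit false
set_option linter.unusedVariables false
set_option linter.unusedSectionVars false

universe u

open Pool.Agent.W558

namespace Pool.Agent.TH214.V

section tv

variable {k A : Type u} [Field k] [CommRing A] [Algebra k A]

/-- The tangent vector of a derivation. -/
noncomputable def tvDer {κ : Type u} [Field κ] [Algebra k κ] (φ : A →ₐ[k] κ)
    (δ : Derivation k A A) : TV φ where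
  D := φ.toLinearMap ∘ₗ δ.toLinearMap
  leib := by
    intro a b
    change φ (δ (a * b)) = φ a * φ (δ b) + φ b * φ (δ a)
    rw [Derivation.leibniz, map_add]
    simp only [smul_eq_mul, map_mul]

lemma tvDer_D {κ : Type u} [Field κ] [Algebra k κ] (φ : A →ₐ[k] κ) (δ : Derivation k A A) (a : A) :
    (tvDer φ δ).D a = φ (δ a) := rfl

/-- Extension of tangent vectors to localizations. -/
lemma tv_away {κ : Type u} [Field κ] [Algebra k κ] (Δ : A) {R : Type u} [CommRing R] [Algebra k R]
    [Algebra A R] [IsScalarTower k A R] [IsLocalization.Away Δ R] (φ : R →ₐ[k] κ)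
    (D : TV (φ.comp (IsScalarTower.toAlgHom k A R))) :
    ∃ E : TV φ, ∀ a, E.D (algebraMap A R a) = D.D a := by
  have hu : ∀ y : Submonoid.powers Δ, IsUnit ((D.dual : A →ₐ[k] TrivSqZeroExt κ κ) y) := by
    intro y
    rw [TrivSqZeroExt.isUnit_iff_isUnit_fst, TV.dual_fst]
    change IsUnit (φ (algebraMap A R y))
    exact (IsLocalization.map_units R y).map φ
  let ψ : R →ₐ[k] TrivSqZeroExt κ κ := IsLocalization.liftAlgHom (M := Submonoid.powers Δ)
    (f := D.dual) hu
  have hψ : ∀ a, ψ (algebraMap A R a) = D.dual a := by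
    intro a
    exact IsLocalization.lift_eq (M := Submonoid.powers Δ) hu a
  have hfst : ∀ x, (ψ x).fst = φ x := by
    have h1 : ((TrivSqZeroExt.fstHom k κ κ).comp ψ) = φ := by
      apply IsLocalization.algHom_ext (Submonoid.powers Δ)
      ext a
      change (ψ (algebraMap A R a)).fst = _
      rw [hψ, TV.dual_fst]
      rfl
    intro x
    exact congrArg (fun f : R →ₐ[k] κ => f x) h1
  refine ⟨TV.ofDual φ ψ hfst, fun a => ?_⟩
  rw [TV.ofDual_D, hψ, TV.dual_snd]

/-- Dual derivations near the point. -/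
theorem exists_ders [Algebra.Smooth k A] {κ : Type u} [Field κ] [Algebra k κ] (φ : A →ₐ[k] κ)
    {c : ℕ} (γ : Fin c → A) (D : Fin c → TV φ)
    (hD : ∀ i j, (D i).D (γ j) = if i = j then 1 else 0) :
    ∃ (Δ : A) (δ : Fin c → Derivation k A A), φ Δ ≠ 0 ∧
      ∀ i j, δ i (γ j) = if i = j then Δ else 0 := by
  classical
  have hproj : Module.Projective A (Ω[A⁄k]) := inferInstance
  obtain ⟨s, hs⟩ := Module.projective_def.1 hproj
  let ω : Fin c → Ω[A⁄k] := fun j => KaehlerDifferential.D k A (γ j)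
  let _ : Algebra A κ := φ.toRingHom.toAlgebra
  have tk : IsScalarTower k A κ := IsScalarTower.of_algebraMap_eq fun x => (φ.commutes x).symm
  let D' : Fin c → Derivation k A κ := fun i =>
    { toFun := (D i).D
      map_add' := (D i).D.map_add
      map_smul' := (D i).D.map_smul
      map_one_eq_zero' := (D i).D_one
      leibniz' := by
        intro a b
        change (D i).D (a * b) = a • (D i).D b + b • (D i).D a
        rw [(D i).leib]
        rfl }
  let v : Ω[A⁄k] → (Fin c → κ) := fun ξ j => φ (s (ω j) ξ)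
  have hspan : Submodule.span κ (Set.range v) = ⊤ := by
    rw [eq_top_iff]
    intro x _
    have hx : x = ∑ i, x i • (Pi.single i 1 : Fin c → κ) := by
      funext j
      simp [Finset.sum_apply, Pi.single_apply]
    rw [hx]
    refine Submodule.sum_mem _ fun i _ => Submodule.smul_mem _ _ ?_
    let F : Finset (Ω[A⁄k]) := Finset.univ.biUnion fun j => (s (ω j)).support
    have h1 : (Pi.single i 1 : Fin c → κ) =
        ∑ ξ ∈ F, (D' i).liftKaehlerDifferential ξ • v ξ := by
      funext j
      have h2 : (D i).D (γ j) = (D' i).liftKaehlerDifferential (ω j) :=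
        ((D' i).liftKaehlerDifferential_comp_D (γ j)).symm
      have h0 : (Pi.single i 1 : Fin c → κ) j = (D i).D (γ j) := by
        rw [hD, Pi.single_apply]
        simp only [eq_comm]
      rw [h0, h2]
      conv_lhs => rw [← hs (ω j), Finsupp.linearCombination_apply, Finsupp.sum, map_sum]
      have h3 : ∑ ξ ∈ (s (ω j)).support, (D' i).liftKaehlerDifferential (s (ω j) ξ • id ξ) =
          ∑ ξ ∈ F, (D' i).liftKaehlerDifferential (s (ω j) ξ • id ξ) := by
        refine Finset.sum_subset (Finset.subset_biUnion_of_mem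
          (fun j => (s (ω j)).support) (Finset.mem_univ j)) ?_
        intro ξ _ hξ
        rw [Finsupp.notMem_support_iff.1 hξ, zero_smul, map_zero]
      rw [h3, Finset.sum_apply]
      refine Finset.sum_congr rfl fun ξ _ => ?_
      rw [map_smul, Pi.smul_apply, smul_eq_mul]
      change φ (s (ω j) ξ) * _ = _ * φ (s (ω j) ξ)
      rw [mul_comm]
      rfl
    rw [h1]
    exact Submodule.sum_mem _ fun ξ _ => Submodule.smul_mem _ _ (Submodule.subset_span ⟨ξ, rfl⟩)
  obtain ⟨b, hb1, hb2, hb3⟩ := exists_linearIndependent κ (Set.range v)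
  let B : Module.Basis b κ (Fin c → κ) := Module.Basis.mk hb3 (by
    rw [Subtype.range_coe, hb2, hspan])
  let e : b ≃ Fin c := B.indexEquiv (Pi.basisFun κ (Fin c))
  have hξ : ∀ a : Fin c, ∃ ξ, v ξ = (e.symm a : Fin c → κ) := fun a => hb1 (e.symm a).2
  choose ξ hξ using hξ
  let MA : Matrix (Fin c) (Fin c) A := fun a j => s (ω j) (ξ a)
  have hM : (φ : A →+* κ).mapMatrix MA = fun a => (e.symm a : Fin c → κ) := by
    funext a
    rw [← hξ]
    rfl
  have hli : LinearIndependent κ (fun a => (e.symm a : Fin c → κ)) := by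
    exact hb3.comp _ e.symm.injective
  have hdet : φ MA.det ≠ 0 := by
    have h1 : IsUnit ((φ : A →+* κ).mapMatrix MA) := by
      rw [hM]
      exact Matrix.linearIndependent_rows_iff_isUnit.1 hli
    rw [Matrix.isUnit_iff_isUnit_det, ← RingHom.map_det] at h1
    exact h1.ne_zero
  refine ⟨MA.det, fun i => ∑ a, MA.adjugate i a •
    ((Finsupp.lapply (ξ a)) ∘ₗ s).compDer (KaehlerDifferential.D k A), hdet, fun i j => ?_⟩
  have h1 : (∑ a, MA.adjugate i a •
      ((Finsupp.lapply (ξ a)) ∘ₗ s).compDer (KaehlerDifferential.D k A)) (γ j) =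
      (MA.adjugate * MA) i j := by
    rw [Matrix.mul_apply]
    have h2 : ∀ (S : Finset (Fin c)) (d : Fin c → Derivation k A A),
        (∑ a ∈ S, d a) (γ j) = ∑ a ∈ S, d a (γ j) := by
      intro S d
      have h3 := congrFun (map_sum (Derivation.coeFnAddMonoidHom (R := k) (A := A) (M := A)) d S)
        (γ j)
      rw [Finset.sum_apply] at h3
      exact h3
    rw [h2]
    rfl
  rw [h1, Matrix.adjugate_mul, Matrix.smul_apply, Matrix.one_apply, smul_eq_mul]
  split_ifs
  · rw [mul_one]
  · rw [mul_zero]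

end tv

section dom

variable {k : Type u} [Field k]

/-- The local rings of a smooth algebra are domains. -/
lemma loc_dom (hloc : S2_loc.{u}) {R κ : Type u} [CommRing R] [Algebra k R] [Algebra.Smooth k R]
    [Field κ] [Algebra k κ] (φ : R →ₐ[k] κ) {a b : R} (h : a * b = 0) :
    ∃ e, φ e ≠ 0 ∧ (e * a = 0 ∨ e * b = 0) := by
  have hp : (RingHom.ker φ).IsPrime := RingHom.ker_isPrime _
  obtain ⟨P, hP, hPle⟩ := Ideal.exists_minimalPrimes_le (I := (⊥ : Ideal R)) (J := RingHom.ker φ)
    bot_le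
  obtain ⟨e, he, hk⟩ := hloc k R P (RingHom.ker φ) hP hp hPle
  have hPp : P.IsPrime := hP.1.1
  refine ⟨e, fun h0 => he h0, ?_⟩
  have h1 : a * b ∈ P := by rw [h]; exact P.zero_mem
  rcases hPp.mem_or_mem h1 with h2 | h2
  · exact Or.inl (hk a h2)
  · exact Or.inr (hk b h2)

variable {A κ : Type u} [CommRing A] [Algebra k A] [Field κ] [Algebra k κ] (φ : A →ₐ[k] κ)

/-- The elements which belong to `J` near the point `φ`. -/
def Pc (J : Ideal A) : Ideal A where
  carrier := {a | ∃ e, φ e ≠ 0 ∧ e * a ∈ J}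
  zero_mem' := ⟨1, by rw [map_one]; exact one_ne_zero, by rw [mul_zero]; exact J.zero_mem⟩
  add_mem' := by
    rintro a b ⟨e, he, h⟩ ⟨e', he', h'⟩
    refine ⟨e * e', by rw [map_mul]; exact mul_ne_zero he he', ?_⟩
    have : e * e' * (a + b) = e' * (e * a) + e * (e' * b) := by ring
    rw [this]
    exact J.add_mem (J.mul_mem_left _ h) (J.mul_mem_left _ h')
  smul_mem' := by
    rintro c a ⟨e, he, h⟩
    refine ⟨e, he, ?_⟩
    have : e * (c • a) = c * (e * a) := by rw [smul_eq_mul]; ring
    rw [this]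
    exact J.mul_mem_left _ h

lemma mem_Pc {J : Ideal A} {a : A} : a ∈ Pc φ J ↔ ∃ e, φ e ≠ 0 ∧ e * a ∈ J := Iff.rfl

lemma le_Pc (J : Ideal A) : J ≤ Pc φ J := fun a ha =>
  ⟨1, by rw [map_one]; exact one_ne_zero, by rwa [one_mul]⟩

/-- The ideal is prime near the point. -/
theorem Pc_prime (hloc : S2_loc.{u}) [Algebra.Smooth k A] {c : ℕ} (γ : Fin c → A)
    (hγ : ∀ j, φ (γ j) = 0) (D : Fin c → TV φ)
    (hD : ∀ i j, (D i).D (γ j) = if i = j then 1 else 0) :
    (Pc φ (Ideal.span (Set.range γ))).IsPrime := by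
  classical
  obtain ⟨Δ, δ, hΔ, hδ⟩ := exists_ders φ γ D hD
  let R0 := Localization.Away Δ
  have hs1 : Algebra.Smooth A R0 := Algebra.Smooth.of_isLocalization_Away Δ
  have hs0 : Algebra.Smooth k R0 := Algebra.Smooth.comp k A R0
  let γ' : Fin c → R0 := fun j => algebraMap A R0 (γ j)
  have hsm : Algebra.Smooth k (R0 ⧸ Ideal.span (Set.range γ')) := by
    refine smooth_quot_multi γ' fun κ' _ _ φ' hφ' => ?_
    have hΔ' : φ' (algebraMap A R0 Δ) ≠ 0 :=
      ((IsLocalization.Away.algebraMap_isUnit (S := R0) Δ).map φ').ne_zero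
    have h1 : ∀ i, ∃ E : TV φ', ∀ j, E.D (γ' j) = if i = j then 1 else 0 := by
      intro i
      obtain ⟨E, hE⟩ := tv_away Δ φ' (tvDer (φ'.comp (IsScalarTower.toAlgHom k A R0)) (δ i))
      refine ⟨TV.comb (φ' (algebraMap A R0 Δ))⁻¹ 0 E E, fun j => ?_⟩
      rw [TV.comb_D, zero_mul, add_zero, hE, tvDer_D, hδ]
      split_ifs with hij
      · change _ * φ' (algebraMap A R0 Δ) = 1
        exact inv_mul_cancel₀ hΔ'
      · rw [map_zero, mul_zero]
    choose E hE using h1
    exact ⟨E, hE⟩
  have hu : ∀ y : Submonoid.powers Δ, IsUnit (φ y) := by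
    rintro ⟨_, n, rfl⟩
    rw [map_pow]
    exact (IsUnit.mk0 _ hΔ).pow n
  let φ0 : R0 →ₐ[k] κ := IsLocalization.liftAlgHom (M := Submonoid.powers Δ) (f := φ) hu
  have hφ0 : ∀ a, φ0 (algebraMap A R0 a) = φ a := fun a =>
    IsLocalization.lift_eq (M := Submonoid.powers Δ) hu a
  let φ1 : (R0 ⧸ Ideal.span (Set.range γ')) →ₐ[k] κ :=
    Ideal.Quotient.liftₐ _ φ0 (by
      intro a ha
      obtain ⟨d, rfl⟩ := mem_span_range_iff.1 ha
      rw [map_sum]
      refine Finset.sum_eq_zero fun j _ => ?_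
      rw [map_mul]
      change _ * φ0 (algebraMap A R0 (γ j)) = 0
      rw [hφ0, hγ, mul_zero])
  have hφ1 : ∀ r, φ1 (Ideal.Quotient.mk _ r) = φ0 r := fun r => rfl
  have hmap : Ideal.span (Set.range γ') = (Ideal.span (Set.range γ)).map (algebraMap A R0) := by
    rw [Ideal.map_span, ← Set.range_comp]
    rfl
  have key : ∀ a : A, ∀ e' : R0 ⧸ Ideal.span (Set.range γ'), φ1 e' ≠ 0 →
      e' * Ideal.Quotient.mk _ (algebraMap A R0 a) = 0 → a ∈ Pc φ (Ideal.span (Set.range γ)) := by
    intro a e' he' h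
    obtain ⟨r, rfl⟩ := Ideal.Quotient.mk_surjective e'
    obtain ⟨⟨x, s⟩, hx⟩ := IsLocalization.surj (Submonoid.powers Δ) r
    rw [← map_mul, Ideal.Quotient.eq_zero_iff_mem] at h
    have h1 : algebraMap A R0 (x * a) ∈ (Ideal.span (Set.range γ)).map (algebraMap A R0) := by
      rw [← hmap, map_mul]
      have h2 : algebraMap A R0 x * algebraMap A R0 a =
          algebraMap A R0 s * (r * algebraMap A R0 a) := by
        rw [← hx]
        ring
      rw [h2]
      exact Ideal.mul_mem_left _ _ h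
    rw [IsLocalization.mem_map_algebraMap_iff (M := Submonoid.powers Δ)] at h1
    obtain ⟨⟨y, t⟩, hy⟩ := h1
    rw [← map_mul, IsLocalization.eq_iff_exists (Submonoid.powers Δ)] at hy
    obtain ⟨w, hw⟩ := hy
    refine ⟨w * t * x, ?_, ?_⟩
    · rw [map_mul, map_mul]
      refine mul_ne_zero (mul_ne_zero (hu w).ne_zero (hu t).ne_zero) ?_
      intro h0
      apply he'
      rw [hφ1]
      have h3 := congrArg φ0 hx
      rw [map_mul, hφ0, hφ0, h0] at h3
      exact (mul_eq_zero.1 h3).resolve_right (hu s).ne_zero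
    · have h4 : (w : A) * t * x * a = w * y := by
        rw [← hw]
        ring
      rw [h4]
      exact Ideal.mul_mem_left _ _ y.2
  have hker : ∀ a ∈ Ideal.span (Set.range γ), φ a = 0 := by
    intro a ha
    obtain ⟨d, rfl⟩ := mem_span_range_iff.1 ha
    rw [map_sum]
    exact Finset.sum_eq_zero fun j _ => by rw [map_mul, hγ, mul_zero]
  refine ⟨fun htop => ?_, fun {a b} hab => ?_⟩
  · obtain ⟨e, he, h⟩ := (Ideal.eq_top_iff_one _).1 htop
    apply he
    rw [mul_one] at h
    exact hker e h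
  · obtain ⟨e, he, h⟩ := hab
    have h1 : (Ideal.Quotient.mk (Ideal.span (Set.range γ')) (algebraMap A R0 (e * a))) *
        Ideal.Quotient.mk _ (algebraMap A R0 b) = 0 := by
      rw [← map_mul, ← map_mul, Ideal.Quotient.eq_zero_iff_mem, hmap, mul_assoc]
      exact Ideal.mem_map_of_mem _ h
    obtain ⟨e', he', h2⟩ := loc_dom hloc φ1 h1
    rcases h2 with h2 | h2
    · left
      obtain ⟨x, hx, h3⟩ := key _ e' he' h2
      refine ⟨x * e, by rw [map_mul]; exact mul_ne_zero hx he, ?_⟩
      rw [mul_assoc]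
      exact h3
    · exact Or.inr (key _ e' he' h2)

end dom

end Pool.Agent.TH214.V
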