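import Pool.Agent.TH214.V.Core2

/-! The local form of a component of a complete intersection in a smooth variety, continued. -/

set_option autoImplicit false
set_option linter.unusedVariables false
set_option linter.unusedSectionVars false

universe u

open Pool.Agent.W558

namespace Pool.Agent.TH214.V

section tr

variable {k A : Type u} [Field k] [CommRing A] [Algebra k A]

/-- The transcendence degree grows when the prime ideal becomes smaller. -/
lemma trd (q q' : Ideal A) [hq : q.IsPrime] (hle : q ≤ q') {f : A} (hf : f ∈ q') (hf' : f ∉ q)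
    {ι : Type} (b : ι → A)
    (hb : AlgebraicIndependent k fun i => Ideal.Quotient.mkₐ k q' (b i)) :
    AlgebraicIndependent k fun o : Option ι => Ideal.Quotient.mkₐ k q (o.elim f b) := by
  let π : (A ⧸ q) →ₐ[k] A ⧸ q' := Ideal.Quotient.factorₐ k hle
  have hπ : ∀ a, π (Ideal.Quotient.mkₐ k q a) = Ideal.Quotient.mkₐ k q' a := fun a => rfl
  have hb0 : AlgebraicIndependent k fun i => Ideal.Quotient.mkₐ k q (b i) :=
    AlgebraicIndependent.of_comp π hb
  have e : (fun o : Option ι => Ideal.Quotient.mkₐ k q (o.elim f b)) =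
      fun o : Option ι => o.elim (Ideal.Quotient.mkₐ k q f)
        (fun i => Ideal.Quotient.mkₐ k q (b i)) := by
    funext o
    cases o <;> rfl
  rw [e, hb0.option_iff_transcendental, transcendental_iff]
  intro P hP
  by_contra hP0
  obtain ⟨P', hP', hnd⟩ := Polynomial.exists_eq_pow_rootMultiplicity_mul_and_not_dvd P hP0 0
  rw [Polynomial.C_0, sub_zero] at hP' hnd
  have hf0 : Ideal.Quotient.mkₐ k q f ≠ 0 := fun h => hf' (Ideal.Quotient.eq_zero_iff_mem.1 h)
  have hP1 : Polynomial.aeval (Ideal.Quotient.mkₐ k q f) P' = 0 := by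
    rw [hP', map_mul, map_pow, Polynomial.aeval_X] at hP
    exact (mul_eq_zero.1 hP).resolve_left (pow_ne_zero _ hf0)
  have hc0 : P'.coeff 0 ≠ 0 := fun h => hnd (Polynomial.X_dvd_iff.2 h)
  -- the constant coefficient
  have h2 : (P'.coeff 0 : A ⧸ q) = - (Polynomial.aeval (Ideal.Quotient.mkₐ k q f) P'.divX *
      Ideal.Quotient.mkₐ k q f) := by
    have h3 := congrArg (Polynomial.aeval (Ideal.Quotient.mkₐ k q f)) P'.divX_mul_X_add
    rw [map_add, map_mul, Polynomial.aeval_X, Polynomial.aeval_C, hP1] at h3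
    exact eq_neg_of_add_eq_zero_right h3
  have h4 : π (P'.coeff 0 : A ⧸ q) = 0 := by
    rw [h2, map_neg, map_mul, hπ]
    have : Ideal.Quotient.mkₐ k q' f = 0 := Ideal.Quotient.eq_zero_iff_mem.2 hf
    rw [this, mul_zero, neg_zero]
  have h5 : (P'.coeff 0 : A ⧸ q) ∈ Algebra.adjoin k
      (Set.range fun i => Ideal.Quotient.mkₐ k q (b i)) := (P'.coeff 0).2
  obtain ⟨F, hF⟩ := (Algebra.adjoin_range_eq_range_aeval k _).le h5
  have h6 : MvPolynomial.aeval (fun i => Ideal.Quotient.mkₐ k q' (b i)) F = 0 := by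
    have h7 : π (MvPolynomial.aeval (fun i => Ideal.Quotient.mkₐ k q (b i)) F) = 0 := by
      have h8 : MvPolynomial.aeval (fun i => Ideal.Quotient.mkₐ k q (b i)) F =
          (P'.coeff 0 : A ⧸ q) := hF
      rw [h8]
      exact h4
    rw [← AlgHom.comp_apply, MvPolynomial.comp_aeval] at h7
    exact h7
  have h7 : F = 0 := (injective_iff_map_eq_zero _).1 hb F h6
  apply hc0
  apply Subtype.ext
  rw [← hF, h7, map_zero]
  rfl

lemma trd' (q q' : Ideal A) [hq : q.IsPrime] (hlt : q < q') {r : ℕ}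
    (h : ∃ b : Fin r → A, AlgebraicIndependent k fun i => Ideal.Quotient.mkₐ k q' (b i)) :
    ∃ b : Fin (r + 1) → A, AlgebraicIndependent k fun i => Ideal.Quotient.mkₐ k q (b i) := by
  obtain ⟨b, hb⟩ := h
  obtain ⟨f, hf, hf'⟩ := SetLike.exists_of_lt hlt
  have h1 := trd q q' hlt.le hf hf' b hb
  refine ⟨fun i => (finSuccEquiv r i).elim f b, ?_⟩
  exact h1.comp _ (finSuccEquiv r).injective

end tr

section core

variable {k A κ K0 : Type u} [Field k] [CommRing A] [Algebra k A] [Field κ] [Algebra k κ]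
  [Field K0] [Algebra k K0] (ψ : A →ₐ[k] K0) (φ : A →ₐ[k] κ)

/-- The kernel of `ψ` is given by the equations near the point. -/
theorem ker_eq_Pc (hloc : S2_loc.{u}) [Algebra.Smooth k A] [IsDomain A] {c d : ℕ}
    (H1 : ∀ b : Fin (c + d + 1) → A, ¬ AlgebraicIndependent k b)
    (H2 : ∃ b : Fin d → A, AlgebraicIndependent k fun i => ψ (b i))
    (hφ : ∀ a, ψ a = 0 → φ a = 0) (γ : Fin c → A) (hγ : ∀ j, ψ (γ j) = 0) (D : Fin c → TV φ)
    (hD : ∀ i j, (D i).D (γ j) = if i = j then 1 else 0) :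
    RingHom.ker ψ = Pc φ (Ideal.span (Set.range γ)) := by
  classical
  have hφγ : ∀ j, φ (γ j) = 0 := fun j => hφ _ (hγ j)
  let J : ∀ i : ℕ, i ≤ c → Ideal A := fun i hi =>
    Ideal.span (Set.range fun j : Fin i => γ (Fin.castLE hi j))
  have hJp : ∀ i (hi : i ≤ c), (Pc φ (J i hi)).IsPrime := by
    intro i hi
    refine Pc_prime φ hloc (fun j : Fin i => γ (Fin.castLE hi j)) (fun j => hφγ _)
      (fun j => D (Fin.castLE hi j)) fun a b => ?_
    rw [hD]
    simp only [Fin.castLE_inj]
  have hJψ : ∀ i (hi : i ≤ c), Pc φ (J i hi) ≤ RingHom.ker ψ := by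
    rintro i hi a ⟨e, he, h⟩
    obtain ⟨d, hd⟩ := mem_span_range_iff.1 h
    have h1 : ψ (e * a) = 0 := by
      rw [hd, map_sum]
      exact Finset.sum_eq_zero fun j _ => by rw [map_mul, hγ, mul_zero]
    rw [map_mul] at h1
    exact (mul_eq_zero.1 h1).resolve_left fun h2 => he (hφ e h2)
  by_contra hne
  have hlt : Pc φ (J c le_rfl) < RingHom.ker ψ := by
    refine lt_of_le_of_ne (hJψ c le_rfl) fun h => hne ?_
    rw [← h]
    rfl
  have hk : ∃ b : Fin d → A, AlgebraicIndependent k fun i =>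
      Ideal.Quotient.mkₐ k (RingHom.ker ψ) (b i) := by
    obtain ⟨b, hb⟩ := H2
    refine ⟨b, ?_⟩
    exact AlgebraicIndependent.of_comp (Ideal.Quotient.liftₐ (RingHom.ker ψ) ψ
      (fun a ha => ha)) hb
  -- the chain
  have hchain : ∀ r, ∀ hr : r ≤ c, ∃ b : Fin (d + 1 + r) → A, AlgebraicIndependent k fun i =>
      Ideal.Quotient.mkₐ k (Pc φ (J (c - r) (Nat.sub_le _ _))) (b i) := by
    intro r
    induction r with
    | zero =>
      intro _
      have := hJp c le_rfl
      exact trd' _ _ hlt hk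
    | succ r ih =>
      intro hr
      have h1 := ih (by omega)
      have h2 := hJp (c - (r + 1)) (Nat.sub_le _ _)
      refine trd' _ _ ?_ h1
      have hlt' : c - (r + 1) < c - r := by omega
      have hle : J (c - (r + 1)) (Nat.sub_le _ _) ≤ J (c - r) (Nat.sub_le _ _) := by
        apply Ideal.span_mono
        rintro _ ⟨j, rfl⟩
        exact ⟨Fin.castLE hlt'.le j, rfl⟩
      refine lt_of_le_of_ne ?_ ?_
      · rintro a ⟨e, he, h⟩
        exact ⟨e, he, hle h⟩
      · intro heq
        let j0 : Fin c := ⟨c - (r + 1), by omega⟩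
        have h3 : γ j0 ∈ Pc φ (J (c - r) (Nat.sub_le _ _)) := by
          apply le_Pc
          apply Ideal.subset_span
          exact ⟨⟨c - (r + 1), hlt'⟩, rfl⟩
        rw [← heq] at h3
        obtain ⟨e, he, h4⟩ := h3
        obtain ⟨dd, hdd⟩ := mem_span_range_iff.1 h4
        have h5 : (D j0).D (e * γ j0) = φ e := by
          rw [(D j0).leib, hD, if_pos rfl, mul_one, hφγ, zero_mul, add_zero]
        have h6 : (D j0).D (e * γ j0) = 0 := by
          rw [hdd, map_sum]
          refine Finset.sum_eq_zero fun j _ => ?_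
          rw [(D j0).leib, hD, hφγ, zero_mul, add_zero, if_neg, mul_zero]
          intro h7
          have h8 := congrArg Fin.val h7
          have h9 := j.2
          change c - (r + 1) = j.val at h8
          omega
        rw [h5] at h6
        exact he h6
  obtain ⟨b, hb⟩ := hchain c le_rfl
  have hbot : Pc φ (J (c - c) (Nat.sub_le _ _)) = ⊥ := by
    rw [eq_bot_iff]
    rintro a ⟨e, he, h⟩
    have h1 : e * a = 0 := by
      obtain ⟨dd, hdd⟩ := mem_span_range_iff.1 h
      rw [hdd]
      refine Finset.sum_eq_zero fun j _ => ?_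
      exact absurd j.2 (by omega)
    have h2 : e ≠ 0 := by
      rintro rfl
      exact he (map_zero φ)
    exact (mul_eq_zero.1 h1).resolve_left h2
  have h1 : AlgebraicIndependent k b := AlgebraicIndependent.of_comp
    (Ideal.Quotient.mkₐ k (Pc φ (J (c - c) (Nat.sub_le _ _)))) hb
  have h2 : c + d + 1 = d + 1 + c := by omega
  exact H1 (fun i => b (Fin.cast h2 i)) (h1.comp _ (Fin.cast_injective h2))

/-- Tangent vectors which kill the equations kill the kernel. -/
lemma tv_ker {c : ℕ} {γ : Fin c → A} (h : RingHom.ker ψ = Pc φ (Ideal.span (Set.range γ)))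
    (hφ : ∀ a, ψ a = 0 → φ a = 0) (hγ : ∀ j, ψ (γ j) = 0) (D : TV φ) (hD : ∀ j, D.D (γ j) = 0)
    {a : A} (ha : ψ a = 0) : D.D a = 0 := by
  have h1 : a ∈ RingHom.ker ψ := ha
  rw [h] at h1
  obtain ⟨e, he, h2⟩ := h1
  obtain ⟨d, hd⟩ := mem_span_range_iff.1 h2
  have h3 : D.D (e * a) = φ e * D.D a := by
    rw [D.leib, hφ a ha, zero_mul, add_zero]
  have h4 : D.D (e * a) = 0 := by
    rw [hd, map_sum]
    refine Finset.sum_eq_zero fun j _ => ?_
    rw [D.leib, hD, hφ _ (hγ j), zero_mul, mul_zero, add_zero]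
  rw [h3] at h4
  exact (mul_eq_zero.1 h4).resolve_left he

end core

end Pool.Agent.TH214.V
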