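import Pool.Agent.TH214.V.Core3

/-! Components of local complete intersections are smooth. -/

set_option autoImplicit false
set_option linter.unusedVariables false
set_option linter.unusedSectionVars false

universe u

open Pool.Agent.W558

namespace Pool.Agent.TH214.V

section

variable {k : Type u} [Field k]

lemma smooth_away {A : Type u} [CommRing A] [Algebra k A] [Algebra.Smooth k A] {c : ℕ}
    (γ : Fin c → A) (Δ : A) (δ : Fin c → Derivation k A A)
    (hδ : ∀ i j, δ i (γ j) = if i = j then Δ else 0) :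
    Algebra.Smooth k (Localization.Away Δ ⧸
      Ideal.span (Set.range fun j => algebraMap A (Localization.Away Δ) (γ j))) := by
  classical
  let R0 := Localization.Away Δ
  have hs1 : Algebra.Smooth A R0 := Algebra.Smooth.of_isLocalization_Away Δ
  have hs0 : Algebra.Smooth k R0 := Algebra.Smooth.comp k A R0
  let γ' : Fin c → R0 := fun j => algebraMap A R0 (γ j)
  refine smooth_quot_multi γ' fun κ' _ _ φ' hφ' => ?_
  have hΔ' : φ' (algebraMap A R0 Δ) ≠ 0 :=
    ((IsLocalization.Away.algebraMap_isUnit (S := R0) Δ).map φ').ne_zero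
  have h1 : ∀ i, ∃ E : TV φ', ∀ j, E.D (γ' j) = if i = j then 1 else 0 := by
    intro i
    obtain ⟨E, hE⟩ := tv_away Δ φ' (tvDer (φ'.comp (IsScalarTower.toAlgHom k A R0)) (δ i))
    refine ⟨TV.comb (φ' (algebraMap A R0 Δ))⁻¹ 0 E E, fun j => ?_⟩
    rw [TV.comb_D, zero_mul, add_zero, hE, tvDer_D, hδ]
    split_ifs with hij
    · change _ * φ' (algebraMap A R0 Δ) = 1
      exact inv_mul_cancel₀ hΔ'
    · rw [map_zero, mul_zero]
  choose E hE using h1
  exact ⟨E, hE⟩

/-- The image is smooth. -/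
theorem smooth_range (hloc : S2_loc.{u}) {A K0 : Type u} [CommRing A] [Algebra k A] [IsDomain A]
    [Algebra.Smooth k A] [Field K0] [Algebra k K0] (ψ : A →ₐ[k] K0) {c d : ℕ}
    (H1 : ∀ b : Fin (c + d + 1) → A, ¬ AlgebraicIndependent k b)
    (H2 : ∃ b : Fin d → A, AlgebraicIndependent k fun i => ψ (b i))
    (hpt : ∀ (κ : Type u) [Field κ] [Algebra k κ] (φ : A →ₐ[k] κ), (∀ a, ψ a = 0 → φ a = 0) →
      ∃ γ : Fin c → A, (∀ j, ψ (γ j) = 0) ∧ ∃ D : Fin c → TV φ,
        ∀ i j, (D i).D (γ j) = if i = j then 1 else 0) : Algebra.Smooth k ψ.range := by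
  classical
  have hft : Algebra.FiniteType k ψ.range :=
    Algebra.FiniteType.of_surjective ψ.rangeRestrict ψ.rangeRestrict_surjective
  have hfp : Algebra.FinitePresentation k ψ.range := Algebra.FinitePresentation.of_finiteType.1 hft
  refine ⟨?_, hfp⟩
  rw [← Algebra.smoothLocus_eq_univ_iff, Set.eq_univ_iff_forall]
  intro q
  let Bq := ψ.range ⧸ q.asIdeal
  let κ := FractionRing Bq
  let φ' : ψ.range →ₐ[k] κ :=
    (IsScalarTower.toAlgHom k Bq κ).comp (Ideal.Quotient.mkₐ k q.asIdeal)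
  have hφ'q : ∀ b : ψ.range, φ' b = 0 ↔ b ∈ q.asIdeal := by
    intro b
    change algebraMap Bq κ (Ideal.Quotient.mk q.asIdeal b) = 0 ↔ _
    rw [FaithfulSMul.algebraMap_eq_zero_iff, Ideal.Quotient.eq_zero_iff_mem]
  let φ : A →ₐ[k] κ := φ'.comp ψ.rangeRestrict
  have hφ : ∀ a, ψ a = 0 → φ a = 0 := by
    intro a ha
    have : ψ.rangeRestrict a = 0 := Subtype.ext ha
    change φ' (ψ.rangeRestrict a) = 0
    rw [this, map_zero]
  obtain ⟨γ, hγ, D, hD⟩ := hpt κ φ hφ
  have hker := ker_eq_Pc ψ φ hloc H1 H2 hφ γ hγ D hD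
  obtain ⟨Δ, δ, hΔ, hδ⟩ := exists_ders φ γ D hD
  have hψΔ : ψ Δ ≠ 0 := fun h => hΔ (hφ Δ h)
  let b0 : ψ.range := ψ.rangeRestrict Δ
  have hb0 : b0 ∉ q.asIdeal := fun h => hΔ ((hφ'q b0).2 h)
  have hsm := smooth_away γ Δ δ hδ
  let R0 := Localization.Away Δ
  let γ' : Fin c → R0 := fun j => algebraMap A R0 (γ j)
  let R1 := R0 ⧸ Ideal.span (Set.range γ')
  have hu : ∀ y : Submonoid.powers Δ, IsUnit (ψ y) := by
    rintro ⟨_, n, rfl⟩
    rw [map_pow]
    exact (IsUnit.mk0 _ hψΔ).pow n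
  let Ψ0 : R0 →ₐ[k] K0 := IsLocalization.liftAlgHom (M := Submonoid.powers Δ) (f := ψ) hu
  have hΨ0 : ∀ a, Ψ0 (algebraMap A R0 a) = ψ a := fun a =>
    IsLocalization.lift_eq (M := Submonoid.powers Δ) hu a
  let Ψ : R1 →ₐ[k] K0 :=
    Ideal.Quotient.liftₐ _ Ψ0 (by
      intro a ha
      obtain ⟨d, rfl⟩ := mem_span_range_iff.1 ha
      rw [map_sum]
      refine Finset.sum_eq_zero fun j _ => ?_
      rw [map_mul]
      change _ * Ψ0 (algebraMap A R0 (γ j)) = 0
      rw [hΨ0, hγ, mul_zero])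
  have hΨ : ∀ r, Ψ (Ideal.Quotient.mk _ r) = Ψ0 r := fun r => rfl
  have hΨa : ∀ a, Ψ (Ideal.Quotient.mk _ (algebraMap A R0 a)) = ψ a := fun a => hΨ0 a
  have hmap : Ideal.span (Set.range γ') = (Ideal.span (Set.range γ)).map (algebraMap A R0) := by
    rw [Ideal.map_span, ← Set.range_comp]
    rfl
  -- the kernel is a minimal prime
  have hmin : RingHom.ker Ψ ∈ minimalPrimes R1 := by
    refine ⟨⟨RingHom.ker_isPrime _, bot_le⟩, ?_⟩
    rintro p ⟨hp, -⟩ hle x hx
    obtain ⟨r, rfl⟩ := Ideal.Quotient.mk_surjective x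
    obtain ⟨⟨a, s⟩, ha⟩ := IsLocalization.surj (Submonoid.powers Δ) r
    have h1 : ψ a = 0 := by
      have h2 := congrArg Ψ0 ha
      rw [map_mul, hΨ0, hΨ0] at h2
      have h3 : Ψ0 r = 0 := hx
      rw [h3, zero_mul] at h2
      exact h2.symm
    have h2 : a ∈ RingHom.ker ψ := h1
    rw [hker] at h2
    obtain ⟨e, he, h3⟩ := h2
    have h4 : (Ideal.Quotient.mk (Ideal.span (Set.range γ')) (algebraMap A R0 e)) *
        Ideal.Quotient.mk _ r = 0 := by
      have h5 : IsUnit (algebraMap A R0 s) := IsLocalization.map_units R0 s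
      rw [← map_mul, Ideal.Quotient.eq_zero_iff_mem, hmap]
      have h6 : algebraMap A R0 e * r * algebraMap A R0 s ∈
          (Ideal.span (Set.range γ)).map (algebraMap A R0) := by
        rw [mul_assoc, ha, ← map_mul]
        exact Ideal.mem_map_of_mem _ h3
      exact (Ideal.mul_unit_mem_iff_mem _ h5).1 h6
    have h5 : Ideal.Quotient.mk (Ideal.span (Set.range γ')) (algebraMap A R0 e) *
        Ideal.Quotient.mk _ r ∈ p := by rw [h4]; exact p.zero_mem
    refine (hp.mem_or_mem h5).resolve_left fun h6 => ?_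
    have h7 : Ψ (Ideal.Quotient.mk _ (algebraMap A R0 e)) = 0 := hle h6
    rw [hΨa] at h7
    exact he (hφ e h7)
  have hsmr : Algebra.Smooth k Ψ.range := by
    refine Pool.Agent.W973.CUT2.smooth_of_surj hloc Ψ.rangeRestrict Ψ.rangeRestrict_surjective ?_
    have : RingHom.ker Ψ.rangeRestrict = RingHom.ker Ψ := by
      ext x
      rw [RingHom.mem_ker, RingHom.mem_ker]
      exact ⟨fun h => congrArg Subtype.val h, fun h => Subtype.ext h⟩
    rw [this]
    exact hmin
  have hle : ψ.range ≤ Ψ.range := by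
    rintro _ ⟨a, rfl⟩
    exact ⟨Ideal.Quotient.mk _ (algebraMap A R0 a), hΨa a⟩
  let _ : Algebra ψ.range Ψ.range := (Subalgebra.inclusion hle).toRingHom.toAlgebra
  have hst : IsScalarTower k ψ.range Ψ.range := IsScalarTower.of_algebraMap_eq fun x => rfl
  have hval : ∀ b : ψ.range, ((algebraMap ψ.range Ψ.range b : Ψ.range) : K0) = b := fun b => rfl
  have hIL : IsLocalization.Away b0 Ψ.range := by
    refine ⟨⟨?_, ?_, ?_⟩⟩
    · rintro ⟨_, n, rfl⟩
      rw [map_pow]
      refine IsUnit.pow n ?_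
      let sΔ : Submonoid.powers Δ := ⟨Δ, 1, pow_one Δ⟩
      have h1 : Ψ (Ideal.Quotient.mk _ (IsLocalization.mk' R0 (1 : A) sΔ)) * ψ Δ = 1 := by
        rw [hΨ, ← hΨ0, ← map_mul]
        have h2 := IsLocalization.mk'_spec R0 (1 : A) sΔ
        rw [map_one] at h2
        exact (congrArg Ψ0 h2).trans (map_one Ψ0)
      let vv : Ψ.range := ⟨Ψ (Ideal.Quotient.mk _ (IsLocalization.mk' R0 (1 : A) sΔ)), ⟨_, rfl⟩⟩
      refine IsUnit.of_mul_eq_one vv (Subtype.ext ?_)
      exact (mul_comm _ _).trans h1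
    · rintro ⟨_, x, rfl⟩
      obtain ⟨r, rfl⟩ := Ideal.Quotient.mk_surjective x
      obtain ⟨⟨a, ⟨_, n, rfl⟩⟩, ha⟩ := IsLocalization.surj (Submonoid.powers Δ) r
      refine ⟨⟨ψ.rangeRestrict a, ⟨b0 ^ n, n, rfl⟩⟩, Subtype.ext ?_⟩
      change Ψ0 r * (ψ Δ) ^ n = ψ a
      have h2 := congrArg Ψ0 ha
      rw [map_mul, hΨ0, hΨ0] at h2
      rw [← h2]
      congr 1
      exact (map_pow ψ Δ n).symm
    · intro x y hxy
      exact ⟨1, by
        have h1 : ((algebraMap ψ.range Ψ.range x : Ψ.range) : K0) =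
            ((algebraMap ψ.range Ψ.range y : Ψ.range) : K0) := congrArg Subtype.val hxy
        have h2 : x = y := Subtype.ext h1
        rw [h2]⟩
  have hfs : Algebra.FormallySmooth k (Localization.Away b0) :=
    Algebra.FormallySmooth.of_equiv
      ((IsLocalization.algEquiv (Submonoid.powers b0) Ψ.range
        (Localization.Away b0)).restrictScalars k)
  exact Algebra.basicOpen_subset_smoothLocus_iff.2 hfs hb0

end

end Pool.Agent.TH214.V
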