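import Pool.Agent.TH214.V.Core4
import Pool.Agent.TH214.Dual

/-! The restriction of a model to a closed subvariety of any codimension which is locally given
by equations with dual logarithmic vectors. -/

set_option autoImplicit false
set_option linter.unusedVariables false
set_option linter.unusedSectionVars false

universe u

open Pool.Agent.W558 Pool.Agent.W177.WD Pool.Agent.W973.CUT Pool.Agent.W973.CUT2

namespace Pool.Agent.TH214.V

section lin

variable {k A κ : Type u} [Field k] [CommRing A] [Algebra k A] [Field κ] [Algebra k κ]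
  {φ : A →ₐ[k] κ}

/-- Linear combinations of tangent vectors. -/
noncomputable def tvSum {σ : Type} [Fintype σ] (D0 : TV φ) (c : σ → κ) (D : σ → TV φ) : TV φ where
  D := { toFun := fun a => D0.D a + ∑ i, c i * (D i).D a
         map_add' := by
          intro a b
          simp only [map_add, mul_add, Finset.sum_add_distrib]
          ring
         map_smul' := by
          intro r a
          simp only [map_smul, RingHom.id_apply, smul_add, Finset.smul_sum, mul_smul_comm] }
  leib := by
    intro a b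
    change D0.D (a * b) + ∑ i, c i * (D i).D (a * b) = φ a * (D0.D b + ∑ i, c i * (D i).D b) +
      φ b * (D0.D a + ∑ i, c i * (D i).D a)
    have h : ∑ i, c i * (D i).D (a * b) = φ a * ∑ i, c i * (D i).D b +
        φ b * ∑ i, c i * (D i).D a := by
      rw [Finset.mul_sum, Finset.mul_sum, ← Finset.sum_add_distrib]
      refine Finset.sum_congr rfl fun i _ => ?_
      rw [(D i).leib]
      ring
    rw [D0.leib, h]
    ring

lemma tvSum_D {σ : Type} [Fintype σ] (D0 : TV φ) (c : σ → κ) (D : σ → TV φ) (a : A) :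
    (tvSum D0 c D).D a = D0.D a + ∑ i, c i * (D i).D a := rfl

end lin

section val

variable {k K L : Type u} [Field k] [Field K] [Algebra k K] [Field L] [Algebra k L]
  {Q : Subalgebra k K} (π : Q →ₐ[k] L)

/-- The local ring of the valuation ring `V` of the image. -/
def pullR (V : ValuationSubring L) : Subring K where
  carrier := {x | ∃ a b : Q, π b ≠ 0 ∧ x * b = a ∧ π a / π b ∈ V}
  mul_mem' := by
    rintro x y ⟨a, b, hb, h1, h2⟩ ⟨a', b', hb', h1', h2'⟩
    refine ⟨a * a', b * b', ?_, ?_, ?_⟩
    · rw [map_mul]; exact mul_ne_zero hb hb'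
    · push_cast
      rw [← h1, ← h1']; ring
    · rw [map_mul, map_mul, mul_div_mul_comm]
      exact V.mul_mem _ _ h2 h2'
  one_mem' := ⟨1, 1, by rw [map_one]; exact one_ne_zero, by simp, by
    rw [map_one, div_one]; exact V.one_mem⟩
  add_mem' := by
    rintro x y ⟨a, b, hb, h1, h2⟩ ⟨a', b', hb', h1', h2'⟩
    refine ⟨a * b' + a' * b, b * b', ?_, ?_, ?_⟩
    · rw [map_mul]; exact mul_ne_zero hb hb'
    · push_cast
      rw [← h1, ← h1']; ring
    · have : π (a * b' + a' * b) / π (b * b') = π a / π b + π a' / π b' := by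
        rw [map_add, map_mul, map_mul, map_mul]
        field_simp
      rw [this]
      exact V.add_mem _ _ h2 h2'
  zero_mem' := ⟨0, 1, by rw [map_one]; exact one_ne_zero, by simp, by
    rw [map_zero, zero_div]; exact V.zero_mem⟩
  neg_mem' := by
    rintro x ⟨a, b, hb, h1, h2⟩
    refine ⟨-a, b, hb, ?_, ?_⟩
    · push_cast
      rw [← h1]; ring
    · rw [map_neg, neg_div]
      exact V.neg_mem _ h2

lemma coe_ne {b : Q} (hb : π b ≠ 0) : (b : K) ≠ 0 := by
  intro h
  apply hb
  have : b = 0 := Subtype.ext h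
  rw [this, map_zero]

lemma pullR_unit {V : ValuationSubring L} {a b : Q} (hb : π b ≠ 0) (hv : IsUnit (π a / π b))
    (h1 : (π a / π b)⁻¹ ∈ V) {x : K} (hx : x * b = a) (hxm : x ∈ pullR π V) :
    IsUnit (⟨x, hxm⟩ : pullR π V) := by
  have ha : π a ≠ 0 := by
    intro h
    rw [h, zero_div] at hv
    exact not_isUnit_zero hv
  have ha0 := coe_ne π ha
  have hb0 := coe_ne π hb
  have hx0 : x ≠ 0 := by
    rintro rfl
    rw [zero_mul] at hx
    exact ha0 hx.symm
  have h2 : x⁻¹ ∈ pullR π V := ⟨b, a, ha, by rw [← hx]; field_simp, by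
    rw [inv_div] at h1
    exact h1⟩
  exact IsUnit.of_mul_eq_one (⟨x⁻¹, h2⟩ : pullR π V) (Subtype.ext (mul_inv_cancel₀ hx0))

lemma pullR_local (V : ValuationSubring L) : IsLocalRing (pullR π V) := by
  have : Nontrivial (pullR π V) := ⟨⟨0, 1, fun h => zero_ne_one (congrArg Subtype.val h)⟩⟩
  refine IsLocalRing.of_isUnit_or_isUnit_one_sub_self ?_
  rintro ⟨x, hx⟩
  obtain ⟨a, b, hb, h1, h2⟩ := id hx
  have hu : ∀ v : V, IsUnit v → IsUnit (v : L) ∧ (v : L)⁻¹ ∈ V := by
    intro v hv
    obtain ⟨w, hw⟩ := hv.exists_right_inv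
    have h3 : (v : L) * w = 1 := congrArg Subtype.val hw
    refine ⟨IsUnit.of_mul_eq_one _ h3, ?_⟩
    rw [inv_eq_of_mul_eq_one_right h3]
    exact w.2
  rcases IsLocalRing.isUnit_or_isUnit_one_sub_self (⟨π a / π b, h2⟩ : V) with h3 | h3
  · left
    obtain ⟨h4, h5⟩ := hu _ h3
    exact pullR_unit π hb h4 h5 h1 hx
  · right
    obtain ⟨h4, h5⟩ := hu _ h3
    have h6 : (1 : L) - π a / π b = π (b - a) / π b := by
      rw [map_sub]
      field_simp
    have h7 : (((1 : V) - ⟨π a / π b, h2⟩ : V) : L) = π (b - a) / π b := h6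
    rw [h7] at h4 h5
    refine pullR_unit (V := V) π (a := b - a) hb h4 h5 (x := 1 - x) ?_ _
    push_cast
    rw [← h1]
    ring

/-- Valuation rings of `K` above the valuation ring `V` of `L`. -/
theorem exists_val (V : ValuationSubring L) (hV : ∀ c : k, algebraMap k L c ∈ V) :
    ∃ V' : ValuationSubring K, (∀ c : k, algebraMap k K c ∈ V') ∧
      ∀ a : Q, (a : K) ∈ V' → π a ∈ V := by
  have := pullR_local π V
  obtain ⟨V', h, hloc⟩ := IsLocalRing.exists_factor_valuationRing (pullR π V).subtype
  refine ⟨V', fun c => ?_, fun a ha => ?_⟩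
  · refine h ⟨algebraMap k K c, algebraMap k Q c, 1, by rw [map_one]; exact one_ne_zero, ?_, ?_⟩
    · rw [Subalgebra.coe_one, mul_one]
      rfl
    · rw [map_one, div_one, AlgHom.commutes]
      exact hV c
  · by_contra hcon
    have h1 : (π a)⁻¹ ∈ V := (V.mem_or_inv_mem (π a)).resolve_left hcon
    have ha0 : π a ≠ 0 := by
      intro h0
      apply hcon
      rw [h0]
      exact V.zero_mem
    have ha1 := coe_ne π ha0
    have hx : (a : K)⁻¹ ∈ pullR π V := ⟨1, a, ha0, by
      rw [Subalgebra.coe_one]; exact inv_mul_cancel₀ ha1, by rw [map_one, one_div]; exact h1⟩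
    have hu : IsUnit ((pullR π V).subtype.codRestrict V'.toSubring h ⟨(a : K)⁻¹, hx⟩) := by
      refine IsUnit.of_mul_eq_one (⟨(a : K), ha⟩ : V'.toSubring) (Subtype.ext ?_)
      exact inv_mul_cancel₀ ha1
    have h2 := hloc.map_nonunit _ hu
    obtain ⟨⟨y, hy⟩, hy'⟩ := h2.exists_right_inv
    have h3 : (a : K)⁻¹ * y = 1 := congrArg Subtype.val hy'
    have h4 : y = a := by
      have := eq_inv_of_mul_eq_one_right h3
      rw [inv_inv] at this
      exact this
    subst h4
    obtain ⟨a', b', hb', h5, h6⟩ := hy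
    apply hcon
    have h7 : a * b' = a' := Subtype.ext h5
    rw [← h7, map_mul, mul_div_cancel_right₀ _ hb'] at h6
    exact h6

end val

end Pool.Agent.TH214.V
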