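import Pool.Agent.TH214.V.Cut

/-! The restriction of a model to a closed subvariety, continued. -/

set_option autoImplicit false
set_option linter.unusedVariables false
set_option linter.unusedSectionVars false

universe u

open Pool.Agent.W558 Pool.Agent.W177.WD Pool.Agent.W973.CUT Pool.Agent.W973.CUT2

namespace Pool.Agent.TH214.V

variable {k K L : Type u} [Field k] [Field K] [Algebra k K] [Field L] [Algebra k L]
  {Q : Subalgebra k K} (π : Q →ₐ[k] L) {T I : Type}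

/-- At the points of the subvariety there are `c` equations with dual logarithmic vectors. -/
def CutPt (c : ℕ) (M : LM (⊥ : Subalgebra k K) ⊤ T I) : Prop :=
  ∀ t (κ : Type u) [Field κ] [Algebra k κ] (φ : M.A t →ₐ[k] κ),
    (∀ a (ha : a ∈ M.A t), pq π a = 0 → φ ⟨a, ha⟩ = 0) →
    ∃ (γ : Fin c → M.A t) (v : Fin c → LT φ (M.x t)), (∀ j, pq π (γ j : K) = 0) ∧
      ∀ i j, (v i).D.D (γ j) = if i = j then 1 else 0

/-- The assumptions of the cut. -/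
structure CutOk (c d : ℕ) (M : LM (⊥ : Subalgebra k K) ⊤ T I) : Prop where
  AQ : ∀ t, M.A t ≤ Q
  xQ : ∀ t i, (M.x t i)⁻¹ ∈ Q
  fr : ∀ t, ∀ s ∈ Q, ∃ e ∈ M.A t, e ≠ 0 ∧ e⁻¹ ∈ Q ∧ s * e ∈ M.A t
  gen : ∀ x : L, ∃ a b : Q, π b ≠ 0 ∧ x * π b = π a
  up : ∀ b : Fin (c + d + 1) → K, ¬ AlgebraicIndependent k b
  dn : ∃ b : Fin d → L, AlgebraicIndependent k b
  pt : CutPt π c M

/-- Independent elements in a subalgebra with the given fraction field. -/
lemma exists_ind {d : ℕ} (B : Subalgebra k L)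
    (hfr : ∀ x : L, ∃ a ∈ B, ∃ b ∈ B, b ≠ 0 ∧ x = a * b⁻¹)
    (h : ∃ z : Fin d → L, AlgebraicIndependent k z) :
    ∃ b : Fin d → B, AlgebraicIndependent k fun i => (b i : L) := by
  obtain ⟨z, hz⟩ := h
  have halg : Algebra.IsAlgebraic (Algebra.adjoin k (B : Set L)) L := by
    refine ⟨fun x => ?_⟩
    obtain ⟨a, ha, b, hb, hb0, rfl⟩ := hfr x
    have h1 : ∀ y ∈ B, IsAlgebraic (Algebra.adjoin k (B : Set L)) y := fun y hy =>
      isAlgebraic_algebraMap (⟨y, Algebra.subset_adjoin hy⟩ : Algebra.adjoin k (B : Set L))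
    exact (h1 a ha).mul (h1 b hb).inv
  obtain ⟨t, ht, htb⟩ := exists_isTranscendenceBasis_subset (R := k) (B : Set L)
  have h1 : Cardinal.lift.{u} (Cardinal.mk (Fin d)) ≤ Cardinal.lift.{0} (Cardinal.mk t) := by
    rw [Cardinal.lift_id'.{0, u} (Cardinal.mk t), htb.cardinalMk_eq_trdeg]
    have := hz.lift_cardinalMk_le_trdeg
    rwa [Cardinal.lift_id'.{0, u}] at this
  obtain ⟨e⟩ := Cardinal.lift_mk_le'.1 h1
  exact ⟨fun i => ⟨e i, ht (e i).2⟩, htb.1.comp _ e.injective⟩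

variable {c d : ℕ} {M : LM (⊥ : Subalgebra k K) ⊤ T I} (h : CutOk π c d M)

include h in
lemma im_frac (t : T) (x : L) : ∃ a ∈ im π (M.A t) (h.AQ t), ∃ b ∈ im π (M.A t) (h.AQ t),
    b ≠ 0 ∧ x = a * b⁻¹ := by
  obtain ⟨a, b, hb, hab⟩ := h.gen x
  obtain ⟨e, he, he0, hei, hae⟩ := h.fr t a a.2
  obtain ⟨e', he', he0', hei', hbe⟩ := h.fr t b b.2
  have h1 : pq π e ≠ 0 := pq_ne π he0 (h.AQ t he) hei
  have h2 : pq π e' ≠ 0 := pq_ne π he0' (h.AQ t he') hei'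
  refine ⟨pq π ((a * e) * e'), pq_mem π _ ((M.A t).mul_mem hae he'), pq π ((b * e') * e),
    pq_mem π _ ((M.A t).mul_mem hbe he), ?_, ?_⟩
  · rw [pq_mul π (h.AQ t hbe) (h.AQ t he), pq_mul π b.2 (h.AQ t he'), pq_coe]
    exact mul_ne_zero (mul_ne_zero hb h2) h1
  · rw [pq_mul π (h.AQ t hbe) (h.AQ t he), pq_mul π b.2 (h.AQ t he'), pq_coe,
      pq_mul π (h.AQ t hae) (h.AQ t he'), pq_mul π a.2 (h.AQ t he), pq_coe, ← hab]
    field_simp

include h in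
lemma range_eq (t : T) : (π.comp (Subalgebra.inclusion (h.AQ t))).range =
    im π (M.A t) (h.AQ t) := rfl

lemma psi_apply {A : Subalgebra k K} (hA : A ≤ Q) (a : A) :
    (π.comp (Subalgebra.inclusion hA)) a = pq π (a : K) := (pq_of π (hA a.2)).symm

include h in
lemma H1A (t : T) (b : Fin (c + d + 1) → M.A t) : ¬ AlgebraicIndependent k b := fun hb =>
  h.up (fun i => (b i : K)) (hb.map' (f := (M.A t).val) Subtype.val_injective)

include h in
lemma H2A (t : T) : ∃ b : Fin d → M.A t, AlgebraicIndependent k fun i =>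
    (π.comp (Subalgebra.inclusion (h.AQ t))) (b i) := by
  obtain ⟨b, hb⟩ := exists_ind (im π (M.A t) (h.AQ t)) (im_frac π h t) h.dn
  choose a ha using fun i => (b i).2
  exact ⟨a, by
    have : (fun i => (π.comp (Subalgebra.inclusion (h.AQ t))) (a i)) = fun i => (b i : L) :=
      funext fun i => ha i
    rw [this]
    exact hb⟩

include h in
lemma ker_pt (hloc : S2_loc.{u}) {t : T} {κ : Type u} [Field κ] [Algebra k κ]
    (φ : M.A t →ₐ[k] κ) (hφ : ∀ a (ha : a ∈ M.A t), pq π a = 0 → φ ⟨a, ha⟩ = 0)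
    {γ : Fin c → M.A t} {v : Fin c → LT φ (M.x t)} (hγ : ∀ j, pq π (γ j : K) = 0)
    (hv : ∀ i j, (v i).D.D (γ j) = if i = j then 1 else 0) (D : TV φ) (hD : ∀ j, D.D (γ j) = 0)
    {a : K} (ha : a ∈ M.A t) (h0 : pq π a = 0) : D.D ⟨a, ha⟩ = 0 := by
  have := M.sm t
  have hφ' : ∀ a, (π.comp (Subalgebra.inclusion (h.AQ t))) a = 0 → φ a = 0 := by
    rintro ⟨a, ha⟩ h1
    rw [psi_apply] at h1
    exact hφ a ha h1
  have hγ' : ∀ j, (π.comp (Subalgebra.inclusion (h.AQ t))) (γ j) = 0 := by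
    intro j
    rw [psi_apply]
    exact hγ j
  have h1 := ker_eq_Pc (π.comp (Subalgebra.inclusion (h.AQ t))) φ hloc (H1A π h t) (H2A π h t)
    hφ' γ hγ' (fun i => (v i).D) hv
  refine tv_ker (π.comp (Subalgebra.inclusion (h.AQ t))) φ h1 hφ' hγ' D hD ?_
  rw [psi_apply]
  exact h0

/-- The point below. -/
lemma below {t : T} {κ : Type u} [Field κ] [Algebra k κ] (hAQ : M.A t ≤ Q)
    (φ' : im π (M.A t) hAQ →ₐ[k] κ) (a : K) (ha : a ∈ M.A t) :
    (φ'.comp (qm π (M.A t) hAQ)) ⟨a, ha⟩ = φ' ⟨pq π a, pq_mem π hAQ ha⟩ := by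
  change φ' (qm π (M.A t) hAQ ⟨a, ha⟩) = _
  rw [qm_apply π hAQ ha]

lemma below_zero {t : T} {κ : Type u} [Field κ] [Algebra k κ] (hAQ : M.A t ≤ Q)
    (φ' : im π (M.A t) hAQ →ₐ[k] κ) (a : K) (ha : a ∈ M.A t) (h0 : pq π a = 0) :
    (φ'.comp (qm π (M.A t) hAQ)) ⟨a, ha⟩ = 0 := by
  rw [below]
  have : (⟨pq π a, pq_mem π hAQ ha⟩ : im π (M.A t) hAQ) = 0 := Subtype.ext h0
  rw [this, map_zero]

include h in
/-- Descent of tangent vectors. -/
lemma desc_pt (hloc : S2_loc.{u}) {t : T} {κ : Type u} [Field κ] [Algebra k κ]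
    (φ' : im π (M.A t) (h.AQ t) →ₐ[k] κ) {γ : Fin c → M.A t}
    {v : Fin c → LT (φ'.comp (qm π (M.A t) (h.AQ t))) (M.x t)} (hγ : ∀ j, pq π (γ j : K) = 0)
    (hv : ∀ i j, (v i).D.D (γ j) = if i = j then 1 else 0)
    (D : TV (φ'.comp (qm π (M.A t) (h.AQ t)))) (hD : ∀ j, D.D (γ j) = 0) :
    ∃ E : TV φ', ∀ a (ha : a ∈ M.A t), E.D ⟨pq π a, pq_mem π (h.AQ t) ha⟩ = D.D ⟨a, ha⟩ := by
  obtain ⟨E, hE⟩ := TV.desc (qm π (M.A t) (h.AQ t)) (qm_surj π (M.A t) (h.AQ t)) φ'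
    (fun a => rfl) D (by
      rintro ⟨a, ha⟩ h0
      refine ker_pt π h hloc _ (fun a ha h0 => below_zero π (h.AQ t) φ' a ha h0) hγ hv D hD ha ?_
      rw [qm_apply π (h.AQ t) ha] at h0
      exact congrArg Subtype.val h0)
  refine ⟨E, fun a ha => ?_⟩
  rw [← qm_apply π (h.AQ t) ha]
  exact hE ⟨a, ha⟩

include h in
lemma sm_pt (hloc : S2_loc.{u}) (t : T) : Algebra.Smooth k (im π (M.A t) (h.AQ t)) := by
  have := M.sm t
  refine smooth_range hloc (π.comp (Subalgebra.inclusion (h.AQ t))) (H1A π h t) (H2A π h t) ?_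
  intro κ _ _ φ hφ
  obtain ⟨γ, v, hγ, hv⟩ := h.pt t κ φ (fun a ha h0 => hφ ⟨a, ha⟩ (by rw [psi_apply]; exact h0))
  exact ⟨γ, fun j => by rw [psi_apply]; exact hγ j, fun i => (v i).D, hv⟩

include h in
lemma snc_pt (hloc : S2_loc.{u}) (t : T) :
    SNC (im π (M.A t) (h.AQ t)) (fun i => pq π (M.x t i)) := by
  intro κ _ _ φ' i hi hφ'
  obtain ⟨γ, v, hγ, hv⟩ := h.pt t κ (φ'.comp (qm π (M.A t) (h.AQ t)))
    (fun a ha h0 => below_zero π (h.AQ t) φ' a ha h0)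
  have hx0 : ∀ j (hj : pq π (M.x t j) ∈ im π (M.A t) (h.AQ t)), φ' ⟨pq π (M.x t j), hj⟩ = 0 →
      (φ'.comp (qm π (M.A t) (h.AQ t))) ⟨M.x t j, M.xA t j⟩ = 0 := by
    intro j hj h0
    rw [below]
    exact h0
  obtain ⟨D, hD1, hD2⟩ := M.snc t κ (φ'.comp (qm π (M.A t) (h.AQ t))) i (M.xA t i) (hx0 i hi hφ')
  let D' := tvSum D (fun j => -D.D (γ j)) (fun j => (v j).D)
  have hD' : ∀ j, D'.D (γ j) = 0 := by
    intro j
    rw [tvSum_D]
    have : ∑ i, -D.D (γ i) * (v i).D.D (γ j) = - D.D (γ j) := by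
      rw [Finset.sum_eq_single j]
      · rw [hv, if_pos rfl, mul_one]
      · intro b _ hb
        rw [hv, if_neg hb, mul_zero]
      · intro hj
        exact absurd (Finset.mem_univ j) hj
    rw [this, add_neg_cancel]
  have hDx : ∀ j, (φ'.comp (qm π (M.A t) (h.AQ t))) ⟨M.x t j, M.xA t j⟩ = 0 →
      D'.D ⟨M.x t j, M.xA t j⟩ = D.D ⟨M.x t j, M.xA t j⟩ := by
    intro j h0
    rw [tvSum_D]
    have : ∑ i, -D.D (γ i) * (v i).D.D ⟨M.x t j, M.xA t j⟩ = 0 := by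
      refine Finset.sum_eq_zero fun a _ => ?_
      rw [(v a).hx j (M.xA t j), h0, zero_mul, mul_zero]
    rw [this, add_zero]
  obtain ⟨E, hE⟩ := desc_pt π h hloc φ' hγ hv D' hD'
  refine ⟨E, ?_, ?_⟩
  · refine (hE _ (M.xA t i)).trans ?_
    rw [hDx i (hx0 i hi hφ')]
    exact hD1
  · intro j hj hji hφj
    refine (hE _ (M.xA t j)).trans ?_
    rw [hDx j (hx0 j hj hφj)]
    exact hD2 j (M.xA t j) hji (hx0 j hj hφj)

open Classical in
/-- The restriction of the model. -/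
noncomputable def cutLM (hloc : S2_loc.{u}) : LM (⊥ : Subalgebra k L) ⊤ T I :=
  let t0 : T := Classical.choose (M.cv ⊤ (fun _ _ => trivial))
  have hHQ : ∀ t, M.H t / M.H t0 ∈ Q := fun t => h.AQ t0 (M.rt t0 t)
  have hHQ' : ∀ t, (M.H t / M.H t0)⁻¹ ∈ Q := fun t => by
    rw [inv_div]; exact h.AQ t (M.rt t t0)
  have hH0 : ∀ t, M.H t / M.H t0 ≠ 0 := fun t => div_ne_zero (M.H0 t) (M.H0 t0)
  have hHdiv : ∀ t t', pq π (M.H t' / M.H t0) / pq π (M.H t / M.H t0) =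
      pq π (M.H t' / M.H t) := by
    intro t t'
    rw [← pq_div π (hHQ t') (hH0 t) (hHQ t) (hHQ' t),
      div_div_div_cancel_right₀ (M.H0 t0)]
  have hxQ : ∀ t i, M.x t i ∈ Q := fun t i => h.AQ t (M.xA t i)
  { A := fun t => im π (M.A t) (h.AQ t)
    H := fun t => pq π (M.H t / M.H t0)
    x := fun t i => pq π (M.x t i)
    sm := sm_pt π h hloc
    base := fun t => bot_le
    H0 := fun t => pq_ne π (hH0 t) (hHQ t) (hHQ' t)
    HR := fun t => trivial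
    rt := by
      intro t t'
      rw [hHdiv]
      exact pq_mem π (h.AQ t) (M.rt t t')
    gl := by
      intro t t' f hf
      obtain ⟨a, ha, rfl⟩ := (mem_im π).1 hf
      obtain ⟨n, hn⟩ := M.gl t t' a ha
      refine ⟨n, ?_⟩
      rw [hHdiv, ← pq_pow π (h.AQ _ (M.rt t t')),
        ← pq_mul π (Q.pow_mem (h.AQ _ (M.rt t t')) n) (h.AQ t' ha)]
      exact pq_mem π (h.AQ t) hn
    dn := fun t f hf => ⟨0, trivial⟩
    cv := by
      intro V hV
      obtain ⟨V', hV1, hV2⟩ := exists_val π V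
        (fun c => hV _ (Subalgebra.algebraMap_mem _ c))
      obtain ⟨t, ht⟩ := M.cv V' (by
        intro a ha
        obtain ⟨r, rfl⟩ := Algebra.mem_bot.1 ha
        exact hV1 r)
      refine ⟨t, ?_⟩
      intro f hf
      obtain ⟨a, ha, rfl⟩ := (mem_im π).1 hf
      rw [pq_of π (h.AQ t ha)]
      exact hV2 ⟨a, h.AQ t ha⟩ (ht a ha)
    xA := fun t i => pq_mem π _ (M.xA t i)
    x0 := fun t i => pq_ne π (M.x0 t i) (hxQ t i) (h.xQ t i)
    gi := by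
      intro t t' i
      obtain ⟨n, hn⟩ := M.gi t t' i
      refine ⟨n, ?_⟩
      have h1 : M.x t' i / M.x t i ∈ Q := by
        rw [div_eq_mul_inv]
        exact Q.mul_mem (hxQ t' i) (h.xQ t i)
      rw [hHdiv, ← pq_pow π (h.AQ _ (M.rt t t')),
        ← pq_div π (hxQ t' i) (M.x0 t i) (hxQ t i) (h.xQ t i),
        ← pq_mul π (Q.pow_mem (h.AQ _ (M.rt t t')) n) h1]
      exact pq_mem π (h.AQ t) hn
    snc := snc_pt π h hloc }

end Pool.Agent.TH214.V
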