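import Pool.Agent.TH214.V.Sch2

/-! Laurent polynomials in a larger set of variables. -/

set_option autoImplicit false
set_option linter.unusedVariables false
set_option linter.unusedSectionVars false

universe u

open Pool.Agent.W558 Pool.Agent.W177.WD

namespace Pool.Agent.TH214.V

section ext

variable {k : Type u} [Field k] {J0 J : Type} [Fintype J0] [Fintype J] (ι : J0 ↪ J)

/-- Extension of exponents by zero. -/
noncomputable def exE : (J0 → ℤ) ↪ (J → ℤ) where
  toFun m := Function.extend ι m 0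
  inj' := by
    intro m m' h
    funext i
    have h1 := congrFun h (ι i)
    simp only [ι.injective.extend_apply] at h1
    exact h1

lemma exE_apply (m : J0 → ℤ) (i : J0) : exE ι m (ι i) = m i := ι.injective.extend_apply m 0 i

lemma exE_of_not (m : J0 → ℤ) (j : J) (hj : j ∉ Set.range ι) : exE ι m j = 0 := by
  change Function.extend ι m 0 j = 0
  rw [Function.extend_apply' m (0 : J → ℤ) j hj]
  rfl

lemma exE_sum {R : Type u} [CommRing R] (m : J0 → ℤ) (a : J → R) :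
    ∑ j, ((exE ι m j : ℤ) : R) * a j = ∑ i, (m i : R) * a (ι i) := by
  refine (Fintype.sum_of_injective ι ι.injective _ _ ?_ ?_).symm
  · intro j hj
    rw [exE_of_not ι m j hj, Int.cast_zero, zero_mul]
  · intro i
    rw [exE_apply]

lemma exE_sum' (m : J0 → ℤ) (l : J → ℤ) :
    ∑ j, l j * exE ι m j = ∑ i, l (ι i) * m i := by
  refine (Fintype.sum_of_injective ι ι.injective _ _ ?_ ?_).symm
  · intro j hj
    rw [exE_of_not ι m j hj, mul_zero]
  · intro i
    rw [exE_apply]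

lemma exE_prod {κ : Type u} [Field κ] (m : J0 → ℤ) (z : J → κ) :
    ∏ j, z j ^ exE ι m j = ∏ i, z (ι i) ^ m i := by
  refine (Fintype.prod_of_injective ι ι.injective _ _ ?_ ?_).symm
  · intro j hj
    rw [exE_of_not ι m j hj, zpow_zero]
  · intro i
    rw [exE_apply]

/-- The Laurent polynomial in more variables. -/
noncomputable def exF (F : (J0 → ℤ) →₀ k) : (J → ℤ) →₀ k := F.embDomain (exE ι)

lemma exF_support (F : (J0 → ℤ) →₀ k) : (exF ι F).support = F.support.map (exE ι) :=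
  Finsupp.support_embDomain _ _

lemma exF_apply (F : (J0 → ℤ) →₀ k) (m : J0 → ℤ) : exF ι F (exE ι m) = F m :=
  Finsupp.embDomain_apply_self _ _ _

lemma exF_lv {K : Type u} [Field K] [Algebra k K] (F : (J0 → ℤ) →₀ k) (z : J → K) :
    lv (exF ι F) z = lv F (fun i => z (ι i)) := by
  unfold lv
  rw [exF_support, Finset.sum_map]
  refine Finset.sum_congr rfl fun m _ => ?_
  rw [exF_apply, exE_prod]

lemma exF_face (F : (J0 → ℤ) →₀ k) (l : J → ℤ) :
    face (exF ι F) l = (face F (fun i => l (ι i))).map (exE ι) := by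
  ext m
  unfold face
  simp only [exF_support, Finset.mem_filter, Finset.mem_map]
  constructor
  · rintro ⟨⟨m0, hm0, rfl⟩, h⟩
    refine ⟨m0, ⟨hm0, fun m' hm' => ?_⟩, rfl⟩
    have h1 := h (exE ι m') ⟨m', hm', rfl⟩
    rw [exE_sum', exE_sum'] at h1
    exact h1
  · rintro ⟨m0, ⟨hm0, h⟩, rfl⟩
    refine ⟨⟨m0, hm0, rfl⟩, ?_⟩
    rintro _ ⟨m', hm', rfl⟩
    rw [exE_sum', exE_sum']
    exact h m' hm'

lemma exF_vl {κ : Type u} [Field κ] [Algebra k κ] (F : (J0 → ℤ) →₀ k) (l : J → ℤ) (z : J → κ) :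
    vl (exF ι F) l z = vl F (fun i => l (ι i)) (fun i => z (ι i)) := by
  unfold vl
  rw [exF_face, Finset.sum_map]
  refine Finset.sum_congr rfl fun m _ => ?_
  rw [exF_apply, exE_prod]

lemma exF_der {κ : Type u} [Field κ] [Algebra k κ] (F : (J0 → ℤ) →₀ k) (l : J → ℤ)
    (z a : J → κ) : der (exF ι F) l z a =
      der F (fun i => l (ι i)) (fun i => z (ι i)) (fun i => a (ι i)) := by
  unfold der
  rw [exF_face, Finset.sum_map]
  refine Finset.sum_congr rfl fun m _ => ?_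
  rw [exF_apply, exE_prod, exE_sum]

lemma exF_wt (F : (J0 → ℤ) →₀ k) (l : J → ℤ) (q : ℤ → Prop) :
    (∃ m ∈ (exF ι F).support, q (∑ j, l j * m j)) ↔
      ∃ m ∈ F.support, q (∑ i, l (ι i) * m i) := by
  constructor
  · rintro ⟨m, hm, h⟩
    rw [exF_support, Finset.mem_map] at hm
    obtain ⟨m0, hm0, rfl⟩ := hm
    rw [exE_sum'] at h
    exact ⟨m0, hm0, h⟩
  · rintro ⟨m, hm, h⟩
    refine ⟨exE ι m, ?_, ?_⟩
    · rw [exF_support]
      exact Finset.mem_map_of_mem _ hm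
    · rw [exE_sum']
      exact h

variable {σ τ : Type}

/-- Nondegeneracy in more variables. -/
theorem NDV.ext {G : σ → (J0 → ℤ) →₀ k} {F : τ → (J0 → ℤ) →₀ k} {vt0 : J0 → Prop} {vt : J → Prop}
    {tw : τ → Prop} {c : ℕ} (hvt : ∀ i, vt0 i → vt (ι i)) (h : NDV G F vt0 tw c) :
    NDV (fun s => exF ι (G s)) (fun t => exF ι (F t)) vt tw c := by
  classical
  intro κ _ _ l z hz hv
  simp only [exF_vl, exF_der] at hv ⊢
  have hwt : ∀ t, (∃ m ∈ (exF ι (F t)).support, ∑ j, l j * m j < 0) ↔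
      ∃ m ∈ (F t).support, ∑ i, l (ι i) * m i < 0 := fun t => exF_wt ι (F t) l (· < 0)
  have hwt' : ∀ t, (∃ m ∈ (exF ι (F t)).support, ∑ j, l j * m j ≤ 0) ↔
      ∃ m ∈ (F t).support, ∑ i, l (ι i) * m i ≤ 0 := fun t => exF_wt ι (F t) l (· ≤ 0)
  obtain ⟨h1, h2⟩ := h κ (fun i => l (ι i)) (fun i => z (ι i)) (fun i => hz _) hv
  have hext : ∀ a : J0 → κ, (∀ i, ¬ vt0 i → a i = 0) → ∃ b : J → κ,
      (∀ j, ¬ vt j → b j = 0) ∧ (fun i => b (ι i)) = a := by
    intro a ha
    refine ⟨Function.extend ι a 0, ?_, ?_⟩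
    · intro j hj
      by_cases hj' : j ∈ Set.range ι
      · obtain ⟨i, rfl⟩ := hj'
        rw [ι.injective.extend_apply]
        exact ha i fun h => hj (hvt i h)
      · rw [Function.extend_apply' a (0 : J → κ) j hj']
        rfl
    · funext i
      exact ι.injective.extend_apply a 0 i
  refine ⟨?_, ?_⟩
  · obtain ⟨s, a, ha0, ha⟩ := h1
    choose b hb0 hb using fun i => hext (a i) (ha0 i)
    refine ⟨s, b, hb0, fun i j => ?_⟩
    rw [hb]
    exact ha i j
  · intro t0 ht0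
    obtain ⟨a, ha0, ha1, ha2, ha3⟩ := h2 t0 (ht0.imp_right (hwt t0).1)
    obtain ⟨b, hb0, hb⟩ := hext a ha0
    refine ⟨b, hb0, fun s => ?_, ?_, fun t hne ht => ?_⟩
    · rw [hb]; exact ha1 s
    · rw [hb]; exact ha2
    · rw [hb]; exact ha3 t hne (ht.imp_right (hwt' t).1)

lemma exF_unt {F : (J0 → ℤ) →₀ k} {vt0 : J0 → Prop} {vt : J → Prop}
    (hvt : ∀ i, vt0 i → vt (ι i)) (h : ∀ m ∈ F.support, ∀ i, ¬ vt0 i → m i = 0)
    (m : J → ℤ) (hm : m ∈ (exF ι F).support) (j : J) (hj : ¬ vt j) : m j = 0 := by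
  rw [exF_support, Finset.mem_map] at hm
  obtain ⟨m0, hm0, rfl⟩ := hm
  by_cases hj' : j ∈ Set.range ι
  · obtain ⟨i, rfl⟩ := hj'
    rw [exE_apply]
    exact h m0 hm0 i fun h5 => hj (hvt i h5)
  · exact exE_of_not ι m0 j hj'

end ext

end Pool.Agent.TH214.V
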