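import Pool.Agent.W558.WA.Stms
import Pool.Agent.W349.WD.Ovp

/-!
# Principalization by a logarithmic modification with nonnegative matrix, with preservation of
bounds for the charts (adapted from `Pool.Agent.W991.WA.Ovp`)
-/

set_option autoImplicit false
set_option linter.unusedVariables false
set_option linter.unusedSimpArgs false
set_option linter.unusedSectionVars false

universe u

open Polynomial Pool.Agent.W558

namespace Pool.Agent.TH214.V

open Pool.Agent.W349.WD (ov_refl ov_trans Θb ov_blowup sum_Θb ov_refine)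

section ov

variable {k K : Type u} [Field k] [Field K] [Algebra k K] {R0 R : Subalgebra k K}
    {T T' I I' : Type}

/-- The charts are contained in `S` and the local equations are units of `S`. -/
def UQ (M : LM R0 R T I) (S : Subalgebra k K) : Prop :=
  (∀ t, M.A t ≤ S) ∧ ∀ t i, (M.x t i)⁻¹ ∈ S

lemma UQ.blow [DecidableEq I] (M : LM R0 R T I) {i j : I} (hij : i ≠ j)
    (M' : LM R0 R (T × Bool) (Option I)) (hA : M'.A = bA M i j) (hx : M'.x = bX M i j)
    {S : Subalgebra k K} (h : UQ M S) : UQ M' S := by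
  have hxS : ∀ t l, M.x t l ∈ S := fun t l => h.1 t (M.xA t l)
  constructor
  · intro p
    rw [hA]
    refine adj_le (h.1 p.1) ?_
    unfold vv
    rw [div_eq_mul_inv]
    exact S.mul_mem (hxS _ _) (h.2 _ _)
  · intro p o
    rw [hx]
    cases o with
    | none => exact h.2 _ _
    | some l =>
      simp only [bX, bx]
      split_ifs
      · rw [inv_div, div_eq_mul_inv]
        exact S.mul_mem (hxS _ _) (h.2 _ _)
      · rw [inv_one]; exact S.one_mem
      · exact h.2 _ _

/-- `Ov` together with the transformation of the exponents and the preservation of comparability -/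
def OV [Fintype I] [Fintype I'] {G : Type} (M : LM R0 R T I) (Γ : G → I → ℤ)
    (M' : LM R0 R T' I') (Γ' : G → I' → ℤ) : Prop :=
  (∃ (π : T' → T) (Θ : I' → I → ℤ), Ov M M' π Θ ∧ (∀ i' i, 0 ≤ Θ i' i) ∧
      ∀ a i', Γ' a i' = ∑ i, Θ i' i * Γ a i) ∧
    (∀ a b, Cmp M Γ a b → Cmp M' Γ' a b) ∧ ∀ S : Subalgebra k K, UQ M S → UQ M' S

lemma OV.refl [Fintype I] {G : Type} (M : LM R0 R T I) (Γ : G → I → ℤ) : OV M Γ M Γ := by
  classical
  refine ⟨⟨id, _, ov_refl M, fun i' i => ?_, ?_⟩, fun _ _ h => h, fun _ h => h⟩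
  · split_ifs <;> norm_num
  intro a i'
  simp

lemma OV.trans [Fintype I] [Fintype I'] {G T'' I'' : Type} [Fintype I'']
    {M : LM R0 R T I} {Γ : G → I → ℤ} {M' : LM R0 R T' I'} {Γ' : G → I' → ℤ}
    {M'' : LM R0 R T'' I''} {Γ'' : G → I'' → ℤ}
    (h : OV M Γ M' Γ') (h' : OV M' Γ' M'' Γ'') : OV M Γ M'' Γ'' := by
  obtain ⟨⟨π, Θ, h1, h0, h2⟩, h3, h4⟩ := h
  obtain ⟨⟨π', Θ', h1', h0', h2'⟩, h3', h4'⟩ := h'
  refine ⟨⟨_, _, ov_trans h1 h1', fun i'' i => Finset.sum_nonneg fun i' _ =>
    mul_nonneg (h0' i'' i') (h0 i' i), ?_⟩, fun a b x => h3' a b (h3 a b x),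
    fun S h => h4' S (h4 S h)⟩
  intro a i''
  rw [h2']
  simp only [h2, Finset.mul_sum, Finset.sum_mul]
  rw [Finset.sum_comm]
  apply Finset.sum_congr rfl
  intro i _
  apply Finset.sum_congr rfl
  intro i' _
  ring

end ov

section wt

variable {k K : Type u} [Field k] [Field K] [Algebra k K] {R0 R : Subalgebra k K}
    {T I : Type} {G : Type}

/-- If there are no bad pairs then the functions become comparable after a refinement. -/
lemma cmp_of_no_bad3 [Finite T] [Fintype I] [DecidableEq I] (a b : G)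
    (M : LM R0 R T I) (Γ : G → I → ℤ) (h : ∀ p, ¬ Bad M (dc Γ a b) p) :
    ∃ (T' I' : Type) (_ : Finite T') (_ : Fintype I') (_ : DecidableEq I')
      (M' : LM R0 R T' I') (Γ' : G → I' → ℤ), OV M Γ M' Γ' ∧ Cmp M' Γ' a b := by
  classical
  let s : Bool → Finset I := fun e =>
    if e then Finset.univ.filter (fun l => dc Γ a b l < 0) else
      Finset.univ.filter (fun l => 0 < dc Γ a b l)
  let h' : T → Bool → K := fun t e => ∏ l ∈ s e, M.x t l
  have hmem : ∀ t e, h' t e ∈ M.A t := fun t e => (M.A t).prod_mem fun l _ => M.xA t l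
  have hne : ∀ t e, h' t e ≠ 0 := fun t e => Finset.prod_ne_zero_iff.2 fun l _ => M.x0 t l
  have hcop : ∀ t, ∃ α ∈ M.A t, ∃ β ∈ M.A t, α * h' t true + β * h' t false = 1 := by
    intro t
    have key : IsCoprime (∏ l ∈ s true, (⟨M.x t l, M.xA t l⟩ : M.A t))
        (∏ l ∈ s false, (⟨M.x t l, M.xA t l⟩ : M.A t)) := by
      refine IsCoprime.prod_left fun l hl => IsCoprime.prod_right fun m hm => ?_
      have hl' : dc Γ a b l < 0 := by simpa [s] using hl
      have hm' : 0 < dc Γ a b m := by simpa [s] using hm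
      have h1 : Sep M m l := by
        by_contra h2
        exact h (m, l) ⟨wt_pos.2 ⟨hm', hl'⟩, h2⟩
      obtain ⟨α, hα, β, hβ, h3⟩ := h1.symm t
      exact ⟨⟨α, hα⟩, ⟨β, hβ⟩, Subtype.ext h3⟩
    obtain ⟨α, β, hαβ⟩ := key
    refine ⟨α, α.2, β, β.2, ?_⟩
    have := congrArg (Subtype.val : M.A t → K) hαβ
    simpa [h'] using this
  obtain ⟨M', hA, hx, hH⟩ := exists_refine M h' hmem hne (by
    intro t V hV
    obtain ⟨α, hα, β, hβ, h1⟩ := hcop t
    have hV1 : h' t true ∈ V := hV _ (hmem _ _)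
    have hV2 : h' t false ∈ V := hV _ (hmem _ _)
    by_contra hcon
    push Not at hcon
    have h2 : ∀ e, V.valuation (h' t e) < 1 := by
      intro e
      have h3 : (h' t e)⁻¹ ∉ V := hcon e
      rw [← V.valuation_le_one_iff, map_inv₀, not_le] at h3
      have h4 : V.valuation (h' t e) ≠ 0 := by
        rw [ne_eq, map_eq_zero]; exact hne t e
      exact (one_lt_inv₀ (zero_lt_iff.2 h4)).1 h3
    have h5 : V.valuation (α * h' t true + β * h' t false) < 1 := by
      refine Valuation.map_add_lt _ ?_ ?_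
      · rw [map_mul]
        exact (mul_le_of_le_one_left' ((V.valuation_le_one_iff _).2 (hV _ hα))).trans_lt (h2 _)
      · rw [map_mul]
        exact (mul_le_of_le_one_left' ((V.valuation_le_one_iff _).2 (hV _ hβ))).trans_lt (h2 _)
    rw [h1, map_one] at h5
    exact lt_irrefl _ h5)
  refine ⟨T × Bool, I, inferInstance, inferInstance, inferInstance, M', Γ, ⟨?_, ?_, ?_⟩, ?_⟩
  · refine ⟨Prod.fst, _, ov_refine M h' hmem hne M' hA hx, fun i' i => ?_, ?_⟩
    · split_ifs <;> norm_num
    intro a i'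
    simp
  · intro a b hh p
    rw [hA, hx]
    rcases hh p.1 with h1 | h1
    · left
      intro i
      exact (h1 i).imp_right fun h2 => le_rA M h' p h2
    · right
      intro i
      exact (h1 i).imp_right fun h2 => le_rA M h' p h2
  · rintro S ⟨hS1, hS2⟩
    constructor
    · intro p
      rw [hA]
      refine adj_le (hS1 p.1) ?_
      change (∏ l ∈ s p.2, M.x p.1 l)⁻¹ ∈ S
      rw [← Finset.prod_inv_distrib]
      exact S.prod_mem fun l _ => hS2 _ _
    · intro p i
      rw [hx]
      exact hS2 _ _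
  · rintro ⟨t, e⟩
    rw [hA, hx]
    have hu : ∀ l ∈ s e, (M.x t l)⁻¹ ∈ rA M h' (t, e) := by
      intro l hl
      have h1 : (M.x t l)⁻¹ = (∏ m ∈ (s e).erase l, M.x t m) * (h' t e)⁻¹ := by
        have h2 : h' t e = M.x t l * ∏ m ∈ (s e).erase l, M.x t m :=
          (Finset.mul_prod_erase _ _ hl).symm
        rw [h2]
        have h3 := M.x0 t l
        have h4 : ∏ m ∈ (s e).erase l, M.x t m ≠ 0 :=
          Finset.prod_ne_zero_iff.2 fun l _ => M.x0 t l
        field_simp
      rw [h1]
      exact (rA M h' (t, e)).mul_mem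
        (le_rA M h' (t, e) ((M.A t).prod_mem fun m _ => M.xA t m)) (inv_mem_rA M h' (t, e))
    cases e
    · -- the divisors with positive exponent are units
      left
      intro l
      by_cases hl : 0 < dc Γ a b l
      · right
        exact hu l (by simpa [s] using hl)
      · left
        simp only [dc] at hl
        omega
    · right
      intro l
      by_cases hl : dc Γ a b l < 0
      · right
        exact hu l (by simpa [s] using hl)
      · left
        simp only [dc] at hl
        omega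

theorem princ_aux3 (a b : G) : ∀ (W n : ℕ) {T I : Type} [Finite T] [Fintype I]
    [DecidableEq I] (M : LM R0 R T I) (Γ : G → I → ℤ),
    (∀ p, Bad M (dc Γ a b) p → wt (dc Γ a b) p ≤ W) →
    {p | Bad M (dc Γ a b) p ∧ wt (dc Γ a b) p = W}.ncard ≤ n →
    ∃ (T' I' : Type) (_ : Finite T') (_ : Fintype I') (_ : DecidableEq I')
      (M' : LM R0 R T' I') (Γ' : G → I' → ℤ), OV M Γ M' Γ' ∧ Cmp M' Γ' a b := by
  intro W
  induction W with
  | zero =>
    intro n T I _ _ _ M Γ hW hn
    refine cmp_of_no_bad3 a b M Γ ?_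
    intro p hp
    have := hW p hp
    have := hp.1
    omega
  | succ W ihW =>
    intro n
    induction n with
    | zero =>
      intro T I _ _ _ M Γ hW hn
      refine ihW _ M Γ ?_ le_rfl
      intro p hp
      have h1 := hW p hp
      rcases h1.lt_or_eq with h2 | h2
      · omega
      · exfalso
        have h3 : {p | Bad M (dc Γ a b) p ∧ wt (dc Γ a b) p = W + 1} = ∅ := by
          rw [← Set.ncard_eq_zero (Set.toFinite _)]
          omega
        have h4 : p ∈ {p | Bad M (dc Γ a b) p ∧ wt (dc Γ a b) p = W + 1} := ⟨hp, h2⟩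
        rw [h3] at h4
        exact h4
    | succ n ihn =>
      intro T I _ _ _ M Γ hW hn
      by_cases hex : ∃ p, Bad M (dc Γ a b) p ∧ wt (dc Γ a b) p = W + 1
      · obtain ⟨⟨i, j⟩, hb, hwt⟩ := hex
        have hij : i ≠ j := by
          rintro rfl
          obtain ⟨h1, h2⟩ := wt_pos.1 hb.1
          simp only at h1 h2
          omega
        obtain ⟨M', hA, hx, hH⟩ := exists_blowup M hij
        obtain ⟨hd1, hd2⟩ := dc_blowup i j Γ a b
        have key := bad_blowup M hij M' hA hx _ _ hd1 hd2 (W + 1) hW hb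
        obtain ⟨T'', I'', i1, i2, i3, M'', Γ'', hE, hC⟩ := ihn M' (fun a => bΓ i j (Γ a)) (by
          intro q hq
          rcases key q hq with h1 | ⟨l, l', h1, h2, h3, h4⟩
          · exact h1.le
          · rw [← h3]
            exact hW _ h2) (by
          have h5 : {q | Bad M' (dc (fun a => bΓ i j (Γ a)) a b) q ∧
              wt (dc (fun a => bΓ i j (Γ a)) a b) q = W + 1} ⊆
              (fun q : I × I => (some q.1, some q.2)) ''
                ({p | Bad M (dc Γ a b) p ∧ wt (dc Γ a b) p = W + 1} \ {(i, j)}) := by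
            rintro q ⟨hq, hq'⟩
            rcases key q hq with h1 | ⟨l, l', h1, h2, h3, h4⟩
            · omega
            · exact ⟨(l, l'), ⟨⟨h2, by rw [h3, hq']⟩, h4⟩, h1.symm⟩
          have h6 := Set.ncard_le_ncard h5 (Set.toFinite _)
          have h7 := Set.ncard_image_le (f := fun q : I × I => (some q.1, some q.2))
            (s := {p | Bad M (dc Γ a b) p ∧ wt (dc Γ a b) p = W + 1} \ {(i, j)}) (Set.toFinite _)
          have h8 := Set.ncard_sdiff_singleton_lt_of_mem
            (s := {p | Bad M (dc Γ a b) p ∧ wt (dc Γ a b) p = W + 1}) (a := (i, j)) ⟨hb, hwt⟩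
            (Set.toFinite _)
          omega)
        exact ⟨T'', I'', i1, i2, i3, M'', Γ'', OV.trans ⟨⟨Prod.fst, _, ov_blowup M hij M' hA hx,
          fun o l => by cases o <;> simp only [Θb] <;> split_ifs <;> norm_num, fun a o => sum_Θb hij (Γ a) o⟩, (ext_blowup M hij (fun _ : G => (1 : K)) Γ M' hA hx
            hH).cmp, fun S h => UQ.blow M hij M' hA hx h⟩ hE, hC⟩
      · refine ihW _ M Γ ?_ le_rfl
        intro p hp
        have h1 := hW p hp
        rcases h1.lt_or_eq with h2 | h2
        · omega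
        · exact absurd ⟨p, hp, h2⟩ hex

theorem princ_pair3 (a b : G) [Finite T] [Fintype I] [DecidableEq I]
    (M : LM R0 R T I) (Γ : G → I → ℤ) :
    ∃ (T' I' : Type) (_ : Finite T') (_ : Fintype I') (_ : DecidableEq I')
      (M' : LM R0 R T' I') (Γ' : G → I' → ℤ), OV M Γ M' Γ' ∧ Cmp M' Γ' a b := by
  refine princ_aux3 a b (Finset.univ.sup (wt (dc Γ a b))) _ M Γ ?_ le_rfl
  intro p _
  exact Finset.le_sup (Finset.mem_univ p)

/-- Principalization. -/
theorem princ_all3 [Finite G] [Finite T] [Fintype I] [DecidableEq I]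
    (M : LM R0 R T I) (Γ : G → I → ℤ) :
    ∃ (T' I' : Type) (_ : Finite T') (_ : Fintype I') (_ : DecidableEq I')
      (M' : LM R0 R T' I') (Γ' : G → I' → ℤ), OV M Γ M' Γ' ∧ ∀ a b, Cmp M' Γ' a b := by
  classical
  have : Fintype G := Fintype.ofFinite G
  have key : ∀ s : Finset (G × G), ∃ (T' I' : Type) (_ : Finite T') (_ : Fintype I')
      (_ : DecidableEq I') (M' : LM R0 R T' I') (Γ' : G → I' → ℤ), OV M Γ M' Γ' ∧
        ∀ p ∈ s, Cmp M' Γ' p.1 p.2 := by
    intro s
    induction s using Finset.induction_on with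
    | empty =>
      exact ⟨T, I, inferInstance, inferInstance, inferInstance, M, Γ, OV.refl M Γ, by simp⟩
    | insert q s hq ih =>
      obtain ⟨T1, I1, i1, i2, i3, M1, Γ1, hE1, hC1⟩ := ih
      obtain ⟨T2, I2, j1, j2, j3, M2, Γ2, hE2, hC2⟩ := princ_pair3 q.1 q.2 M1 Γ1
      refine ⟨T2, I2, j1, j2, j3, M2, Γ2, hE1.trans hE2, ?_⟩
      intro p hp
      rcases Finset.mem_insert.1 hp with rfl | hp
      · exact hC2
      · exact hE2.2.1 _ _ (hC1 p hp)
  obtain ⟨T', I', i1, i2, i3, M', Γ', hE, hC⟩ := key Finset.univ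
  exact ⟨T', I', i1, i2, i3, M', Γ', hE, fun a b => hC (a, b) (Finset.mem_univ _)⟩

end wt

/-- Principalization by a logarithmic modification with preservation of bounds. -/
theorem ovp_uq {k K : Type u} [Field k] [Field K] [Algebra k K] {R0 R : Subalgebra k K}
    {T I G : Type} [Finite T] [Fintype I] [Finite G] (M : LM R0 R T I) (Γ : G → I → ℤ) :
    ∃ (T' I' : Type) (_ : Finite T') (_ : Fintype I') (M' : LM R0 R T' I') (π : T' → T)
      (Θ : I' → I → ℤ), Ov M M' π Θ ∧ (∀ i' i, 0 ≤ Θ i' i) ∧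
        (∀ S : Subalgebra k K, UQ M S → UQ M' S) ∧
        ∀ a b, Cmp M' (fun a i' => ∑ i, Θ i' i * Γ a i) a b := by
  classical
  obtain ⟨T', I', i1, i2, i3, M', Γ', ⟨⟨π, Θ, h1, h0, h2⟩, h3, hS⟩, h4⟩ := princ_all3 M Γ
  refine ⟨T', I', i1, i2, M', π, Θ, h1, h0, hS, ?_⟩
  have h5 : (fun a i' => ∑ i, Θ i' i * Γ a i) = Γ' := by
    funext a i'
    exact (h2 a i').symm
  intro a b
  rw [h5]
  exact h4 a b

end Pool.Agent.TH214.V
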