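import Pool.Agent.TH214.V.Sub2

/-! Normal forms on subvarieties of the product of a torus with an arbitrary variety. -/

set_option autoImplicit false
set_option linter.unusedVariables false
set_option linter.unusedSectionVars false

universe u

open Pool.Agent.W558 Pool.Agent.W177.WD Pool.Agent.W973.CUT Pool.Agent.W973.CUT2

namespace Pool.Agent.TH214.V

section rel

variable {k E1 L K0 : Type u} [Field k] [Field E1] [Field L] [Field K0] [Algebra k E1]
  [Algebra k L] [Algebra k K0] {r : ℕ}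

/-- The ambient model and the subvariety. -/
theorem cutIn_rel {j1 : E1 →ₐ[k] L} {y1 : Fin r → L} (hinj : Function.Injective (evm j1 y1))
    {j1' : E1 →ₐ[k] K0} {y' : Fin r → K0} (hy' : ∀ j, y' j ≠ 0)
    (hgen : ∀ x : K0, ∃ a b : MvPolynomial (Fin r) E1,
      evm j1' y' b ≠ 0 ∧ x * evm j1' y' b = evm j1' y' a)
    {c d : ℕ} (up : ∀ b : Fin (c + d + 1) → L, ¬ AlgebraicIndependent k b)
    (dn : ∃ b : Fin d → K0, AlgebraicIndependent k b) :
    ∃ (Q : Subalgebra k L) (π : Q →ₐ[k] K0),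
      (∀ e, j1 e ∈ Q ∧ pq π (j1 e) = j1' e) ∧
      (∀ j, y1 j ∈ Q ∧ pq π (y1 j) = y' j) ∧
      ∀ {T I : Type} [Fintype I] (M : LM (⊥ : Subalgebra k L) ⊤ T I) (Y : Fin r → I → ℤ),
        Fn M y1 Y → PQ j1 M y1 → CutIn π c d M := by
  classical
  let ψ := evm j1 y1
  let ψ' := evm j1' y'
  let S : Submonoid (MvPolynomial (Fin r) E1) := (nonZeroDivisors K0).comap ψ'
  have hS : ∀ s, s ∈ S ↔ ψ' s ≠ 0 := fun s => by
    rw [Submonoid.mem_comap]
    exact mem_nonZeroDivisors_iff_ne_zero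
  have hle : ∀ a, ψ a = 0 → ψ' a = 0 := by
    intro a ha
    rw [(injective_iff_map_eq_zero _).1 hinj a ha, map_zero]
  obtain ⟨π, hπ⟩ := exists_pi ψ ψ' S (fun s hs => (hS s).1 hs) hle
  have hmap := fun a => pi_map hπ a
  have hpq : ∀ a, pq π (ψ a) = ψ' a := fun a => by
    rw [pq_of π (map_mem_QS a)]
    exact hmap a
  have hne : ∀ a, a ≠ 0 → ψ a ≠ 0 := fun a ha h => ha ((injective_iff_map_eq_zero _).1 hinj a h)
  have hinv : ∀ a, ψ' a ≠ 0 → (ψ a)⁻¹ ∈ QS ψ S := fun a ha =>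
    inv_mem_QS ((hS a).2 ha) (fun h => ha (hle a h))
  have hψC : ∀ e, ψ (MvPolynomial.C e) = j1 e := fun e => evm_C _ _ e
  have hψX : ∀ j, ψ (MvPolynomial.X j) = y1 j := fun j => evm_X _ _ j
  have hψC' : ∀ e, ψ' (MvPolynomial.C e) = j1' e := fun e => evm_C _ _ e
  have hψX' : ∀ j, ψ' (MvPolynomial.X j) = y' j := fun j => evm_X _ _ j
  have h1 : ∀ e, j1 e ∈ QS ψ S ∧ pq π (j1 e) = j1' e := by
    intro e
    rw [← hψC, ← hψC']
    exact ⟨map_mem_QS _, hpq _⟩
  have h2 : ∀ j, y1 j ∈ QS ψ S ∧ pq π (y1 j) = y' j := by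
    intro j
    rw [← hψX, ← hψX']
    exact ⟨map_mem_QS _, hpq _⟩
  have h3 : ∀ j, (y1 j)⁻¹ ∈ QS ψ S := by
    intro j
    rw [← hψX]
    exact hinv _ (by rw [hψX']; exact hy' j)
  refine ⟨QS ψ S, π, h1, h2, ?_⟩
  intro T I _ M Y hY hPQ
  have huq : UQ M (QS ψ S) := hPQ.uq _ (fun e => (h1 e).1) fun j => ⟨(h2 j).1, h3 j⟩
  -- clearing denominators
  have hcl : ∀ t, ∀ a, ∃ e ∈ M.A t, e ≠ 0 ∧ e⁻¹ ∈ QS ψ S ∧ ψ a * e ∈ M.A t := by
    intro t a
    induction a using MvPolynomial.induction_on with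
    | C e =>
      obtain ⟨D, hD, hD1, hD2⟩ := hPQ.fr t e
      refine ⟨j1 D, hD1, (_root_.map_ne_zero _).2 hD, ?_, ?_⟩
      · rw [← map_inv₀]
        exact (h1 _).1
      · rw [hψC, ← map_mul, mul_comm]
        exact hD2
    | add a b ha hb =>
      obtain ⟨e, he, he0, hei, hea⟩ := ha
      obtain ⟨e', he', he0', hei', heb⟩ := hb
      refine ⟨e * e', (M.A t).mul_mem he he', mul_ne_zero he0 he0', ?_, ?_⟩
      · rw [mul_inv]
        exact Subalgebra.mul_mem _ hei hei'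
      · have h4 : ψ (a + b) * (e * e') = (ψ a * e) * e' + (ψ b * e') * e := by
          rw [map_add]; ring
        rw [h4]
        exact (M.A t).add_mem ((M.A t).mul_mem hea he') ((M.A t).mul_mem heb he)
    | mul_X a j ha =>
      obtain ⟨e, he, he0, hei, hea⟩ := ha
      obtain ⟨w, w0, wA, wi, hw⟩ := hY j t
      have hx0 := M.x0 t
      have hxA := M.xA t
      refine ⟨e * ∏ i, M.x t i ^ |Y j i|, (M.A t).mul_mem he ((M.A t).prod_mem fun i _ =>
        zpow_mem_of (hxA i) (Or.inl (abs_nonneg _))), mul_ne_zero he0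
          (Finset.prod_ne_zero_iff.2 fun i _ => zpow_ne_zero _ (hx0 i)), ?_, ?_⟩
      · rw [mul_inv, ← Finset.prod_inv_distrib]
        refine Subalgebra.mul_mem _ hei (Subalgebra.prod_mem _ fun i _ => ?_)
        rw [← zpow_neg]
        exact zpow_mem_of (huq.1 t (hxA i)) (Or.inr (huq.2 t i))
      · have h4 : ψ (a * MvPolynomial.X j) * (e * ∏ i, M.x t i ^ |Y j i|) =
            (ψ a * e) * (w * ∏ i, M.x t i ^ (Y j i + |Y j i|)) := by
          have h5 : ∏ i, M.x t i ^ (Y j i + |Y j i|) =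
              (∏ i, M.x t i ^ Y j i) * ∏ i, M.x t i ^ |Y j i| := by
            rw [← Finset.prod_mul_distrib]
            exact Finset.prod_congr rfl fun i _ => zpow_add₀ (hx0 i) _ _
          rw [map_mul, hψX, h5, hw]
          ring
        rw [h4]
        refine (M.A t).mul_mem hea ((M.A t).mul_mem wA ((M.A t).prod_mem fun i _ =>
          zpow_mem_of (hxA i) (Or.inl ?_)))
        have := neg_abs_le (Y j i)
        omega
  refine ⟨huq, ?_, ?_, up, dn⟩
  · rintro t s ⟨a, b, hb, hb0, hab⟩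
    obtain ⟨e, he, he0, hei, hea⟩ := hcl t a
    obtain ⟨e', he', he0', hei', heb⟩ := hcl t b
    refine ⟨(ψ b * e') * e, (M.A t).mul_mem heb he, mul_ne_zero (mul_ne_zero hb0 he0') he0, ?_, ?_⟩
    · rw [mul_inv, mul_inv]
      exact Subalgebra.mul_mem _ (Subalgebra.mul_mem _ (inv_mem_QS hb hb0) hei') hei
    · have h4 : s * (ψ b * e' * e) = (ψ a * e) * e' := by
        rw [← hab]; ring
      rw [h4]
      exact (M.A t).mul_mem hea he'
  · intro x
    obtain ⟨a, b, hb, hab⟩ := hgen x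
    refine ⟨⟨ψ a, map_mem_QS a⟩, ⟨ψ b, map_mem_QS b⟩, ?_, ?_⟩
    · rw [hmap]
      exact hb
    · rw [hmap, hmap]
      exact hab

end rel

section rel

variable {k E1 L K0 : Type u} [Field k] [Field E1] [Field L] [Field K0] [Algebra k E1]
  [Algebra k L] [Algebra k K0] {r : ℕ} {ι B : Type} [Fintype B]

/-- Joint Artin-Schreier normal form on the subvariety. -/
theorem gma_rel (p : ℕ) [Fact p.Prime] {j1 : E1 →ₐ[k] L} {y1 : Fin r → L}
    (hinj : Function.Injective (evm j1 y1))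
    {j1' : E1 →ₐ[k] K0} {y' : Fin r → K0} (hy' : ∀ j, y' j ≠ 0)
    (hgen : ∀ x : K0, ∃ a b : MvPolynomial (Fin r) E1,
      evm j1' y' b ≠ 0 ∧ x * evm j1' y' b = evm j1' y' a)
    {c d : ℕ} (up : ∀ b : Fin (c + d + 1) → L, ¬ AlgebraicIndependent k b)
    (dn : ∃ b : Fin d → K0, AlgebraicIndependent k b)
    {f : ι → E1} {g : B → E1}
    (h : GMDQ p k j1 (fun l => j1 (f l)) (fun b => j1 (g b)) y1)
    {σ τ : Type} [Finite σ] [Finite τ] (G : σ → (B ⊕ Fin r → ℤ) →₀ k)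
    (F : τ → (B ⊕ Fin r → ℤ) →₀ k) (tw : τ → Prop)
    (hG : ∀ s, lv (G s) (Sum.elim (fun b => j1' (g b)) y') = 0)
    (hND : NDV G F (fun q => q.isRight = true) tw c)
    (hun : ∀ t, ¬ tw t → (∀ s, ∀ m ∈ (G s).support, ∀ j : B ⊕ Fin r, ¬ j.isRight = true →
        m j = 0) ∧ ∀ m ∈ (F t).support, ∀ j : B ⊕ Fin r, ¬ j.isRight = true → m j = 0) :
    GMA p k (Sum.elim (fun l => j1' (f l))
      (fun t => lv (F t) (Sum.elim (fun b => j1' (g b)) y')))
      (Sum.elim (fun b => j1' (g b)) y') := by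
  obtain ⟨T, I, hT, hI, M, n, a, hh, Γ, Y, hN, hFg, hFy, hD, hPQ, ha⟩ := h
  obtain ⟨Q, π, h1, h2, h3⟩ := cutIn_rel hinj hy' hgen up dn
  have hin := h3 M Y hFy hPQ
  have hZ : Fn M (Sum.elim (fun b => j1 (g b)) y1) (Sum.elim Γ Y) := by
    rintro (b | j)
    · exact hFg b
    · exact hFy j
  have hpz : (fun j => pq π (Sum.elim (fun b => j1 (g b)) y1 j)) =
      Sum.elim (fun b => j1' (g b)) y' := by
    funext j
    rcases j with b | j
    · exact (h1 _).2
    · exact (h2 _).2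
  have hzQ := fn_memQ (nonempty_T M) hin.uq hZ
  have h4 := cut_gma loc_main p hN hZ (Dual.dualV hD) hin (fun t j => by
    obtain ⟨e, he⟩ := ha t j
    rw [he]
    exact (h1 e).1) G F tw (fun s => by
      rw [pq_lv π (fun j => (hzQ j).1) (fun j => (hzQ j).2.1) (fun j => (hzQ j).2.2), hpz]
      exact hG s) hND hun
  rw [hpz] at h4
  have h5 : (fun j => pq π (j1 (f j))) = fun l => j1' (f l) :=
    funext fun l => (h1 _).2
  rw [h5] at h4
  exact h4

/-- Joint normal form on the subvariety. -/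
theorem gm_rel (p : ℕ) [Fact p.Prime] {j1 : E1 →ₐ[k] L} {y1 : Fin r → L}
    (hinj : Function.Injective (evm j1 y1))
    {j1' : E1 →ₐ[k] K0} {y' : Fin r → K0} (hy' : ∀ j, y' j ≠ 0)
    (hgen : ∀ x : K0, ∃ a b : MvPolynomial (Fin r) E1,
      evm j1' y' b ≠ 0 ∧ x * evm j1' y' b = evm j1' y' a)
    {c d : ℕ} (up : ∀ b : Fin (c + d + 1) → L, ¬ AlgebraicIndependent k b)
    (dn : ∃ b : Fin d → K0, AlgebraicIndependent k b)
    {f : ι → E1} {g : B → E1}
    (h : GMJDQ p k j1 (fun l => j1 (f l)) (fun b => j1 (g b)) y1)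
    {σ τ : Type} [Finite σ] [Finite τ] (G : σ → (B ⊕ Fin r → ℤ) →₀ k)
    (F : τ → (B ⊕ Fin r → ℤ) →₀ k)
    (hG : ∀ s, lv (G s) (Sum.elim (fun b => j1' (g b)) y') = 0)
    (hND : NDV G F (fun q => q.isRight = true) (fun _ => True) c) :
    GM p k (Sum.elim (fun l => j1' (f l))
      (fun t => lv (F t) (Sum.elim (fun b => j1' (g b)) y')))
      (Sum.elim (fun b => j1' (g b)) y') := by
  obtain ⟨T, I, hT, hI, M, n, a, hh, Γ, Y, hN, hFg, hFy, hD, hPQ, ha⟩ := h
  obtain ⟨Q, π, h1, h2, h3⟩ := cutIn_rel hinj hy' hgen up dn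
  have hin := h3 M Y hFy hPQ
  have hZ : Fn M (Sum.elim (fun b => j1 (g b)) y1) (Sum.elim Γ Y) := by
    rintro (b | j)
    · exact hFg b
    · exact hFy j
  have hpz : (fun j => pq π (Sum.elim (fun b => j1 (g b)) y1 j)) =
      Sum.elim (fun b => j1' (g b)) y' := by
    funext j
    rcases j with b | j
    · exact (h1 _).2
    · exact (h2 _).2
  have hzQ := fn_memQ (nonempty_T M) hin.uq hZ
  have h4 := cut_gm loc_main p hN hZ (Dual.dualV hD) hin (fun t j => by
    obtain ⟨e, he⟩ := ha t j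
    rw [he]
    exact (h1 e).1) G F (fun s => by
      rw [pq_lv π (fun j => (hzQ j).1) (fun j => (hzQ j).2.1) (fun j => (hzQ j).2.2), hpz]
      exact hG s) hND
  rw [hpz] at h4
  have h5 : (fun j => pq π (j1 (f j))) = fun l => j1' (f l) :=
    funext fun l => (h1 _).2
  rw [h5] at h4
  exact h4

end rel

end Pool.Agent.TH214.V
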