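import Pool.Agent.TH214.V.Rel

/-! The field of rational functions over an arbitrary field. -/

set_option autoImplicit false
set_option linter.unusedVariables false
set_option linter.unusedSectionVars false

universe u

open Pool.Agent.W558 TensorProduct

namespace Pool.Agent.TH214.V

section amb

variable {k E1 : Type u} [Field k] [Field E1] [Algebra k E1] {r : ℕ}

/-- The elements `X j`. -/
noncomputable def ly (E1 : Type u) [Field E1] (r : ℕ) (j : Fin r) : RF E1 (Fin r) :=
  algebraMap (MvPolynomial (Fin r) E1) (RF E1 (Fin r)) (MvPolynomial.X j)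

lemma ly_ind : AlgebraicIndependent k (ly E1 r) := by
  have h1 : AlgebraicIndependent E1 (ly E1 r) := (rat_RF (k := E1) (Fin r)).ind
  exact h1.restrictScalars (algebraMap k E1).injective

lemma ly_trans (a : MvPolynomial (Fin r) E1) :
    evm (IsScalarTower.toAlgHom k E1 (RF E1 (Fin r))) (ly E1 r) a =
      algebraMap (MvPolynomial (Fin r) E1) (RF E1 (Fin r)) a := by
  induction a using MvPolynomial.induction_on with
  | C e =>
    rw [evm_C]
    rfl
  | add a b ha hb => rw [map_add, map_add, ha, hb]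
  | mul_X a j ha =>
    rw [map_mul, map_mul, ha, evm_X]
    rfl

lemma ly_evm_inj : Function.Injective
    (evm (IsScalarTower.toAlgHom k E1 (RF E1 (Fin r))) (ly E1 r)) := by
  intro a b hab
  rw [ly_trans, ly_trans] at hab
  exact IsFractionRing.injective _ _ hab

lemma rsub_ly (P : MvPolynomial (Fin r) k) :
    rsub (ly_ind (k := k) (E1 := E1) (r := r)) (algebraMap (MvPolynomial (Fin r) k)
      (RF k (Fin r)) P) = algebraMap (MvPolynomial (Fin r) E1) (RF E1 (Fin r))
        (MvPolynomial.map (algebraMap k E1) P) := by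
  rw [rsub_algebraMap]
  induction P using MvPolynomial.induction_on with
  | C c =>
    rw [MvPolynomial.aeval_C, MvPolynomial.map_C]
    rfl
  | add a b ha hb => rw [map_add, map_add, map_add, ha, hb]
  | mul_X a j ha =>
    rw [map_mul, map_mul, map_mul, ha, MvPolynomial.aeval_X, MvPolynomial.map_X]
    rfl

/-- The product map on polynomials. -/
lemma pm_poly (z : E1 ⊗[k] MvPolynomial (Fin r) k) :
    Algebra.TensorProduct.productMap (IsScalarTower.toAlgHom k E1 (RF E1 (Fin r)))
      (rsub (ly_ind (k := k) (E1 := E1) (r := r)))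
      (Algebra.TensorProduct.map (AlgHom.id k E1)
        (IsScalarTower.toAlgHom k (MvPolynomial (Fin r) k) (RF k (Fin r))) z) =
      algebraMap (MvPolynomial (Fin r) E1) (RF E1 (Fin r))
        (MvPolynomial.algebraTensorAlgEquiv k E1 z) := by
  induction z using TensorProduct.induction_on with
  | zero => simp only [map_zero]
  | add a b ha hb => simp only [map_add, ha, hb]
  | tmul e P =>
    rw [Algebra.TensorProduct.map_tmul, Algebra.TensorProduct.productMap_apply_tmul,
      MvPolynomial.algebraTensorAlgEquiv_tmul]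
    change _ * rsub (ly_ind (k := k) (E1 := E1) (r := r)) (algebraMap (MvPolynomial (Fin r) k)
      (RF k (Fin r)) P) = _
    rw [rsub_ly, MvPolynomial.smul_eq_C_mul, map_mul]
    rfl

lemma pm_clear (z : E1 ⊗[k] RF k (Fin r)) : ∃ (s : MvPolynomial (Fin r) k)
    (z' : E1 ⊗[k] MvPolynomial (Fin r) k), s ≠ 0 ∧
      ((1 : E1) ⊗ₜ[k] algebraMap (MvPolynomial (Fin r) k) (RF k (Fin r)) s) * z =
        Algebra.TensorProduct.map (AlgHom.id k E1)
          (IsScalarTower.toAlgHom k (MvPolynomial (Fin r) k) (RF k (Fin r))) z' := by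
  induction z using TensorProduct.induction_on with
  | zero => exact ⟨1, 0, one_ne_zero, by rw [mul_zero, map_zero]⟩
  | add a b ha hb =>
    obtain ⟨s, a', hs, h1⟩ := ha
    obtain ⟨t, b', ht, h2⟩ := hb
    refine ⟨s * t, ((1 : E1) ⊗ₜ[k] t) * a' + ((1 : E1) ⊗ₜ[k] s) * b', mul_ne_zero hs ht, ?_⟩
    rw [map_add, map_mul (Algebra.TensorProduct.map _ _) _ a',
      map_mul (Algebra.TensorProduct.map _ _) _ b', ← h1, ← h2, Algebra.TensorProduct.map_tmul,
      Algebra.TensorProduct.map_tmul]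
    have h3 : ((1 : E1) ⊗ₜ[k] algebraMap (MvPolynomial (Fin r) k) (RF k (Fin r)) (s * t)) =
        ((1 : E1) ⊗ₜ[k] algebraMap (MvPolynomial (Fin r) k) (RF k (Fin r)) s) *
          ((1 : E1) ⊗ₜ[k] algebraMap (MvPolynomial (Fin r) k) (RF k (Fin r)) t) := by
      rw [Algebra.TensorProduct.tmul_mul_tmul, one_mul, map_mul]
    rw [h3]
    change _ = ((1 : E1) ⊗ₜ[k] algebraMap (MvPolynomial (Fin r) k) (RF k (Fin r)) t) * _ +
      ((1 : E1) ⊗ₜ[k] algebraMap (MvPolynomial (Fin r) k) (RF k (Fin r)) s) * _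
    ring
  | tmul e q =>
    obtain ⟨P, s, hs, rfl⟩ := IsFractionRing.div_surjective (A := MvPolynomial (Fin r) k) q
    have hs0 := nonZeroDivisors.ne_zero hs
    refine ⟨s, e ⊗ₜ P, hs0, ?_⟩
    rw [Algebra.TensorProduct.tmul_mul_tmul, one_mul, Algebra.TensorProduct.map_tmul]
    congr 1
    change _ = algebraMap (MvPolynomial (Fin r) k) (RF k (Fin r)) P
    rw [mul_div_cancel₀]
    exact (FaithfulSMul.algebraMap_eq_zero_iff _ _).not.2 hs0

lemma pm_inj : Function.Injective (Algebra.TensorProduct.productMap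
    (IsScalarTower.toAlgHom k E1 (RF E1 (Fin r))) (rsub (ly_ind (k := k) (E1 := E1) (r := r)))) := by
  rw [injective_iff_map_eq_zero]
  intro z hz
  obtain ⟨s, z', hs, h1⟩ := pm_clear z
  have h2 : z' = 0 := by
    have h3 := pm_poly z'
    rw [← h1, map_mul, hz, mul_zero] at h3
    have h4 := (IsFractionRing.to_map_eq_zero_iff (R := MvPolynomial (Fin r) E1)
      (K := RF E1 (Fin r))).1 h3.symm
    exact (map_eq_zero_iff _ (MvPolynomial.algebraTensorAlgEquiv k E1).injective).1 h4
  rw [h2, map_zero] at h1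
  have hs0 : algebraMap (MvPolynomial (Fin r) k) (RF k (Fin r)) s ≠ 0 :=
    (FaithfulSMul.algebraMap_eq_zero_iff _ _).not.2 hs
  have h3 : ((1 : E1) ⊗ₜ[k] (algebraMap (MvPolynomial (Fin r) k) (RF k (Fin r)) s)⁻¹) *
      ((1 : E1) ⊗ₜ[k] algebraMap (MvPolynomial (Fin r) k) (RF k (Fin r)) s) = 1 := by
    rw [Algebra.TensorProduct.tmul_mul_tmul, one_mul, inv_mul_cancel₀ hs0]
    rfl
  rw [← one_mul z, ← h3, mul_assoc, h1, mul_zero]

lemma pm_frac (x : RF E1 (Fin r)) : ∃ a b : E1 ⊗[k] RF k (Fin r), b ≠ 0 ∧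
    x * Algebra.TensorProduct.productMap (IsScalarTower.toAlgHom k E1 (RF E1 (Fin r)))
      (rsub (ly_ind (k := k) (E1 := E1) (r := r))) b =
      Algebra.TensorProduct.productMap (IsScalarTower.toAlgHom k E1 (RF E1 (Fin r)))
      (rsub (ly_ind (k := k) (E1 := E1) (r := r))) a := by
  obtain ⟨a, b, hb, rfl⟩ := IsFractionRing.div_surjective (A := MvPolynomial (Fin r) E1) x
  have hb0 := nonZeroDivisors.ne_zero hb
  have h1 : ∀ a : MvPolynomial (Fin r) E1, ∃ a' : E1 ⊗[k] RF k (Fin r),
      Algebra.TensorProduct.productMap (IsScalarTower.toAlgHom k E1 (RF E1 (Fin r)))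
      (rsub (ly_ind (k := k) (E1 := E1) (r := r))) a' =
        algebraMap (MvPolynomial (Fin r) E1) (RF E1 (Fin r)) a := by
    intro a
    refine ⟨Algebra.TensorProduct.map (AlgHom.id k E1)
        (IsScalarTower.toAlgHom k (MvPolynomial (Fin r) k) (RF k (Fin r)))
        ((MvPolynomial.algebraTensorAlgEquiv k E1).symm a), ?_⟩
    rw [pm_poly, AlgEquiv.apply_symm_apply]
  obtain ⟨a', ha⟩ := h1 a
  obtain ⟨b', hb'⟩ := h1 b
  have hbm : algebraMap (MvPolynomial (Fin r) E1) (RF E1 (Fin r)) b ≠ 0 :=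
    (FaithfulSMul.algebraMap_eq_zero_iff _ _).not.2 hb0
  refine ⟨a', b', ?_, ?_⟩
  · rintro rfl
    rw [map_zero] at hb'
    exact hbm hb'.symm
  · rw [ha, hb', div_mul_cancel₀ _ hbm]

/-- Bound for algebraically independent elements. -/
lemma up_RF {d0 : ℕ} (htr : Algebra.trdeg k E1 = d0) {N : ℕ} (hN : d0 + r < N)
    (b : Fin N → RF E1 (Fin r)) : ¬ AlgebraicIndependent k b := by
  intro hb
  have h1 : Algebra.trdeg E1 (MvPolynomial (Fin r) E1) = r := by
    rw [MvPolynomial.trdeg_of_isDomain]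
    simp
  have h2 : Algebra.trdeg k (MvPolynomial (Fin r) E1) = d0 + r := by
    rw [← _root_.trdeg_add_eq k E1, htr, h1]
  have halg : Algebra.IsAlgebraic (MvPolynomial (Fin r) E1) (RF E1 (Fin r)) :=
    IsLocalization.isAlgebraic _ (nonZeroDivisors (MvPolynomial (Fin r) E1))
  have h3 : Algebra.trdeg k (RF E1 (Fin r)) = d0 + r := by
    rw [← _root_.trdeg_add_eq k (MvPolynomial (Fin r) E1), h2, _root_.trdeg_eq_zero, add_zero]
  have h4 := hb.lift_cardinalMk_le_trdeg
  rw [h3] at h4
  simp only [Cardinal.mk_fintype, Fintype.card_fin, Cardinal.lift_natCast] at h4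
  have h5 : ((N : ℕ) : Cardinal.{u}) ≤ ((d0 + r : ℕ) : Cardinal.{u}) := by
    push_cast
    simpa using h4
  rw [Nat.cast_le] at h5
  omega

end amb

end Pool.Agent.TH214.V
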