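import Pool.Agent.TH214.V.RelAmb

/-! Relative theorem: normal forms on schoen subvarieties of the product of a torus with an
arbitrary variety with a normal form. -/

set_option autoImplicit false
set_option linter.unusedVariables false
set_option linter.unusedSectionVars false

universe u

open Pool.Agent.W558 TensorProduct

namespace Pool.Agent.TH214.V

section rel

variable {k E1 K0 : Type u} [Field k] [Field E1] [Field K0] [Algebra k E1]
  [Algebra k K0] {r : ℕ} {ι B : Type} [Fintype B]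

/-- Joint Artin-Schreier normal form on the subvariety. -/
theorem gma_relative (p : ℕ) [Fact p.Prime] {d0 : ℕ} (htr : Algebra.trdeg k E1 = d0)
    {j1' : E1 →ₐ[k] K0} {y' : Fin r → K0} (hy' : ∀ j, y' j ≠ 0)
    (hgen : ∀ x : K0, ∃ a b : MvPolynomial (Fin r) E1,
      evm j1' y' b ≠ 0 ∧ x * evm j1' y' b = evm j1' y' a)
    {c d : ℕ} (hcd : c + d = d0 + r)
    (dn : ∃ b : Fin d → K0, AlgebraicIndependent k b)
    {f : ι → E1} {g : B → E1} (h : GMA p k f g)
    {σ τ : Type} [Finite σ] [Finite τ] (G : σ → (B ⊕ Fin r → ℤ) →₀ k)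
    (F : τ → (B ⊕ Fin r → ℤ) →₀ k) (tw : τ → Prop)
    (hG : ∀ s, lv (G s) (Sum.elim (fun b => j1' (g b)) y') = 0)
    (hND : NDV G F (fun q => q.isRight = true) tw c)
    (hun : ∀ t, ¬ tw t → (∀ s, ∀ m ∈ (G s).support, ∀ j : B ⊕ Fin r, ¬ j.isRight = true →
        m j = 0) ∧ ∀ m ∈ (F t).support, ∀ j : B ⊕ Fin r, ¬ j.isRight = true → m j = 0) :
    GMA p k (Sum.elim (fun l => j1' (f l))
      (fun t => lv (F t) (Sum.elim (fun b => j1' (g b)) y')))
      (Sum.elim (fun b => j1' (g b)) y') := by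
  have h1 := gmd_prodQ (IsScalarTower.toAlgHom k E1 (RF E1 (Fin r)))
    (rsub (ly_ind (k := k) (E1 := E1) (r := r))) pm_inj pm_frac h (rat_RF (Fin r))
  have h2 : (fun j => rsub (ly_ind (k := k) (E1 := E1) (r := r))
      (algebraMap (MvPolynomial (Fin r) k) (RF k (Fin r)) (MvPolynomial.X j))) = ly E1 r :=
    funext fun j => rsub_X _ j
  rw [h2] at h1
  exact gma_rel p ly_evm_inj hy' hgen (fun b => up_RF htr (by omega) b) dn h1 G F tw hG hND hun

/-- Joint normal form on the subvariety. -/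
theorem gm_relative (p : ℕ) [Fact p.Prime] {d0 : ℕ} (htr : Algebra.trdeg k E1 = d0)
    {j1' : E1 →ₐ[k] K0} {y' : Fin r → K0} (hy' : ∀ j, y' j ≠ 0)
    (hgen : ∀ x : K0, ∃ a b : MvPolynomial (Fin r) E1,
      evm j1' y' b ≠ 0 ∧ x * evm j1' y' b = evm j1' y' a)
    {c d : ℕ} (hcd : c + d = d0 + r)
    (dn : ∃ b : Fin d → K0, AlgebraicIndependent k b)
    {f : ι → E1} {g : B → E1} (h : GM p k f g)
    {σ τ : Type} [Finite σ] [Finite τ] (G : σ → (B ⊕ Fin r → ℤ) →₀ k)
    (F : τ → (B ⊕ Fin r → ℤ) →₀ k)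
    (hG : ∀ s, lv (G s) (Sum.elim (fun b => j1' (g b)) y') = 0)
    (hND : NDV G F (fun q => q.isRight = true) (fun _ => True) c) :
    GM p k (Sum.elim (fun l => j1' (f l))
      (fun t => lv (F t) (Sum.elim (fun b => j1' (g b)) y')))
      (Sum.elim (fun b => j1' (g b)) y') := by
  have h1 := gmjd_prodQ (IsScalarTower.toAlgHom k E1 (RF E1 (Fin r)))
    (rsub (ly_ind (k := k) (E1 := E1) (r := r))) pm_inj pm_frac h (rat_RF (Fin r))
  have h2 : (fun j => rsub (ly_ind (k := k) (E1 := E1) (r := r))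
      (algebraMap (MvPolynomial (Fin r) k) (RF k (Fin r)) (MvPolynomial.X j))) = ly E1 r :=
    funext fun j => rsub_X _ j
  rw [h2] at h1
  exact gm_rel p ly_evm_inj hy' hgen (fun b => up_RF htr (by omega) b) dn h1 G F hG hND

end rel

end Pool.Agent.TH214.V
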