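import Pool.Agent.TH214.V.Cut2
import Pool.Agent.TH214.V.OvpQ
import Pool.Agent.TH214.TwistJ

/-! Values and logarithmic differentials of Laurent polynomials at points of a model. -/

set_option autoImplicit false
set_option linter.unusedVariables false
set_option linter.unusedSectionVars false

universe u

open Pool.Agent.W558 Pool.Agent.W177.WD Pool.Agent.W973.CUT Pool.Agent.W973.CUT2

namespace Pool.Agent.TH214.V

/-- The value of the Laurent polynomial `F` at `z`. -/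
noncomputable def lv {k K : Type u} [Field k] [Field K] [Algebra k K] {J : Type} [Fintype J]
    (F : (J → ℤ) →₀ k) (z : J → K) : K := ∑ m ∈ F.support, F m • ∏ j, z j ^ m j

section point

variable {k K : Type u} [Field k] [Field K] [Algebra k K] {A : Subalgebra k K} {κ : Type u}
  [Field κ] [Algebra k κ] (φ : A →ₐ[k] κ) {I J : Type} [Fintype I] [Fintype J] {x : I → K}
  (hxA : ∀ i, x i ∈ A) (hx0 : ∀ i, x i ≠ 0)

variable {y w : J → K} (Y : J → I → ℤ) (hw0 : ∀ j, w j ≠ 0) (hwA : ∀ j, w j ∈ A)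
  (hwi : ∀ j, (w j)⁻¹ ∈ A) (hy : ∀ j, y j = w j * ∏ i, x i ^ Y j i)

include hw0 hwA hwi hy hx0 in
open Classical in
/-- The value of a Laurent polynomial. -/
lemma val_twist (G : (J → ℤ) →₀ k) (n : I → ℤ) (hn : ∀ m ∈ G.support, ∀ i, n i ≤ gm Y 0 m i) :
    ∃ c : κ, c ≠ 0 ∧ ∀ hh : lv G y * ∏ i, x i ^ (-n i) ∈ A,
        φ ⟨_, hh⟩ = if (∃ m ∈ G.support, ∀ i, φ ⟨x i, hxA i⟩ = 0 → gm Y 0 m i = n i) then
          c * vl G (ls φ hxA Y) (zp φ hxA hwA Y) else 0 := by
  refine ⟨∏ i, qv φ hxA i ^ (- n i),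
    (Finset.prod_ne_zero_iff.2 fun i _ => zpow_ne_zero _ (qv_ne φ hxA i)), ?_⟩
  intro hh
  have h11 : (1 : K)⁻¹ ∈ A := by rw [inv_one]; exact A.one_mem
  have hpv := fun m (hm : m ∈ G.support) =>
    pv_term φ hxA hx0 Y hw0 hwA hwi hy (b := 1) (wb := 1) 0 one_ne_zero A.one_mem h11
      (by simp) n m (hn m hm)
  have hsum : lv G y * ∏ i, x i ^ (-n i) =
      ∑ m ∈ G.support, G m • (1 * (∏ j, y j ^ m j) * ∏ i, x i ^ (-n i)) := by
    unfold lv
    rw [Finset.sum_mul]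
    refine Finset.sum_congr rfl fun m _ => ?_
    simp only [Algebra.smul_def]
    ring
  have hφ1 : φ ⟨1, A.one_mem⟩ = 1 := map_one φ
  have key : φ ⟨_, hh⟩ = ∑ m ∈ G.support, algebraMap k κ (G m) *
      ((if (∀ i, φ ⟨x i, hxA i⟩ = 0 → gm Y 0 m i = n i) then
        (∏ i, qv φ hxA i ^ (- n i)) * ∏ j, zp φ hxA hwA Y j ^ m j else 0)) := by
    have h1 : ∀ S : Finset (J → ℤ), (hS : S ⊆ G.support) →
        ∃ h : ∑ m ∈ S, G m • (1 * (∏ j, y j ^ m j) * ∏ i, x i ^ (-n i)) ∈ A,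
        φ ⟨_, h⟩ = ∑ m ∈ S, algebraMap k κ (G m) *
          ((if (∀ i, φ ⟨x i, hxA i⟩ = 0 → gm Y 0 m i = n i) then
            (∏ i, qv φ hxA i ^ (- n i)) * ∏ j, zp φ hxA hwA Y j ^ m j else 0)) := by
      intro S
      induction S using Finset.induction_on with
      | empty =>
        intro _
        refine ⟨by rw [Finset.sum_empty]; exact A.zero_mem, ?_⟩
        have : (⟨∑ m ∈ (∅ : Finset (J → ℤ)), G m • (1 * (∏ j, y j ^ m j) * ∏ i, x i ^ (-n i)),
            by rw [Finset.sum_empty]; exact A.zero_mem⟩ : A) = 0 := Subtype.ext (by simp)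
        exact ((congrArg φ this).trans (map_zero φ)).trans Finset.sum_empty.symm
      | insert b S hb ih =>
        intro hS
        obtain ⟨h2, h3⟩ := ih fun m hm => hS (Finset.mem_insert_of_mem hm)
        obtain ⟨h4, h5⟩ := hpv b (hS (Finset.mem_insert_self b S))
        have h6 : ∑ m ∈ insert b S, G m • (1 * (∏ j, y j ^ m j) * ∏ i, x i ^ (-n i)) =
            G b • (1 * (∏ j, y j ^ b j) * ∏ i, x i ^ (-n i)) +
              ∑ m ∈ S, G m • (1 * (∏ j, y j ^ m j) * ∏ i, x i ^ (-n i)) :=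
          Finset.sum_insert hb
        have h7 : ∑ m ∈ insert b S, G m • (1 * (∏ j, y j ^ m j) * ∏ i, x i ^ (-n i)) ∈ A := by
          rw [h6]
          exact A.add_mem (A.smul_mem h4 _) h2
        refine ⟨h7, ?_⟩
        have h8 : (⟨_, h7⟩ : A) = G b • ⟨_, h4⟩ + ⟨_, h2⟩ := Subtype.ext h6
        have h9 : ∑ m ∈ insert b S, algebraMap k κ (G m) *
          ((if (∀ i, φ ⟨x i, hxA i⟩ = 0 → gm Y 0 m i = n i) then
            (∏ i, qv φ hxA i ^ (- n i)) * ∏ j, zp φ hxA hwA Y j ^ m j else 0)) =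
            algebraMap k κ (G b) *
          ((if (∀ i, φ ⟨x i, hxA i⟩ = 0 → gm Y 0 b i = n i) then
            (∏ i, qv φ hxA i ^ (- n i)) * ∏ j, zp φ hxA hwA Y j ^ b j else 0)) +
            ∑ m ∈ S, algebraMap k κ (G m) *
          ((if (∀ i, φ ⟨x i, hxA i⟩ = 0 → gm Y 0 m i = n i) then
            (∏ i, qv φ hxA i ^ (- n i)) * ∏ j, zp φ hxA hwA Y j ^ m j else 0)) :=
          Finset.sum_insert hb
        rw [h9, h8, map_add, h3, map_smul, h5, Algebra.smul_def]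
        congr 2
        split_ifs
        · rw [hφ1, one_mul]
          congr 1
          refine Finset.prod_congr rfl fun i _ => ?_
          simp
        · rfl
    obtain ⟨h2, h3⟩ := h1 G.support (Finset.Subset.refl _)
    rw [← h3]
    congr 1
    exact Subtype.ext hsum
  rw [key]
  split_ifs with hc
  · obtain ⟨m0, hm0, h0⟩ := hc
    unfold vl
    have hf : face G (ls φ hxA Y) = G.support.filter
        (fun m => ∀ i, φ ⟨x i, hxA i⟩ = 0 → gm Y 0 m i = n i) := by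
      ext m
      rw [Finset.mem_filter]
      constructor
      · intro hm
        have hm' : m ∈ G.support := (Finset.mem_filter.1 hm).1
        exact ⟨hm', (face_eq φ hxA Y 0 G n hn m0 hm0 h0 m hm').2 hm⟩
      · rintro ⟨hm, h⟩
        exact (face_eq φ hxA Y 0 G n hn m0 hm0 h0 m hm).1 h
    rw [hf, Finset.sum_filter, Finset.mul_sum]
    refine Finset.sum_congr rfl fun m _ => ?_
    split_ifs
    · ring
    · ring
  · push Not at hc
    refine Finset.sum_eq_zero fun m hm => ?_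
    obtain ⟨i, hi, hi'⟩ := hc m hm
    rw [if_neg, mul_zero]
    intro h
    exact hi' (h i hi)

include hw0 hwA hwi hy hx0 in
open Classical in
/-- The logarithmic differential of a Laurent polynomial. -/
lemma om_lv (G : (J → ℤ) →₀ k) (n : I → ℤ) (hn : ∀ m ∈ G.support, ∀ i, n i ≤ gm Y 0 m i) :
    ∃ c : κ, c ≠ 0 ∧ ∀ (v : LT φ x) (a : J → κ), (∀ j, LGF v (Y j) (y j) (a j)) →
      ∀ hh : lv G y * ∏ i, x i ^ (-n i) ∈ A,
        om v n hh = if (∃ m ∈ G.support, ∀ i, φ ⟨x i, hxA i⟩ = 0 → gm Y 0 m i = n i) then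
          c * der G (ls φ hxA Y) (zp φ hxA hwA Y) a else 0 := by
  have h11 : (1 : K)⁻¹ ∈ A := by rw [inv_one]; exact A.one_mem
  obtain ⟨c, c0, hc⟩ := om_twist φ hxA hx0 Y hw0 hwA hwi hy (b := 1) (wb := 1) 0 one_ne_zero
    A.one_mem h11 (by simp) G n hn
  refine ⟨c, c0, fun v a hv hh => ?_⟩
  have hh' : 1 * (∑ m ∈ G.support, G m • ∏ j, y j ^ m j) * ∏ i, x i ^ (-n i) ∈ A := by
    rw [one_mul]
    exact hh
  have h1 := hc v a 0 hv (LGF.one v) hh'
  rw [zero_mul, zero_add] at h1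
  rw [← h1]
  congr 1
  unfold lv
  rw [one_mul]

include hw0 hwA hwi hy hxA hx0 in
lemma lv_mem (G : (J → ℤ) →₀ k) (n : I → ℤ) (hn : ∀ m ∈ G.support, ∀ i, n i ≤ gm Y 0 m i) :
    lv G y * ∏ i, x i ^ (-n i) ∈ A := by
  have h11 : (1 : K)⁻¹ ∈ A := by rw [inv_one]; exact A.one_mem
  have h1 := twist_mem (b := 1) (wb := 1) hxA hx0 Y hw0 hwA hwi hy 0 one_ne_zero
    A.one_mem h11 (by simp) G n hn
  rw [one_mul] at h1
  exact h1

end point

end Pool.Agent.TH214.V
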