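import Pool.Agent.TH214.V.Sch1

/-! Minimal exponents at a point; the nondegeneracy condition relative to equations. -/

set_option autoImplicit false
set_option linter.unusedVariables false
set_option linter.unusedSectionVars false

universe u

open Pool.Agent.W558 Pool.Agent.W177.WD Pool.Agent.W973.CUT Pool.Agent.W973.CUT2

namespace Pool.Agent.TH214.V

/-- The equations `G s` have rank at least `c` in the directions `vt` at all points of their
initial degenerations, and the functions `F t` are jointly nondegenerate on them. -/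
def NDV {k : Type u} [Field k] {J σ τ : Type} [Fintype J] (G : σ → (J → ℤ) →₀ k)
    (F : τ → (J → ℤ) →₀ k) (vt : J → Prop) (tw : τ → Prop) (c : ℕ) : Prop :=
  ∀ (κ : Type u) [Field κ] [Algebra k κ] (l : J → ℤ) (z : J → κ), (∀ j, z j ≠ 0) →
    (∀ s, vl (G s) l z = 0) →
    (∃ (s : Fin c → σ) (a : Fin c → J → κ), (∀ i j, ¬ vt j → a i j = 0) ∧
      ∀ i j, der (G (s j)) l z (a i) = if i = j then 1 else 0) ∧
    ∀ t0, (tw t0 ∨ ∃ m ∈ (F t0).support, ∑ j, l j * m j < 0) →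
      ∃ a : J → κ, (∀ j, ¬ vt j → a j = 0) ∧ (∀ s, der (G s) l z a = 0) ∧
        der (F t0) l z a ≠ 0 ∧ ∀ t, t ≠ t0 →
          (tw t ∨ ∃ m ∈ (F t).support, ∑ j, l j * m j ≤ 0) → der (F t) l z a = 0

/-- Logarithmic vectors with arbitrary logarithmic values on the functions `z j` with `vt j`. -/
def DualV {k K : Type u} [Field k] [Field K] [Algebra k K] {R0 R : Subalgebra k K} {T I : Type}
    [Fintype I] {ι J : Type} (M : LM R0 R T I) (n : ι → I → ℤ) (h : T → ι → K)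
    (z : J → K) (Z : J → I → ℤ) (vt : J → Prop) : Prop :=
  ∀ t (κ : Type u) [Field κ] [Algebra k κ] (φ : M.A t →ₐ[k] κ) (c : J → κ),
    (∀ j, ¬ vt j → c j = 0) →
    ∃ v : LT φ (M.x t), (∀ l (hh : h t l ∈ M.A t), om v (n l) hh = 0) ∧
      ∀ j, LGF v (Z j) (z j) (c j)

lemma DualV.ov {k K : Type u} [Field k] [Field K] [Algebra k K] {R0 R R0' R' : Subalgebra k K}
    {T I T' I' : Type} [Fintype I] [Fintype I'] {M : LM R0 R T I} {M' : LM R0' R' T' I'}
    {π : T' → T} {Θ : I' → I → ℤ} (hOv : Ov M M' π Θ) {ι J : Type} {n : ι → I → ℤ}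
    {h : T → ι → K} (hA : ∀ t l, h t l ∈ M.A t) {z : J → K} {Z : J → I → ℤ} {vt : J → Prop}
    (hD : DualV M n h z Z vt) :
    DualV M' (fun l => tr Θ (n l)) (fun t' => h (π t')) z (fun j => tr Θ (Z j)) vt := by
  intro t' κ _ _ φ' c hc
  obtain ⟨v, hv1, hv3⟩ := hD (π t') κ (φ'.comp (Subalgebra.inclusion (hOv.le t'))) c hc
  obtain ⟨v', h1, h2⟩ := hOv.lt t' κ φ' v
  refine ⟨v', ?_, ?_⟩
  · intro l hh
    rw [om_tr hOv v v' h1 h2 (n l) (hA _ l)]
    exact hv1 l _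
  · intro j
    exact lgf_tr hOv v v' h1 h2 (hv3 j)

lemma Dual.dualV {k K : Type u} [Field k] [Field K] [Algebra k K] {R0 R : Subalgebra k K}
    {T I : Type} [Fintype I] {ι G J : Type} {M : LM R0 R T I} {n : ι → I → ℤ} {h : T → ι → K}
    {g : G → K} {Γ : G → I → ℤ} {y : J → K} {Y : J → I → ℤ} (hD : Dual M n h g Γ y Y) :
    DualV M n h (Sum.elim g y) (Sum.elim Γ Y) (fun q => q.isRight) := by
  intro t κ _ _ φ c hc
  obtain ⟨v, hv1, hv2, hv3⟩ := hD t κ φ (fun j => c (Sum.inr j))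
  refine ⟨v, hv1, ?_⟩
  rintro (b | j)
  · have := hc (Sum.inl b) (by simp)
    rw [this]
    exact hv2 b
  · exact hv3 j

section point

variable {k K : Type u} [Field k] [Field K] [Algebra k K] {A : Subalgebra k K} {κ : Type u}
  [Field κ] [Algebra k κ] (φ : A →ₐ[k] κ) {I J : Type} [Fintype I] [Fintype J] {x : I → K}
  (hxA : ∀ i, x i ∈ A) (hx0 : ∀ i, x i ≠ 0) (Y : J → I → ℤ)

include hx0 in
lemma not_unit {i : I} (hi : φ ⟨x i, hxA i⟩ = 0) : ¬ (x i)⁻¹ ∈ A := by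
  intro hi'
  have h1 : φ ⟨x i, hxA i⟩ * φ ⟨(x i)⁻¹, hi'⟩ = 1 := by
    rw [← map_mul, ← map_one φ]
    congr 1
    exact Subtype.ext (mul_inv_cancel₀ (hx0 i))
  rw [hi, zero_mul] at h1
  exact zero_ne_one h1

open Classical in
lemma sum_ls (m : J → ℤ) : ∑ j, ls φ hxA Y j * m j =
    ∑ i ∈ Finset.univ.filter (fun i => φ ⟨x i, hxA i⟩ = 0), gm Y 0 m i := by
  unfold ls gm
  simp only [Pi.zero_apply, zero_add]
  rw [Finset.sum_comm]
  refine Finset.sum_congr rfl fun j _ => ?_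
  rw [Finset.sum_mul]
  refine Finset.sum_congr rfl fun i _ => ?_
  ring

/-- Comparability of the exponents of the monomials of `P`. -/
def CC (A : Subalgebra k K) (x : I → K) (Y : J → I → ℤ) (P : (J → ℤ) →₀ k) : Prop :=
  ∀ m ∈ P.support, ∀ m' ∈ P.support, (∀ i, gm Y 0 m i ≤ gm Y 0 m' i ∨ (x i)⁻¹ ∈ A) ∨
    (∀ i, gm Y 0 m' i ≤ gm Y 0 m i ∨ (x i)⁻¹ ∈ A)

include hx0 in
lemma exists_min_mono {P : (J → ℤ) →₀ k} (hP : P.support.Nonempty) (hC : CC A x Y P) :
    ∃ m ∈ P.support, ∀ m' ∈ P.support, ∀ i, φ ⟨x i, hxA i⟩ = 0 →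
      gm Y 0 m i ≤ gm Y 0 m' i := by
  obtain ⟨m1, hm1⟩ := hP
  have : Nonempty {m // m ∈ P.support} := ⟨⟨m1, hm1⟩⟩
  obtain ⟨⟨m0, hm0⟩, hmin⟩ := Pool.Agent.W349.WD.Sum.exists_min
    (fun a b : {m // m ∈ P.support} =>
      ∀ i, gm Y 0 a.1 i ≤ gm Y 0 b.1 i ∨ (x i)⁻¹ ∈ A)
    (fun a b => hC a.1 a.2 b.1 b.2)
    (by
      intro a b c h1 h2 i'
      rcases h1 i' with h3 | h3
      · rcases h2 i' with h4 | h4
        · exact Or.inl (h3.trans h4)
        · exact Or.inr h4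
      · exact Or.inr h3)
  exact ⟨m0, hm0, fun m hm i hi => (hmin ⟨m, hm⟩ i).resolve_right (not_unit φ hxA hx0 hi)⟩

include hx0 in
lemma nmin_att {P : (J → ℤ) →₀ k} (hP : P.support.Nonempty) (hC : CC A x Y P) :
    ∃ m ∈ P.support, ∀ i, φ ⟨x i, hxA i⟩ = 0 → gm Y 0 m i = nmin P Y 0 i := by
  obtain ⟨m0, hm0, hmin⟩ := exists_min_mono φ hxA hx0 Y hP hC
  refine ⟨m0, hm0, fun i hi => le_antisymm ?_ (nmin_le_gm _ _ _ _ m0 hm0)⟩
  obtain ⟨m2, hm2, h2⟩ := nmin_eq P hP Y 0 i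
  rw [← h2]
  exact hmin m2 hm2 i hi

include hx0 in
open Classical in
lemma npole_att {P : (J → ℤ) →₀ k} (hC : CC A x Y P)
    (hC0 : ∀ m ∈ P.support, (∀ i, gm Y 0 m i ≤ 0 ∨ (x i)⁻¹ ∈ A) ∨
      (∀ i, 0 ≤ gm Y 0 m i ∨ (x i)⁻¹ ∈ A))
    (h : ∃ i, npole P Y 0 i < 0 ∧ φ ⟨x i, hxA i⟩ = 0) :
    (∃ m ∈ P.support, ∀ i, φ ⟨x i, hxA i⟩ = 0 → gm Y 0 m i = npole P Y 0 i) ∧
      ∃ m ∈ P.support, ∑ j, ls φ hxA Y j * m j < 0 := by
  obtain ⟨i0, hi0, hi0'⟩ := h
  have hne : P.support.Nonempty := by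
    rcases npole_eq P Y 0 i0 with h1 | ⟨m, hm, -⟩
    · exact absurd h1 hi0.ne
    · exact ⟨m, hm⟩
  obtain ⟨m0, hm0, hmin'⟩ := exists_min_mono φ hxA hx0 Y hne hC
  have hz0 : (∀ i, φ ⟨x i, hxA i⟩ = 0 → gm Y 0 m0 i ≤ 0) ∨
      (∀ i, φ ⟨x i, hxA i⟩ = 0 → 0 ≤ gm Y 0 m0 i) := by
    rcases hC0 m0 hm0 with h1 | h1
    · exact Or.inl fun i hi => (h1 i).resolve_right (not_unit φ hxA hx0 hi)
    · exact Or.inr fun i hi => (h1 i).resolve_right (not_unit φ hxA hx0 hi)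
  rcases hz0 with hz0 | hz0
  · have hCm : ∀ i, φ ⟨x i, hxA i⟩ = 0 → gm Y 0 m0 i = npole P Y 0 i := by
      intro i hi
      refine le_antisymm ?_ (npole_le_gm _ _ _ _ m0 hm0)
      exact npole_min _ _ _ _ _ (hz0 i hi) fun m hm => hmin' m hm i hi
    refine ⟨⟨m0, hm0, hCm⟩, m0, hm0, ?_⟩
    rw [sum_ls]
    refine Finset.sum_neg' (fun i hi => ?_) ⟨i0, ?_, ?_⟩
    · exact hz0 i (Finset.mem_filter.1 hi).2
    · exact Finset.mem_filter.2 ⟨Finset.mem_univ _, hi0'⟩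
    · rw [hCm i0 hi0']
      exact hi0
  · exfalso
    have h5 : 0 ≤ npole P Y 0 i0 := npole_min _ _ _ _ _ le_rfl fun m hm =>
      (hz0 i0 hi0').trans (hmin' m hm i0 hi0')
    exact absurd hi0 (not_lt.2 h5)

/-- If the pole exponents are attained then there is a monomial of nonpositive weight. -/
lemma npole_wt {P : (J → ℤ) →₀ k}
    (h : ∃ m ∈ P.support, ∀ i, φ ⟨x i, hxA i⟩ = 0 → gm Y 0 m i = npole P Y 0 i) :
    ∃ m ∈ P.support, ∑ j, ls φ hxA Y j * m j ≤ 0 := by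
  classical
  obtain ⟨m, hm, h1⟩ := h
  refine ⟨m, hm, ?_⟩
  rw [sum_ls]
  refine Finset.sum_nonpos fun i hi => ?_
  rw [h1 i (Finset.mem_filter.1 hi).2]
  exact npole_le _ _ _ _

end point

/-- Solution of the linear equations of the correction. -/
lemma correct2 {k κ : Type u} [Field k] [Field κ] [Algebra k κ] {J σ τ : Type} [Fintype J]
    [Finite τ] (G : σ → (J → ℤ) →₀ k) (F : τ → (J → ℤ) →₀ k) (l : J → ℤ) (z : J → κ)
    (vt : J → Prop) (C tw : τ → Prop) {c : ℕ} (s : Fin c → σ) (a : Fin c → J → κ)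
    (ha0 : ∀ i j, ¬ vt j → a i j = 0)
    (ha : ∀ i j, der (G (s j)) l z (a i) = if i = j then 1 else 0)
    (b : τ → J → κ) (hb0 : ∀ t j, ¬ vt j → b t j = 0)
    (hb : ∀ t, C t → tw t → (∀ s, der (G s) l z (b t) = 0) ∧ der (F t) l z (b t) ≠ 0 ∧
      ∀ t', C t' → t' ≠ t → der (F t') l z (b t) = 0)
    (hun : ∀ t, ¬ tw t → (∀ s, ∀ m ∈ (G s).support, ∀ j, ¬ vt j → m j = 0) ∧
      ∀ m ∈ (F t).support, ∀ j, ¬ vt j → m j = 0)
    (α : J → κ) :
    ∃ cc : J → κ, (∀ j, ¬ vt j → cc j = α j) ∧ (∀ i, der (G (s i)) l z cc = 0) ∧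
      ∀ t, C t → der (F t) l z cc = 0 := by
  classical
  have := Fintype.ofFinite τ
  let β : J → κ := fun j => if vt j then 0 else α j
  have hzero : ∀ P : (J → ℤ) →₀ k, (∀ m ∈ P.support, ∀ j, ¬ vt j → m j = 0) →
      der P l z β = 0 := by
    intro P hP
    unfold der
    refine Finset.sum_eq_zero fun m hm => ?_
    have h1 : ∑ j, (m j : κ) * β j = 0 := by
      refine Finset.sum_eq_zero fun j _ => ?_
      by_cases hj : vt j
      · change (m j : κ) * (if vt j then 0 else α j) = 0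
        rw [if_pos hj, mul_zero]
      · rw [hP m (Finset.mem_filter.1 hm).1 j hj, Int.cast_zero, zero_mul]
    rw [h1, mul_zero, zero_mul]
  let r : Fin c → κ := fun i => - der (G (s i)) l z β
  let β1 : J → κ := fun j => β j + 1 * ∑ i, r i * a i j
  have hβ1G : ∀ i, der (G (s i)) l z β1 = 0 := by
    intro i
    change der (G (s i)) l z (fun j => β j + 1 * ∑ i, r i * a i j) = 0
    rw [der_add, der_sum, one_mul, Finset.sum_eq_single i]
    · rw [ha, if_pos rfl, mul_one]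
      change _ + - der (G (s i)) l z β = 0
      exact add_neg_cancel _
    · intro i' _ hne
      rw [ha, if_neg hne, mul_zero]
    · intro h
      exact absurd (Finset.mem_univ i) h
  have hβ1u : ∀ t, ¬ tw t → der (F t) l z β1 = 0 := by
    intro t ht
    obtain ⟨h1, h2⟩ := hun t ht
    have h3 : ∀ i, r i = 0 := fun i => by
      change - der (G (s i)) l z β = 0
      rw [hzero _ (h1 _), neg_zero]
    have h4 : β1 = β := by
      funext j
      change β j + 1 * ∑ i, r i * a i j = β j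
      rw [Finset.sum_eq_zero fun i _ => by rw [h3 i, zero_mul], mul_zero, add_zero]
    rw [h4]
    exact hzero _ h2
  let S : Finset τ := Finset.univ.filter fun t => C t ∧ tw t
  let q : τ → κ := fun t => - (der (F t) l z β1 / der (F t) l z (b t))
  refine ⟨fun j => β1 j + 1 * ∑ t ∈ S, q t * b t j, ?_, ?_, ?_⟩
  · intro j hj
    have h1 : ∑ t ∈ S, q t * b t j = 0 := Finset.sum_eq_zero fun t _ => by
      rw [hb0 t j hj, mul_zero]
    have h2 : ∑ i, r i * a i j = 0 := Finset.sum_eq_zero fun i _ => by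
      rw [ha0 i j hj, mul_zero]
    change (if vt j then 0 else α j) + 1 * ∑ i, r i * a i j + 1 * ∑ t ∈ S, q t * b t j = α j
    rw [h1, h2, if_neg hj]
    ring
  · intro i
    rw [der_add, der_sum, hβ1G i, one_mul, zero_add]
    refine Finset.sum_eq_zero fun t ht => ?_
    obtain ⟨-, h1, h2⟩ := Finset.mem_filter.1 ht
    rw [(hb t h1 h2).1, mul_zero]
  · intro t hC
    rw [der_add, der_sum, one_mul]
    by_cases htw : tw t
    · rw [Finset.sum_eq_single t]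
      · change der (F t) l z β1 + - (der (F t) l z β1 / der (F t) l z (b t)) *
          der (F t) l z (b t) = 0
        rw [neg_mul, div_mul_cancel₀ _ (hb t hC htw).2.1, add_neg_cancel]
      · intro t' ht' hne
        obtain ⟨-, h1, h2⟩ := Finset.mem_filter.1 ht'
        rw [(hb t' h1 h2).2.2 t hC hne.symm, mul_zero]
      · intro h
        exact absurd (Finset.mem_filter.2 ⟨Finset.mem_univ t, hC, htw⟩) h
    · rw [hβ1u t htw, zero_add]
      refine Finset.sum_eq_zero fun t' ht' => ?_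
      obtain ⟨-, h1, h2⟩ := Finset.mem_filter.1 ht'
      have hne : t ≠ t' := by
        rintro rfl
        exact htw h2
      rw [(hb t' h1 h2).2.2 t hC hne, mul_zero]

end Pool.Agent.TH214.V
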