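import Pool.Agent.TH214.V.Sch2

/-! Points of the subvariety. -/

set_option autoImplicit false
set_option linter.unusedVariables false
set_option linter.unusedSectionVars false

universe u

open Pool.Agent.W558 Pool.Agent.W177.WD Pool.Agent.W973.CUT Pool.Agent.W973.CUT2

namespace Pool.Agent.TH214.V

section pqz

variable {k K L : Type u} [Field k] [Field K] [Algebra k K] [Field L] [Algebra k L]
  {Q : Subalgebra k K} (π : Q →ₐ[k] L)

lemma pq_smul (r : k) {x : K} (hx : x ∈ Q) : pq π (r • x) = r • pq π x := by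
  rw [pq_of π (Q.smul_mem hx r), pq_of π hx, ← map_smul]
  rfl

lemma pq_sum {B : Type} (S : Finset B) (h : B → K) (hh : ∀ i ∈ S, h i ∈ Q) :
    pq π (∑ i ∈ S, h i) = ∑ i ∈ S, pq π (h i) := by
  classical
  induction S using Finset.induction_on with
  | empty => simp [pq_zero]
  | insert b S hb ih =>
    rw [Finset.sum_insert hb, Finset.sum_insert hb,
      pq_add π (hh b (Finset.mem_insert_self b S))
        (Q.sum_mem fun i hi => hh i (Finset.mem_insert_of_mem hi)),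
      ih fun i hi => hh i (Finset.mem_insert_of_mem hi)]

lemma pq_sub {x y : K} (hx : x ∈ Q) (hy : y ∈ Q) : pq π (x - y) = pq π x - pq π y := by
  rw [pq_of π hx, pq_of π hy, pq_of π (Q.sub_mem hx hy), ← map_sub]
  rfl

variable {J : Type} [Fintype J] {z : J → K}

lemma mono_memQ (hz : ∀ j, z j ∈ Q) (hzi : ∀ j, (z j)⁻¹ ∈ Q) (m : J → ℤ) :
    ∏ j, z j ^ m j ∈ Q := Q.prod_mem fun j _ => zpow_mem_of (hz j) (Or.inr (hzi j))

lemma lv_memQ (hz : ∀ j, z j ∈ Q) (hzi : ∀ j, (z j)⁻¹ ∈ Q) (F : (J → ℤ) →₀ k) : lv F z ∈ Q :=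
  Q.sum_mem fun m _ => Q.smul_mem (mono_memQ hz hzi m) _

lemma pq_lv (hz0 : ∀ j, z j ≠ 0) (hz : ∀ j, z j ∈ Q) (hzi : ∀ j, (z j)⁻¹ ∈ Q)
    (F : (J → ℤ) →₀ k) : pq π (lv F z) = lv F (fun j => pq π (z j)) := by
  unfold lv
  rw [pq_sum π _ _ fun m _ => Q.smul_mem (mono_memQ hz hzi m) _]
  refine Finset.sum_congr rfl fun m _ => ?_
  rw [pq_smul π _ (mono_memQ hz hzi m), pq_prod π _ _ fun j _ =>
    zpow_mem_of (hz j) (Or.inr (hzi j))]
  congr 1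
  exact Finset.prod_congr rfl fun j _ => pq_zpow π (hz0 j) (hz j) (hzi j) _

end pqz

section point

variable {k K : Type u} [Field k] [Field K] [Algebra k K] {A : Subalgebra k K} {κ : Type u}
  [Field κ] [Algebra k κ] (φ : A →ₐ[k] κ) {I J : Type} [Fintype I] [Fintype J] {x : I → K}
  (hxA : ∀ i, x i ∈ A) (hx0 : ∀ i, x i ≠ 0)

variable {z w : J → K} (Z : J → I → ℤ) (hw0 : ∀ j, w j ≠ 0) (hwA : ∀ j, w j ∈ A)
  (hwi : ∀ j, (w j)⁻¹ ∈ A) (hz : ∀ j, z j = w j * ∏ i, x i ^ Z j i)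

include hw0 hwA hwi hz hx0 in
/-- The equation at a zero. -/
lemma eq_pt (P : (J → ℤ) →₀ k) (hC : CC A x Z P)
    (hmem : lv P z * ∏ i, x i ^ (-nmin P Z 0 i) ∈ A)
    (h0 : φ ⟨lv P z * ∏ i, x i ^ (-nmin P Z 0 i), hmem⟩ = 0) :
    vl P (ls φ hxA Z) (zp φ hxA hwA Z) = 0 ∧ ∃ c : κ, c ≠ 0 ∧ ∀ (v : LT φ x) (a : J → κ),
      (∀ j, LGF v (Z j) (z j) (a j)) →
      v.D.D ⟨lv P z * ∏ i, x i ^ (-nmin P Z 0 i), hmem⟩ =
        c * der P (ls φ hxA Z) (zp φ hxA hwA Z) a := by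
  classical
  by_cases hP : P.support.Nonempty
  · have hn : ∀ m ∈ P.support, ∀ i, nmin P Z 0 i ≤ gm Z 0 m i := fun m hm i =>
      nmin_le_gm _ _ _ _ m hm
    have hCt := nmin_att φ hxA hx0 Z hP hC
    obtain ⟨c, c0, hc⟩ := val_twist φ hxA hx0 Z hw0 hwA hwi hz P (nmin P Z 0) hn
    obtain ⟨c', c0', hc'⟩ := om_lv φ hxA hx0 Z hw0 hwA hwi hz P (nmin P Z 0) hn
    have h1 := hc hmem
    rw [h0, if_pos hCt] at h1
    refine ⟨(mul_eq_zero.1 h1.symm).resolve_left c0, c', c0', fun v a hv => ?_⟩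
    have h2 := hc' v a hv hmem
    rw [if_pos hCt] at h2
    rw [← h2]
    unfold om
    rw [h0, zero_mul, add_zero]
  · rw [Finset.not_nonempty_iff_eq_empty] at hP
    have hface : face P (ls φ hxA Z) = ∅ := by
      unfold face
      rw [hP]
      rfl
    refine ⟨?_, 1, one_ne_zero, fun v a hv => ?_⟩
    · unfold vl
      rw [hface, Finset.sum_empty]
    · have h3 : (⟨lv P z * ∏ i, x i ^ (-nmin P Z 0 i), hmem⟩ : A) = 0 := by
        apply Subtype.ext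
        change lv P z * ∏ i, x i ^ (-nmin P Z 0 i) = 0
        unfold lv
        rw [hP, Finset.sum_empty, zero_mul]
      have h4 : der P (ls φ hxA Z) (zp φ hxA hwA Z) a = 0 := by
        unfold der
        rw [hface, Finset.sum_empty]
      rw [h3, map_zero, h4, mul_zero]

end point

section lt

variable {k K L : Type u} [Field k] [Field K] [Algebra k K] [Field L] [Algebra k L]
  {Q : Subalgebra k K} (π : Q →ₐ[k] L) {T I : Type} [Fintype I] {c d : ℕ}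
  {M : LM (⊥ : Subalgebra k K) ⊤ T I} (h : CutOk π c d M)

include h in
/-- Descent of logarithmic vectors. -/
lemma desc_lt (hloc : S2_loc.{u}) {t : T} {κ : Type u} [Field κ] [Algebra k κ]
    (φ' : im π (M.A t) (h.AQ t) →ₐ[k] κ) {γ : Fin c → M.A t}
    {v : Fin c → LT (φ'.comp (qm π (M.A t) (h.AQ t))) (M.x t)} (hγ : ∀ j, pq π (γ j : K) = 0)
    (hv : ∀ i j, (v i).D.D (γ j) = if i = j then 1 else 0)
    (V : LT (φ'.comp (qm π (M.A t) (h.AQ t))) (M.x t)) (hV : ∀ j, V.D.D (γ j) = 0) :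
    ∃ V' : LT φ' (fun i => pq π (M.x t i)),
      (∀ a (ha : a ∈ M.A t), V'.D.D ⟨pq π a, pq_mem π (h.AQ t) ha⟩ = V.D.D ⟨a, ha⟩) ∧
      V'.e = V.e := by
  obtain ⟨E, hE⟩ := desc_pt π h hloc φ' hγ hv V.D hV
  refine ⟨⟨E, V.e, fun i hi => ?_⟩, hE, rfl⟩
  refine (hE _ (M.xA t i)).trans ?_
  rw [V.hx i (M.xA t i), below]

lemma om_desc {t : T} {κ : Type u} [Field κ] [Algebra k κ] (hAQ : M.A t ≤ Q)
    (φ' : im π (M.A t) hAQ →ₐ[k] κ) (V : LT (φ'.comp (qm π (M.A t) hAQ)) (M.x t))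
    (V' : LT φ' (fun i => pq π (M.x t i)))
    (h1 : ∀ a (ha : a ∈ M.A t), V'.D.D ⟨pq π a, pq_mem π hAQ ha⟩ = V.D.D ⟨a, ha⟩)
    (h2 : V'.e = V.e) (n : I → ℤ) {a : K} (ha : a ∈ M.A t)
    (ha' : pq π a ∈ im π (M.A t) hAQ) : om V' n ha' = om V n ha := by
  unfold om
  rw [h2]
  have h3 : V'.D.D ⟨pq π a, ha'⟩ = V.D.D ⟨a, ha⟩ := h1 a ha
  rw [h3, below]

end lt

section inp

variable {k K L : Type u} [Field k] [Field K] [Algebra k K] [Field L] [Algebra k L]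
  {Q : Subalgebra k K} (π : Q →ₐ[k] L) {T I : Type}

/-- The assumptions on the ambient model. -/
structure CutIn (c d : ℕ) (M : LM (⊥ : Subalgebra k K) ⊤ T I) : Prop where
  uq : UQ M Q
  fr : ∀ t, ∀ s ∈ Q, ∃ e ∈ M.A t, e ≠ 0 ∧ e⁻¹ ∈ Q ∧ s * e ∈ M.A t
  gen : ∀ x : L, ∃ a b : Q, π b ≠ 0 ∧ x * π b = π a
  up : ∀ b : Fin (c + d + 1) → K, ¬ AlgebraicIndependent k b
  dn : ∃ b : Fin d → L, AlgebraicIndependent k b

variable {π}

lemma CutIn.ov [Fintype I] {c d : ℕ} {M : LM (⊥ : Subalgebra k K) ⊤ T I} (h : CutIn π c d M)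
    {T' I' : Type} [Fintype I'] {M' : LM (⊥ : Subalgebra k K) ⊤ T' I'} {ρ : T' → T}
    {Θ : I' → I → ℤ} (hOv : Ov M M' ρ Θ) (hU : ∀ S : Subalgebra k K, UQ M S → UQ M' S) :
    CutIn π c d M' where
  uq := hU Q h.uq
  fr := by
    intro t s hs
    obtain ⟨e, he, he0, hei, hse⟩ := h.fr (ρ t) s hs
    exact ⟨e, hOv.le t he, he0, hei, hOv.le t hse⟩
  gen := h.gen
  up := h.up
  dn := h.dn

lemma CutIn.ok {c d : ℕ} {M : LM (⊥ : Subalgebra k K) ⊤ T I} (h : CutIn π c d M)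
    (hpt : CutPt π c M) : CutOk π c d M :=
  ⟨h.uq.1, h.uq.2, h.fr, h.gen, h.up, h.dn, hpt⟩

variable [Fintype I] {M : LM (⊥ : Subalgebra k K) ⊤ T I} {J : Type} [Fintype J]
  {z : J → K} {Z : J → I → ℤ}

lemma fn_memQ (hT : Nonempty T) (hU : UQ M Q) (hZ : Fn M z Z) (j : J) :
    z j ≠ 0 ∧ z j ∈ Q ∧ (z j)⁻¹ ∈ Q := by
  obtain ⟨t⟩ := hT
  obtain ⟨w, h0, h1, h2, h3⟩ := hZ j t
  have hx : ∀ i, M.x t i ∈ Q := fun i => hU.1 t (M.xA t i)
  rw [h3]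
  refine ⟨mul_ne_zero h0 (Finset.prod_ne_zero_iff.2 fun i _ => zpow_ne_zero _ (M.x0 t i)),
    Q.mul_mem (hU.1 t h1) (Q.prod_mem fun i _ => zpow_mem_of (hx i) (Or.inr (hU.2 t i))), ?_⟩
  rw [mul_inv, ← Finset.prod_inv_distrib]
  refine Q.mul_mem (hU.1 t h2) (Q.prod_mem fun i _ => ?_)
  rw [← zpow_neg]
  exact zpow_mem_of (hx i) (Or.inr (hU.2 t i))

end inp

end Pool.Agent.TH214.V
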