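import Pool.Agent.TH214.V.Sch4

/-! Joint normal forms on the subvariety. -/

set_option autoImplicit false
set_option linter.unusedVariables false
set_option linter.unusedSectionVars false

universe u

open Pool.Agent.W558 Pool.Agent.W177.WD Pool.Agent.W973.CUT Pool.Agent.W973.CUT2

namespace Pool.Agent.TH214.V

section main

variable {k K L : Type u} [Field k] [Field K] [Algebra k K] [Field L] [Algebra k L]
  {Q : Subalgebra k K} {π : Q →ₐ[k] L} {T I : Type} [Finite T] [Fintype I] {c d : ℕ}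
  {M : LM (⊥ : Subalgebra k K) ⊤ T I} {ι J σ τ : Type} [Fintype J] [Finite σ] [Finite τ]
  {n : ι → I → ℤ} {a h : T → ι → K} {f : ι → K} {z : J → K} {Z : J → I → ℤ} {vt : J → Prop}

/-- Joint normal form on the subvariety. -/
theorem cut_gm (hloc : S2_loc.{u}) (p : ℕ) [Fact p.Prime] (hN : NFJ p M f n a h)
    (hZ : Fn M z Z) (hD : DualV M n h z Z vt) (hin : CutIn π c d M) (haQ : ∀ t j, a t j ∈ Q)
    (G : σ → (J → ℤ) →₀ k) (F : τ → (J → ℤ) →₀ k)
    (hG : ∀ s, pq π (lv (G s) z) = 0) (hND : NDV G F vt (fun _ => True) c) :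
    GM p k (Sum.elim (fun j => pq π (f j)) (fun t => lv (F t) (fun j => pq π (z j))))
      (fun j => pq π (z j)) := by
  classical
  have hp : p.Prime := Fact.out
  have : Fintype τ := Fintype.ofFinite τ
  have : Fintype σ := Fintype.ofFinite σ
  let X : Type := Option ((Σ t : τ, {m // m ∈ (F t).support}) ⊕
    (Σ s : σ, {m // m ∈ (G s).support}))
  let Γ' : X → I → ℤ := fun o => o.elim 0
    (Sum.elim (fun q => gm Z 0 q.2.1) (fun q => gm Z 0 q.2.1))
  obtain ⟨T', I', iT, iI, M', ρ, Θ, hOv, hΘ, hS, hC⟩ := ovp_uq M Γ'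
  let Z1 : J → I' → ℤ := fun j => tr Θ (Z j)
  have hN0 := nfj_ov hOv hN
  have hD1 := hD.ov hOv hN.hA
  have hZ1 : Fn M' z Z1 := hZ.ov hOv
  have hin1 : CutIn π c d M' := hin.ov hOv hS
  have hCF : ∀ t t', CC (M'.A t') (M'.x t') Z1 (F t) := by
    intro t t' m hm m' hm'
    have h1 := hC (some (Sum.inl ⟨t, m, hm⟩)) (some (Sum.inl ⟨t, m', hm'⟩)) t'
    change (∀ i', (∑ i, Θ i' i * gm Z 0 m i ≤ ∑ i, Θ i' i * gm Z 0 m' i ∨ _)) ∨
      (∀ i', (∑ i, Θ i' i * gm Z 0 m' i ≤ ∑ i, Θ i' i * gm Z 0 m i ∨ _)) at h1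
    simp only [tr_gm0] at h1
    exact h1
  have hCG : ∀ s t', CC (M'.A t') (M'.x t') Z1 (G s) := by
    intro t t' m hm m' hm'
    have h1 := hC (some (Sum.inr ⟨t, m, hm⟩)) (some (Sum.inr ⟨t, m', hm'⟩)) t'
    change (∀ i', (∑ i, Θ i' i * gm Z 0 m i ≤ ∑ i, Θ i' i * gm Z 0 m' i ∨ _)) ∨
      (∀ i', (∑ i, Θ i' i * gm Z 0 m' i ≤ ∑ i, Θ i' i * gm Z 0 m i ∨ _)) at h1
    simp only [tr_gm0] at h1
    exact h1
  choose w w0 wA wi hw using fun (t' : T') (j : J) => hZ1 j t'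
  let NF : τ → I' → ℤ := fun t => nmin (F t) Z1 0
  have hnF : ∀ t, ∀ m ∈ (F t).support, ∀ i, NF t i ≤ gm Z1 0 m i := fun t m hm i =>
    nmin_le_gm _ _ _ _ m hm
  have hmF : ∀ t t', lv (F t) z * ∏ i, M'.x t' i ^ (-NF t i) ∈ M'.A t' := fun t t' =>
    lv_mem (M'.xA t') (M'.x0 t') Z1 (w0 t') (wA t') (wi t') (hw t') (F t) (NF t) (hnF t)
  have hpl := fun t' (κ : Type u) [Field κ] [Algebra k κ] (φ : M'.A t' →ₐ[k] κ) hφ =>
    place π hZ1 hD1 hin1 G F (fun _ => True) hG hND hCG t' κ φ hφ (w0 t') (wA t') (wi t') (hw t')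
  have hpt : CutPt π c M' := by
    intro t' κ _ _ φ hφ
    obtain ⟨-, s, a, γ, v, -, -, h1, h2, -⟩ := hpl t' κ φ hφ
    exact ⟨γ, v, h1, h2⟩
  have hok : CutOk π c d M' := hin1.ok hpt
  have hzQ : ∀ j, z j ≠ 0 ∧ z j ∈ Q ∧ (z j)⁻¹ ∈ Q := fn_memQ (nonempty_T M') hin1.uq hZ1
  have hxQ : ∀ t i, M'.x t i ∈ Q := fun t i => hok.AQ t (M'.xA t i)
  have hprodQ : ∀ t (e : I' → ℤ), ∏ i, M'.x t i ^ e i ∈ Q := fun t e =>
    Q.prod_mem fun i _ => zpow_mem_of (hxQ t i) (Or.inr (hok.xQ t i))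
  have hpqprod : ∀ t (e : I' → ℤ), pq π (∏ i, M'.x t i ^ e i) =
      ∏ i, pq π (M'.x t i) ^ e i := by
    intro t e
    rw [pq_prod π _ _ fun i _ => zpow_mem_of (hxQ t i) (Or.inr (hok.xQ t i))]
    exact Finset.prod_congr rfl fun i _ => pq_zpow π (M'.x0 t i) (hxQ t i) (hok.xQ t i) _
  have hlvQ : ∀ P : (J → ℤ) →₀ k, lv P z ∈ Q := fun P =>
    lv_memQ (fun j => (hzQ j).2.1) (fun j => (hzQ j).2.2) P
  refine ⟨T', I', iT, iI, cutLM π hok hloc, Sum.elim (fun l => tr Θ (n l)) NF,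
    fun t' => Sum.elim (fun j => pq π (a (ρ t') j)) (fun _ => 0),
    fun t' => Sum.elim (fun j => pq π (h (ρ t') j))
      (fun t => pq π (lv (F t) z * ∏ i, M'.x t' i ^ (-NF t i))), Z1, ⟨?_, ?_, ?_⟩, ?_, ?_⟩
  · rintro t' (l | t)
    · exact pq_mem π _ (hN0.hA t' l)
    · exact pq_mem π _ (hmF t t')
  · rintro t' (l | t)
    · change pq π (f l) = pq π (a (ρ t') l) ^ p +
        (∏ i, pq π (M'.x t' i) ^ tr Θ (n l) i) * pq π (h (ρ t') l)
      have haQ' := haQ (ρ t') l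
      have hhQ : h (ρ t') l ∈ Q := hok.AQ t' (hN0.hA t' l)
      have h1 := hN0.eq t' l
      rw [h1, pq_add π (Q.pow_mem haQ' p) (Q.mul_mem (hprodQ t' _) hhQ),
        pq_pow π haQ', pq_mul π (hprodQ t' _) hhQ, hpqprod]
    · change lv (F t) (fun j => pq π (z j)) = 0 ^ p + (∏ i, pq π (M'.x t' i) ^ NF t i) *
        pq π (lv (F t) z * ∏ i, M'.x t' i ^ (-NF t i))
      rw [pq_mul π (hlvQ _) (hprodQ t' _), hpqprod, zero_pow hp.ne_zero, zero_add,
        ← pq_lv π (fun j => (hzQ j).1) (fun j => (hzQ j).2.1) (fun j => (hzQ j).2.2)]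
      have h2 : (∏ i, pq π (M'.x t' i) ^ NF t i) * ∏ i, pq π (M'.x t' i) ^ (-NF t i) = 1 := by
        rw [← Finset.prod_mul_distrib]
        refine Finset.prod_eq_one fun i _ => ?_
        rw [← zpow_add₀ (pq_ne π (M'.x0 t' i) (hxQ t' i) (hok.xQ t' i)), add_neg_cancel,
          zpow_zero]
      rw [mul_left_comm, h2, mul_one]
  · intro t' κ _ _ φ'
    let φ : M'.A t' →ₐ[k] κ := φ'.comp (qm π (M'.A t') (hok.AQ t'))
    have hφ : ∀ a (ha : a ∈ M'.A t'), pq π a = 0 → φ ⟨a, ha⟩ = 0 := fun a ha h0 =>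
      below_zero π (hok.AQ t') φ' a ha h0
    obtain ⟨hvl, s, av, γ, v, ha0, ha, hγ, hv, hV⟩ := hpl t' κ φ hφ
    let x := M'.x t'
    have hxA := M'.xA t'
    have hx0 := M'.x0 t'
    let ζ := zp φ hxA (wA t') Z1
    let l := ls φ hxA Z1
    have hζ : ∀ j, ζ j ≠ 0 := zp_ne φ hxA Z1 (w0 t') (wA t') (wi t')
    obtain ⟨-, hND2⟩ := hND κ l ζ hζ hvl
    let C : τ → Prop := fun t =>
      ∃ m ∈ (F t).support, ∀ i, φ ⟨x i, hxA i⟩ = 0 → gm Z1 0 m i = NF t i
    choose cF cF0 hcF using fun t => om_lv φ hxA hx0 Z1 (w0 t') (wA t') (wi t') (hw t') (F t)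
      (NF t) (hnF t)
    have hhA : ∀ l, h (ρ t') l ∈ M'.A t' := fun l => hN0.hA t' l
    rintro (j0 | t0)
    · obtain ⟨v0, hv0, hv0'⟩ := hN0.ln t' κ φ j0
      choose α hα using fun j => LGF.exists v0 (w0 t' j) (wA t' j) (wi t' j) (hw t' j)
      have hav : ∀ t, ∃ b : J → κ, (∀ j, ¬ vt j → b j = 0) ∧ (C t → True →
          (∀ s, der (G s) l ζ b = 0) ∧ der (F t) l ζ b ≠ 0 ∧
          ∀ t', C t' → t' ≠ t → der (F t') l ζ b = 0) := by
        intro t
        obtain ⟨b, h1, h2, h3, h4⟩ := hND2 t (Or.inl trivial)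
        exact ⟨b, h1, fun _ _ => ⟨h2, h3, fun t' hC' hne => h4 t' hne (Or.inl trivial)⟩⟩
      choose b hb0 hb using hav
      obtain ⟨cc, hcc1, hcc2, hcc3⟩ := correct2 G F l ζ vt C (fun _ => True) s av ha0 ha b hb0 hb
        (fun t ht => absurd trivial ht) α
      obtain ⟨vD, hvD1, hvD2⟩ := hD1 t' κ φ (fun j => cc j - α j)
        (fun j hj => by rw [hcc1 j hj, sub_self])
      have hvD1' : ∀ l (hh : h (ρ t') l ∈ M'.A t'), om vD (tr Θ (n l)) hh = 0 :=
        fun l hh => hvD1 l hh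
      have hz' : ∀ j, LGF (ltAdd v0 vD 1) (Z1 j) (z j) (cc j) := by
        intro j
        have h1 := LGF.add 1 hx0 (hα j) (hvD2 j)
        have h2 : α j + 1 * (cc j - α j) = cc j := by ring
        rw [h2] at h1
        exact h1
      obtain ⟨V', hV'1, hV'2⟩ := desc_lt π hok hloc φ' hγ hv (ltAdd v0 vD 1)
        (hV (ltAdd v0 vD 1) cc hz' hcc2)
      have hom := fun (e : I' → ℤ) {y : K} (hy : y ∈ M'.A t')
        (hy' : pq π y ∈ im π (M'.A t') (hok.AQ t')) =>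
        om_desc π (hok.AQ t') φ' (ltAdd v0 vD 1) V' hV'1 hV'2 e hy hy'
      refine ⟨V', ?_, ?_⟩
      · refine Eq.trans_ne (hom (tr Θ (n j0)) (hhA j0) _) ?_
        change om (ltAdd v0 vD 1) (tr Θ (n j0)) (hhA j0) ≠ 0
        rw [om_ltAdd, hvD1' j0, mul_zero, add_zero]
        exact hv0
      · rintro (l' | t) hne
        · refine (hom (tr Θ (n l')) (hhA l') _).trans ?_
          change om (ltAdd v0 vD 1) (tr Θ (n l')) (hhA l') = 0
          rw [om_ltAdd, hvD1' l', mul_zero, add_zero]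
          exact hv0' l' fun h => hne (by rw [h])
        · refine (hom (NF t) (hmF t t') _).trans ?_
          refine (hcF t (ltAdd v0 vD 1) cc hz' (hmF t t')).trans ?_
          split_ifs with hCt
          · rw [hcc3 t hCt, mul_zero]
          · rfl
    · obtain ⟨b, hb1, hb2, hb3, hb4⟩ := hND2 t0 (Or.inl trivial)
      have hne0 : (F t0).support.Nonempty := by
        by_contra hcon
        rw [Finset.not_nonempty_iff_eq_empty] at hcon
        apply hb3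
        unfold der face
        rw [hcon]
        simp
      have hCt0 := nmin_att φ hxA hx0 Z1 hne0 (hCF t0 t')
      obtain ⟨vD, hvD1, hvD2⟩ := hD1 t' κ φ b hb1
      obtain ⟨V', hV'1, hV'2⟩ := desc_lt π hok hloc φ' hγ hv vD (hV vD b hvD2 fun i => hb2 _)
      have hom := fun (e : I' → ℤ) {y : K} (hy : y ∈ M'.A t')
        (hy' : pq π y ∈ im π (M'.A t') (hok.AQ t')) =>
        om_desc π (hok.AQ t') φ' vD V' hV'1 hV'2 e hy hy'
      refine ⟨V', ?_, ?_⟩
      · refine Eq.trans_ne (hom (NF t0) (hmF t0 t') _) ?_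
        refine Eq.trans_ne (hcF t0 vD b hvD2 (hmF t0 t')) ?_
        rw [if_pos hCt0]
        exact mul_ne_zero (cF0 t0) hb3
      · rintro (l' | t) hne
        · refine (hom (tr Θ (n l')) (hhA l') _).trans ?_
          exact hvD1 l' (hN0.hA t' l')
        · refine (hom (NF t) (hmF t t') _).trans ?_
          refine (hcF t vD b hvD2 (hmF t t')).trans ?_
          split_ifs with hCt
          · rw [hb4 t (fun h => hne (by rw [h])) (Or.inl trivial), mul_zero]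
          · rfl
  · intro j t'
    refine ⟨pq π (w t' j), pq_ne π (w0 t' j) (hok.AQ t' (wA t' j)) (hok.AQ t' (wi t' j)),
      pq_mem π _ (wA t' j), ?_, ?_⟩
    · rw [← pq_inv π (w0 t' j) (hok.AQ t' (wA t' j)) (hok.AQ t' (wi t' j))]
      exact pq_mem π _ (wi t' j)
    · change pq π (z j) = pq π (w t' j) * ∏ i, pq π (M'.x t' i) ^ Z1 j i
      rw [← hpqprod, ← pq_mul π (hok.AQ t' (wA t' j)) (hprodQ t' _), ← hw t' j]
  · intro t' y
    exact im_frac π hok t' y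

end main

end Pool.Agent.TH214.V
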