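import Pool.Agent.TH214.V.Sub
import Pool.Agent.TH214.Model

/-! Normal forms on the function fields of the subvarieties. -/

set_option autoImplicit false
set_option linter.unusedVariables false
set_option linter.unusedSectionVars false

universe u

open Pool.Agent.W558 Pool.Agent.W177.WD Polynomial TensorProduct

namespace Pool.Agent.TH214.V

section fld

variable {k K : Type u} [Field k] [Field K] [Algebra k K] {J : Type} (v : J → K)

/-- The field generated by the elements `v j`. -/
abbrev AF : IntermediateField k K := IntermediateField.adjoin k (Set.range v)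

/-- The generators. -/
def av (j : J) : AF (k := k) v := ⟨v j, IntermediateField.subset_adjoin k _ ⟨j, rfl⟩⟩

lemma aeval_av (P : MvPolynomial J k) : ((MvPolynomial.aeval (av v) P : AF (k := k) v) : K) =
    MvPolynomial.aeval v P := by
  have h1 : (AF (k := k) v).val (MvPolynomial.aeval (av v) P) =
      MvPolynomial.aeval (fun j => (AF (k := k) v).val (av v j)) P := by
    rw [← AlgHom.comp_apply, MvPolynomial.comp_aeval]
  exact h1

lemma av_gen (x : AF (k := k) v) : ∃ a b : MvPolynomial J k,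
    MvPolynomial.aeval (av (k := k) v) b ≠ 0 ∧
      x * MvPolynomial.aeval (av v) b = MvPolynomial.aeval (av v) a := by
  obtain ⟨r, s, h⟩ := (IntermediateField.mem_adjoin_range_iff k v x.1).1 x.2
  by_cases hs : MvPolynomial.aeval v s = 0
  · refine ⟨0, 1, ?_, ?_⟩
    · rw [map_one]; exact one_ne_zero
    · rw [map_one, map_zero, mul_one]
      apply Subtype.ext
      rw [h, hs, div_zero]
      rfl
  · refine ⟨r, s, ?_, ?_⟩
    · intro h0
      apply hs
      rw [← aeval_av, h0]
      rfl
    · apply Subtype.ext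
      change x.1 * ((MvPolynomial.aeval (av v) s : AF (k := k) v) : K) =
        ((MvPolynomial.aeval (av v) r : AF (k := k) v) : K)
      rw [aeval_av, aeval_av, h, div_mul_cancel₀ _ hs]

lemma av_ind {J' : Type} (e : J' → J) (h : AlgebraicIndependent k (v ∘ e)) :
    AlgebraicIndependent k (av (k := k) v ∘ e) :=
  ((AF (k := k) v).val.algebraicIndependent_iff (AF (k := k) v).val.injective).1 h

end fld

section main

variable (p : ℕ) [Fact p.Prime] (k K : Type u) [Field k] [PerfectField k] [CharP k p] [Field K]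
  [Algebra k K] (m n : ℕ) (x : Fin m → Fin 2 → K) (y : Fin n → K) (hy0 : ∀ j, y j ≠ 0)
  (d' c : ℕ) (ρ : Fin d' → Fin n) (hcd : c + d' = n)
  (hxy : AlgebraicIndependent k (Sum.elim (fun q : Fin m × Fin 2 => x q.1 q.2) (y ∘ ρ)))
  (P Q : Fin m → MvPolynomial (Fin 2) k) (hQ : ∀ i, Q i ≠ 0)
  (B : Type) [Fintype B] (U V : B → Fin m → MvPolynomial (Fin 2) k) (hU : ∀ b i, U b i ≠ 0)
  (hV : ∀ b i, V b i ≠ 0) (g : B → K)
  (hg : ∀ b, g b = ∏ i, MvPolynomial.aeval (x i) (U b i) / MvPolynomial.aeval (x i) (V b i))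
  (J0 : Type) [Fintype J0] (ι0 : J0 ↪ B ⊕ Fin n) (σ τ : Type) [Finite σ] [Finite τ]
  (G : σ → (J0 → ℤ) →₀ k) (F : τ → (J0 → ℤ) →₀ k) (tw : τ → Prop)
  (hG : ∀ s, lv (G s) (fun j => Sum.elim g y (ι0 j)) = 0)
  (hND : NDV G F (fun j => (ι0 j).isRight = true) tw c)

include hy0 hcd hxy hQ hU hV hg hG hND

/-- Joint Artin-Schreier normal form on the function field of the subvariety. -/
theorem sch_gma (hun : ∀ t, ¬ tw t → (∀ s, ∀ m ∈ (G s).support, ∀ j, ¬ (ι0 j).isRight = true →
      m j = 0) ∧ ∀ m ∈ (F t).support, ∀ j, ¬ (ι0 j).isRight = true → m j = 0) :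
    ∃ (f' : Fin m → AF (k := k) (Sum.elim (fun q : Fin m × Fin 2 => x q.1 q.2) y))
      (F' : τ → AF (k := k) (Sum.elim (fun q : Fin m × Fin 2 => x q.1 q.2) y))
      (g' : B ⊕ Fin n → AF (k := k) (Sum.elim (fun q : Fin m × Fin 2 => x q.1 q.2) y)),
      (∀ i, (f' i : K) = MvPolynomial.aeval (x i) (P i) / MvPolynomial.aeval (x i) (Q i)) ∧
      (∀ t, (F' t : K) = lv (F t) (fun j => Sum.elim g y (ι0 j))) ∧
      (∀ q, (g' q : K) = Sum.elim g y q) ∧ GMA p k (Sum.elim f' F') g' := by
  classical
  have hp : p.Prime := Fact.out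
  let J := (Fin m × Fin 2) ⊕ Fin n
  let L := RF k J
  let E := RF k (Fin 2)
  let vK : J → K := Sum.elim (fun q : Fin m × Fin 2 => x q.1 q.2) y
  let K0 := AF (k := k) vK
  have hcL : CharP L p := charP_of_injective_algebraMap (algebraMap k L).injective p
  let v : J → L := fun q => algebraMap (MvPolynomial J k) L (MvPolynomial.X q)
  have hv : Rat (k := k) v := rat_RF _
  let v1 : Fin m × Fin 2 → L := fun q => v (Sum.inl q)
  let y1 : Fin n → L := fun l => v (Sum.inr l)
  have hvs : v = Sum.elim v1 y1 := by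
    funext q
    rcases q with q | l <;> rfl
  have hs : Rat (k := k) (Sum.elim v1 y1) := by
    rw [← hvs]
    exact hv
  have hv1 : AlgebraicIndependent k v1 := hs.ind.comp Sum.inl Sum.inl_injective
  have hy1 : AlgebraicIndependent k y1 := hs.ind.comp Sum.inr Sum.inr_injective
  let L1 := RF k (Fin m × Fin 2)
  let v0 : Fin m × Fin 2 → L1 := fun q => algebraMap (MvPolynomial (Fin m × Fin 2) k) L1
    (MvPolynomial.X q)
  have hv0 : Rat (k := k) v0 := rat_RF _
  have hvi : ∀ i, AlgebraicIndependent k (fun c => v0 (i, c)) := fun i =>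
    hv0.ind.comp (fun c => (i, c)) (Prod.mk_right_injective i)
  -- the elements of the subfield
  let x' : Fin m × Fin 2 → K0 := fun q => av vK (Sum.inl q)
  let y' : Fin n → K0 := fun j => av vK (Sum.inr j)
  have hav : (av (k := k) vK : J → K0) = Sum.elim x' y' := by
    funext q
    rcases q with q | l <;> rfl
  have hind0 : AlgebraicIndependent k (vK ∘ Sum.map (id : Fin m × Fin 2 → Fin m × Fin 2) ρ) := by
    have h1 : vK ∘ Sum.map (id : Fin m × Fin 2 → Fin m × Fin 2) ρ =
        Sum.elim (fun q : Fin m × Fin 2 => x q.1 q.2) (y ∘ ρ) := by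
      funext q
      rcases q with q | l <;> rfl
    rw [h1]
    exact hxy
  have hind := av_ind vK _ hind0
  have hx' : AlgebraicIndependent k x' := hind.comp Sum.inl Sum.inl_injective
  have hy' : ∀ j, y' j ≠ 0 := fun j h => hy0 j (congrArg Subtype.val h)
  have hgen : ∀ x : K0, ∃ a b : MvPolynomial ((Fin m × Fin 2) ⊕ Fin n) k,
      MvPolynomial.aeval (Sum.elim x' y') b ≠ 0 ∧
        x * MvPolynomial.aeval (Sum.elim x' y') b = MvPolynomial.aeval (Sum.elim x' y') a := by
    intro z
    rw [← hav]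
    exact av_gen vK z
  have dn : ∃ b : Fin (Fintype.card ((Fin m × Fin 2) ⊕ Fin d')) → K0,
      AlgebraicIndependent k b :=
    ⟨_, hind.comp _ (Fintype.equivFin ((Fin m × Fin 2) ⊕ Fin d')).symm.injective⟩
  have hcd' : c + Fintype.card ((Fin m × Fin 2) ⊕ Fin d') = Fintype.card (Fin m × Fin 2) + n := by
    simp only [Fintype.card_sum, Fintype.card_fin]
    omega
  -- the values of the functions
  have hval : ∀ (i : Fin m) (A : MvPolynomial (Fin 2) k),
      ((rsub hx' (rsub (hvi i) (algebraMap (MvPolynomial (Fin 2) k) E A)) : K0) : K) =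
        MvPolynomial.aeval (x i) A := by
    intro i A
    have hxi : AlgebraicIndependent k (fun c => x i c) :=
      hxy.comp (fun c => Sum.inl (i, c)) (fun a b hab => by simpa using hab)
    have h1 : ∀ z : L1, ((rsub hx' z : K0) : K) = (K0.val.comp (rsub hx')) z := fun z => rfl
    rw [h1, rsub_rsub (hvi i) (K0.val.comp (rsub hx')) hxi, rsub_algebraMap]
    intro c
    change ((rsub hx' (v0 (i, c)) : K0) : K) = _
    have h2 : rsub hx' (v0 (i, c)) = x' (i, c) := rsub_X hx' (i, c)
    rw [h2]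
    rfl
  let f : Fin m → E := fun i => algebraMap (MvPolynomial (Fin 2) k) E (P i) /
    algebraMap (MvPolynomial (Fin 2) k) E (Q i)
  let cc : Fin m → B → E := fun i b => algebraMap (MvPolynomial (Fin 2) k) E (U b i) /
      algebraMap (MvPolynomial (Fin 2) k) E (V b i)
  have hne : ∀ A : MvPolynomial (Fin 2) k, A ≠ 0 →
      algebraMap (MvPolynomial (Fin 2) k) E A ≠ 0 := fun A hA =>
    (FaithfulSMul.algebraMap_eq_zero_iff _ _).not.2 hA
  have hc : ∀ i b, cc i b ≠ 0 := fun i b => div_ne_zero (hne _ (hU b i)) (hne _ (hV b i))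
  have hGM := gma_family (p := p) wa_prod B
    (fun f c hc => gma_plane wa_gin wa_gir wa_loc p k B f c hc) (Fin m) L1 v0 hv0 f cc hc
  have hGM1 := gma_prod_mono hGM
  have hGM2 := gmd_prodQ (rsub hv1) (rsub hy1) (productMap_injective_of_ind hs.ind hv1 hy1)
    (productMap_gen hs hv1 hy1) hGM1 (rat_RF (Fin n))
  have hyE : (fun j => rsub hy1 (algebraMap (MvPolynomial (Fin n) k) (RF k (Fin n))
      (MvPolynomial.X j))) = y1 := funext fun j => rsub_X hy1 j
  rw [hyE] at hGM2
  -- the values in the subfield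
  have hfK : ∀ i, ((rsub hx' (rsub (hvi i) (f i)) : K0) : K) =
      MvPolynomial.aeval (x i) (P i) / MvPolynomial.aeval (x i) (Q i) := by
    intro i
    change ((rsub hx' (rsub (hvi i) (_ / _)) : K0) : K) = _
    rw [map_div₀, map_div₀, IntermediateField.coe_div, hval, hval]
  have hgK : ∀ b, ((rsub hx' (∏ i, rsub (hvi i) (cc i b)) : K0) : K) = g b := by
    intro b
    rw [map_prod, hg]
    have h1 : ∀ h : Fin m → K0, ((∏ i, h i : K0) : K) = ∏ i, (h i : K) := fun h =>
      map_prod K0.val h Finset.univ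
    rw [h1]
    refine Finset.prod_congr rfl fun i _ => ?_
    change ((rsub hx' (rsub (hvi i) (_ / _)) : K0) : K) = _
    rw [map_div₀, map_div₀, IntermediateField.coe_div, hval, hval]
  have hgyK : ∀ q, ((Sum.elim (fun b => rsub hx' (∏ i, rsub (hvi i) (cc i b))) y' q : K0) : K) =
      Sum.elim g y q := by
    rintro (b | j)
    · exact hgK b
    · rfl
  have hlvK : ∀ A : (J0 → ℤ) →₀ k, ((lv (exF ι0 A)
      (Sum.elim (fun b => rsub hx' (∏ i, rsub (hvi i) (cc i b))) y') : K0) : K) =
        lv A (fun j => Sum.elim g y (ι0 j)) := by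
    intro A
    have h1 : ∀ z : J0 → K0, ((lv A z : K0) : K) = lv A (fun j => (z j : K)) := by
      intro z
      change K0.val (lv A z) = _
      unfold lv
      rw [map_sum]
      refine Finset.sum_congr rfl fun q _ => ?_
      rw [map_smul, map_prod]
      refine congrArg _ ?_
      exact Finset.prod_congr rfl fun j _ => map_zpow₀ _ _ _
    rw [exF_lv, h1]
    congr 1
    funext j
    exact hgyK _
  have hmain := gma_sub p hs hv1 hx' hy' hgen hcd' dn hGM2 (fun s => exF ι0 (G s))
    (fun t => exF ι0 (F t)) tw (fun s => Subtype.ext ((hlvK (G s)).trans (hG s)))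
    (hND.ext ι0 fun i h => h) (fun t ht => ⟨fun s q hq j hj =>
      exF_unt ι0 (vt0 := fun i => (ι0 i).isRight = true)
        (vt := fun q : B ⊕ Fin n => q.isRight = true) (fun i h => h)
      ((hun t ht).1 s) q hq j hj, fun q hq j hj =>
      exF_unt ι0 (vt0 := fun i => (ι0 i).isRight = true)
        (vt := fun q : B ⊕ Fin n => q.isRight = true) (fun i h => h)
      ((hun t ht).2) q hq j hj⟩)
  exact ⟨_, _, _, hfK, fun t => hlvK (F t), hgyK, hmain⟩

end main

end Pool.Agent.TH214.V
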