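import Pool.Agent.TH214.V.AmbC
import Pool.Agent.TH214.V.Ext
import Pool.Agent.W558.S2.Loc

/-! Normal forms on subvarieties of the product of a torus with a rational variety. -/

set_option autoImplicit false
set_option linter.unusedVariables false
set_option linter.unusedSectionVars false

universe u

open Pool.Agent.W558 Pool.Agent.W177.WD Pool.Agent.W973.CUT Pool.Agent.W973.CUT2

namespace Pool.Agent.TH214.V

section amb

variable {k L K0 : Type u} [Field k] [Field L] [Algebra k L] [Field K0] [Algebra k K0]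
  {J1 : Type} [Fintype J1] {r : ℕ} {ι B : Type} [Fintype B]

/-- Joint Artin-Schreier normal form on the subvariety. -/
theorem gma_sub (p : ℕ) [Fact p.Prime] {v1 : J1 → L} {y1 : Fin r → L}
    (hs : Rat (k := k) (Sum.elim v1 y1))
    (hv1 : AlgebraicIndependent k v1) {x' : J1 → K0} (hx' : AlgebraicIndependent k x')
    {y' : Fin r → K0} (hy' : ∀ j, y' j ≠ 0)
    (hgen : ∀ x : K0, ∃ a b : MvPolynomial (J1 ⊕ Fin r) k,
      MvPolynomial.aeval (Sum.elim x' y') b ≠ 0 ∧
        x * MvPolynomial.aeval (Sum.elim x' y') b = MvPolynomial.aeval (Sum.elim x' y') a)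
    {c d : ℕ} (hcd : c + d = Fintype.card J1 + r) (dn : ∃ b : Fin d → K0, AlgebraicIndependent k b)
    {f : ι → RF k J1} {g : B → RF k J1}
    (h : GMDQ p k (rsub hv1) (fun l => rsub hv1 (f l)) (fun b => rsub hv1 (g b)) y1)
    {σ τ : Type} [Finite σ] [Finite τ] (G : σ → (B ⊕ Fin r → ℤ) →₀ k)
    (F : τ → (B ⊕ Fin r → ℤ) →₀ k) (tw : τ → Prop)
    (hG : ∀ s, lv (G s) (Sum.elim (fun b => rsub hx' (g b)) y') = 0)
    (hND : NDV G F (fun q => q.isRight = true) tw c)
    (hun : ∀ t, ¬ tw t → (∀ s, ∀ m ∈ (G s).support, ∀ j : B ⊕ Fin r, ¬ j.isRight = true →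
        m j = 0) ∧ ∀ m ∈ (F t).support, ∀ j : B ⊕ Fin r, ¬ j.isRight = true → m j = 0) :
    GMA p k (Sum.elim (fun l => rsub hx' (f l))
      (fun t => lv (F t) (Sum.elim (fun b => rsub hx' (g b)) y')))
      (Sum.elim (fun b => rsub hx' (g b)) y') := by
  obtain ⟨T, I, hT, hI, M, n, a, hh, Γ, Y, hN, hFg, hFy, hD, hPQ, ha⟩ := h
  obtain ⟨Q, π, h1, h2, h3⟩ := cutIn_amb hs hv1 hx' hy' hgen hcd dn
  have hin := h3 M Y hFy hPQ
  have hZ : Fn M (Sum.elim (fun b => rsub hv1 (g b)) y1) (Sum.elim Γ Y) := by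
    rintro (b | j)
    · exact hFg b
    · exact hFy j
  have hpz : (fun j => pq π (Sum.elim (fun b => rsub hv1 (g b)) y1 j)) =
      Sum.elim (fun b => rsub hx' (g b)) y' := by
    funext j
    rcases j with b | j
    · exact (h1 _).2
    · exact (h2 _).2
  have hzQ := fn_memQ (nonempty_T M) hin.uq hZ
  have h4 := cut_gma loc_main p hN hZ (Dual.dualV hD) hin (fun t j => by
    obtain ⟨e, he⟩ := ha t j
    rw [he]
    exact (h1 e).1) G F tw (fun s => by
      rw [pq_lv π (fun j => (hzQ j).1) (fun j => (hzQ j).2.1) (fun j => (hzQ j).2.2), hpz]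
      exact hG s) hND hun
  rw [hpz] at h4
  have h5 : (fun j => pq π (rsub hv1 (f j))) = fun l => rsub hx' (f l) :=
    funext fun l => (h1 _).2
  rw [h5] at h4
  exact h4

end amb

end Pool.Agent.TH214.V
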